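import Pool.Agent.H90TL.A1

set_option autoImplicit false

/-!
Coefficients of a polynomial from its growth, and from the size of the roots of its
specialisations.
-/

open Polynomial Finset

namespace Pool.Agent.H90GC

open Pool.Agent.H322R2 Pool.Agent.H90TL

/-- the coefficients are bounded by the values on a circle -/
lemma coeff_circle (h : ℂ[X]) {A R : ℝ} (hR : 0 < R) (hA : ∀ z : ℂ, ‖z‖ = R → ‖h.eval z‖ ≤ A)
    (j : ℕ) : ‖h.coeff j‖ * R ^ j ≤ A := by
  obtain ⟨N, hN⟩ : ∃ N, N = max h.natDegree j + 1 := ⟨_, rfl⟩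
  have hN0 : N ≠ 0 := by omega
  have hprim := Complex.isPrimitiveRoot_exp N hN0
  obtain ⟨ζ, hζ⟩ : ∃ ζ : ℂ, ζ = Complex.exp (2 * Real.pi * Complex.I / N) := ⟨_, rfl⟩
  rw [← hζ] at hprim
  have hζn : ‖ζ‖ = 1 := by
    exact hprim.norm'_eq_one hN0
  have hζ0 : ζ ≠ 0 := by
    rintro rfl
    simp at hζn
  have key : ∑ l ∈ range N, h.eval ((R : ℂ) * ζ ^ l) * (ζ ^ l)⁻¹ ^ j = N * (h.coeff j * (R : ℂ) ^ j) := by
    have e1 : ∀ l ∈ range N, h.eval ((R : ℂ) * ζ ^ l) * (ζ ^ l)⁻¹ ^ j =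
        ∑ i ∈ range N, h.coeff i * (R : ℂ) ^ i * (ζ ^ i * (ζ ^ j)⁻¹) ^ l := by
      intro l _
      rw [eval_eq_sum_range' (n := N) (by omega), Finset.sum_mul]
      apply Finset.sum_congr rfl
      intro i _
      rw [mul_pow, mul_pow]
      have : (ζ ^ l) ^ i * (ζ ^ l)⁻¹ ^ j = (ζ ^ i) ^ l * (ζ ^ j)⁻¹ ^ l := by
        rw [← pow_mul, ← pow_mul, inv_pow, inv_pow, ← pow_mul, ← pow_mul, mul_comm l i, mul_comm l j]
      linear_combination (h.coeff i * (R : ℂ) ^ i) * this
    rw [Finset.sum_congr rfl e1, Finset.sum_comm]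
    have e2 : ∀ i ∈ range N, ∑ l ∈ range N, h.coeff i * (R : ℂ) ^ i * (ζ ^ i * (ζ ^ j)⁻¹) ^ l =
        if i = j then N * (h.coeff j * (R : ℂ) ^ j) else 0 := by
      intro i hi
      rw [← Finset.mul_sum]
      split_ifs with hij
      · rw [hij, mul_inv_cancel₀ (pow_ne_zero _ hζ0)]
        simp
        ring
      · rw [Finset.mem_range] at hi
        have h1 : ζ ^ i * (ζ ^ j)⁻¹ ≠ 1 := by
          intro h1
          apply hij
          have h2 : ζ ^ i = ζ ^ j := by
            rw [← div_eq_mul_inv, div_eq_one_iff_eq (pow_ne_zero _ hζ0)] at h1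
            exact h1
          exact hprim.pow_inj hi (by omega) h2
        have h2 : (ζ ^ i * (ζ ^ j)⁻¹) ^ N = 1 := by
          rw [mul_pow, inv_pow, ← pow_mul, ← pow_mul, mul_comm i, mul_comm j, pow_mul, pow_mul,
            hprim.pow_eq_one, one_pow, one_pow, inv_one, mul_one]
        have h3 : (∑ l ∈ range N, (ζ ^ i * (ζ ^ j)⁻¹) ^ l) * (ζ ^ i * (ζ ^ j)⁻¹ - 1) = 0 := by
          rw [geom_sum_mul, h2, sub_self]
        rcases mul_eq_zero.1 h3 with h4 | h4
        · rw [h4, mul_zero]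
        · exact absurd (sub_eq_zero.1 h4) h1
    rw [Finset.sum_congr rfl e2, Finset.sum_ite_eq' (range N) j, if_pos]
    rw [Finset.mem_range]; omega
  have h1 : ‖(N : ℂ) * (h.coeff j * (R : ℂ) ^ j)‖ ≤ N * A := by
    rw [← key]
    refine (norm_sum_le _ _).trans ?_
    have h2 : ∀ l ∈ range N, ‖h.eval ((R : ℂ) * ζ ^ l) * (ζ ^ l)⁻¹ ^ j‖ ≤ A := by
      intro l _
      rw [norm_mul, norm_pow, norm_inv, norm_pow, hζn, one_pow, inv_one, one_pow, mul_one]
      apply hA
      rw [norm_mul, norm_pow, hζn, one_pow, mul_one, Complex.norm_real, Real.norm_eq_abs,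
        abs_of_pos hR]
    refine (Finset.sum_le_sum h2).trans ?_
    rw [Finset.sum_const, card_range, nsmul_eq_mul]
  rw [norm_mul, norm_mul, norm_pow, Complex.norm_real, Real.norm_eq_abs, abs_of_pos hR,
    Complex.norm_natCast] at h1
  have hNpos : (0 : ℝ) < N := by exact_mod_cast Nat.pos_of_ne_zero hN0
  exact le_of_mul_le_mul_left h1 hNpos

/-- an integer polynomial of polynomial growth -/
lemma grow (h : ℤ[X]) {A : ℝ} (k : ℕ)
    (hA : ∀ z : ℂ, ‖eval₂ (Int.castRingHom ℂ) z h‖ ≤ A * max 1 ‖z‖ ^ k) :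
    h.natDegree ≤ k ∧ pn zn h ≤ (k + 1) * A := by
  have hA0 : 0 ≤ A := by
    have := hA 0
    simp only [norm_zero] at this
    rw [max_eq_left (by norm_num), one_pow, mul_one] at this
    exact (norm_nonneg _).trans this
  have h1 : ∀ R : ℝ, 1 ≤ R → ∀ j, |((h.coeff j : ℤ) : ℝ)| * R ^ j ≤ A * R ^ k := by
    intro R hR j
    have h2 := coeff_circle (h.map (Int.castRingHom ℂ)) (A := A * R ^ k) (R := R) (by linarith) (by
      intro z hz
      rw [eval_map]
      refine (hA z).trans ?_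
      rw [hz, max_eq_right hR]) j
    rw [coeff_map] at h2
    have h3 : ‖(Int.castRingHom ℂ) (h.coeff j)‖ = |((h.coeff j : ℤ) : ℝ)| := by
      rw [eq_intCast]
      exact Complex.norm_intCast _
    rwa [h3] at h2
  have hd : h.natDegree ≤ k := by
    by_contra hcon
    push Not at hcon
    have hne : h.coeff h.natDegree ≠ 0 := by
      rw [coeff_natDegree, Ne, leadingCoeff_eq_zero]
      rintro rfl
      simp at hcon
    have h2 := h1 (A + 2) (by linarith) h.natDegree
    have h3 : (1 : ℝ) ≤ |((h.coeff h.natDegree : ℤ) : ℝ)| := by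
      rw [← Int.cast_abs]
      exact_mod_cast Int.one_le_abs hne
    have hp : (0 : ℝ) < (A + 2) ^ k := by positivity
    have h4 : (A + 2) ^ (k + 1) ≤ (A + 2) ^ h.natDegree :=
      pow_le_pow_right₀ (by linarith) hcon
    have h5 : (A + 2) ^ h.natDegree ≤ A * (A + 2) ^ k := by
      refine le_trans ?_ h2
      exact le_mul_of_one_le_left (by positivity) h3
    rw [pow_succ] at h4
    nlinarith
  refine ⟨hd, ?_⟩
  rw [pn_eq_range zn h (Nat.lt_succ_of_le hd)]
  have h2 : ∀ j ∈ range (k + 1), zn (h.coeff j) ≤ A := by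
    intro j _
    have := h1 1 le_rfl j
    simpa using this
  refine (Finset.sum_le_sum h2).trans ?_
  rw [Finset.sum_const, card_range, nsmul_eq_mul]
  push_cast
  exact le_rfl

/-- a monic polynomial all of whose specialisations have roots of polynomial size -/
lemma roots_bound {H : ℤ[X][X]} (hH : H.Monic) {N E : ℕ} (hN : H.natDegree ≤ N) {B : ℝ} (hB : 1 ≤ B)
    (hr : ∀ x r : ℂ, ev x r H = 0 → ‖r‖ ≤ B * max 1 ‖x‖ ^ E) :
    XD (E * N) H ∧ pn (pn zn) H ≤ (N + 1) * ((E * N + 1) * (2 * B) ^ N) := by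
  have h1 : ∀ j (x : ℂ), ‖eval₂ (Int.castRingHom ℂ) x (H.coeff j)‖ ≤
      (2 * B) ^ N * max 1 ‖x‖ ^ (E * N) := by
    intro j x
    obtain ⟨ρ, hρ⟩ : ∃ ρ : ℝ, ρ = B * max 1 ‖x‖ ^ E := ⟨_, rfl⟩
    have hm : (1 : ℝ) ≤ max 1 ‖x‖ := le_max_left _ _
    have hρ1 : 1 ≤ ρ := by
      rw [hρ]
      exact one_le_mul_of_one_le_of_one_le hB (one_le_pow₀ hm)
    obtain ⟨P, hP⟩ : ∃ P : ℂ[X], P = H.map (evf x) := ⟨_, rfl⟩
    have hPm : P.Monic := by rw [hP]; exact hH.map _
    have hPd : P.natDegree = H.natDegree := by rw [hP]; exact hH.natDegree_map _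
    have h2 := coeff_le_of_roots_le (f := RingHom.id ℂ) (B := ρ) j hPm
      (by rw [Polynomial.map_id]; exact IsAlgClosed.splits _) (by
        intro z hz
        rw [Polynomial.map_id] at hz
        rw [hρ]
        apply hr x z
        have h3 : P.eval z = 0 := (mem_roots hPm.ne_zero).1 hz
        rw [hP, eval_map] at h3
        exact h3)
    rw [Polynomial.map_id, hPd, hP, coeff_map] at h2
    have h3 : evf x (H.coeff j) = eval₂ (Int.castRingHom ℂ) x (H.coeff j) := rfl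
    rw [h3] at h2
    refine h2.trans ?_
    have h4 : ((H.natDegree.choose j : ℕ) : ℝ) ≤ 2 ^ N := by
      have : H.natDegree.choose j ≤ 2 ^ N :=
        (Nat.choose_le_two_pow _ _).trans (Nat.pow_le_pow_right (by norm_num) hN)
      exact_mod_cast this
    calc ρ ^ (H.natDegree - j) * (H.natDegree.choose j : ℝ) ≤ ρ ^ N * 2 ^ N := by
          apply mul_le_mul _ h4 (by positivity) (by positivity)
          exact pow_le_pow_right₀ hρ1 (by omega)
      _ = (2 * B) ^ N * max 1 ‖x‖ ^ (E * N) := by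
          rw [hρ, mul_pow, mul_pow, ← pow_mul]; ring
  have h2 := fun j => grow (H.coeff j) (E * N) (h1 j)
  refine ⟨fun j => (h2 j).1, ?_⟩
  rw [pn_eq_range (pn zn) H (Nat.lt_succ_of_le hN)]
  refine (Finset.sum_le_sum fun j _ => (h2 j).2).trans ?_
  rw [Finset.sum_const, card_range, nsmul_eq_mul]
  push_cast
  exact le_rfl

end Pool.Agent.H90GC
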