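import Pool.Agent.H90GC.G3

set_option autoImplicit false

/-!
Conjugates of the trace form, and the degree of its residue at a unique place.
-/

open Polynomial Finset IntermediateField

namespace Pool.Agent.H90GC

section

variable {K : Type} [Field K] [NumberField K] {L Ω : Type} [Field L] [CharZero L] [Field Ω]
  [CharZero Ω] [Algebra L Ω] [IsAlgClosed Ω] [Algebra.IsAlgebraic L Ω]

omit [CharZero L] [CharZero Ω] in
lemma normalΩ : Normal L Ω :=
  { toIsAlgebraic := inferInstance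
    splits' := fun _ => IsAlgClosed.splits _ }

omit [CharZero L] in
lemma conj_Z {T : Finset ((K →+* Ω) → Ω)} (hT : ∀ (τ : Ω ≃ₐ[L] Ω), ∀ z ∈ T, act τ.toRingEquiv z ∈ T)
    (t : K) {z : (K →+* Ω) → Ω} (hz : z ∈ T) {r : Ω} (hr : aeval r (minpoly L (Zt t z)) = 0) :
    ∃ z' ∈ T, r = Zt t z' := by
  have : Normal L Ω := normalΩ
  obtain ⟨τ, hτ⟩ := minpoly.exists_algEquiv_of_root' (K := L) (L := Ω) (x := r) (y := Zt t z)
    (Algebra.IsAlgebraic.isAlgebraic _) hr
  refine ⟨act τ.toRingEquiv z, hT τ z hz, ?_⟩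
  rw [← hτ]
  exact act_Zt τ.toRingEquiv t z

lemma finrank_Z {T : Finset ((K →+* Ω) → Ω)}
    (hT : ∀ (τ : Ω ≃ₐ[L] Ω), ∀ z ∈ T, act τ.toRingEquiv z ∈ T)
    (t : K) {z : (K →+* Ω) → Ω} (hz : z ∈ T) : Module.finrank L L⟮Zt t z⟯ ≤ T.card := by
  classical
  have hint : IsIntegral L (Zt t z) := Algebra.IsIntegral.isIntegral _
  rw [IntermediateField.adjoin.finrank hint]
  have hsep : (minpoly L (Zt t z)).Separable := (minpoly.irreducible hint).separable
  have h1 := card_rootSet_eq_natDegree (K := Ω) hsep (IsAlgClosed.splits _)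
  rw [← h1]
  have h2 : (minpoly L (Zt t z)).rootSet Ω ⊆ ((T.image (Zt t) : Finset Ω) : Set Ω) := by
    intro r hr
    have h3 := aeval_eq_zero_of_mem_rootSet hr
    obtain ⟨z', hz', rfl⟩ := conj_Z hT t hz h3
    rw [Finset.coe_image]
    exact ⟨z', hz', rfl⟩
  calc Fintype.card ((minpoly L (Zt t z)).rootSet Ω)
      ≤ Fintype.card ((T.image (Zt t) : Finset Ω) : Set Ω) := by
        apply Set.card_le_card h2
    _ = (T.image (Zt t)).card := by simp
    _ ≤ T.card := Finset.card_image_le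

omit [IsAlgClosed Ω] [Algebra.IsAlgebraic L Ω] in
lemma deg_ge (𝒱 : ValuationSubring Ω) (hQ : ∀ q : ℚ, (q : Ω) ∈ 𝒱) {α : L} (hα : algebraMap L Ω α ∉ 𝒱)
    {υ : L} (hυ : υ ≠ 0) {T : Finset ((K →+* Ω) → Ω)}
    (hT : ∀ (τ : Ω ≃ₐ[L] Ω), ∀ z ∈ T, act τ.toRingEquiv z ∈ T)
    {t : K} (hsep : ∀ z ∈ T, ∀ z' ∈ T, z ≠ z' →
      (Zt t z - Zt t z') / algebraMap L Ω υ ∉ 𝒱.nonunits)
    (hmem : ∀ z ∈ T, Zt t z / algebraMap L Ω υ ∈ 𝒱)
    {z : (K →+* Ω) → Ω} (hz : z ∈ T) {m : ℕ} {σ₀ : K →+* Ω} {R : Finset Ω} (hR : m ≤ R.card)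
    (hRτ : ∀ r ∈ R, ∃ τ : Ω ≃ₐ[L] Ω, (∀ k, τ (σ₀ k) = σ₀ k) ∧ τ (z σ₀) = r)
    {M : IntermediateField L Ω} (hZM : Zt t z ∈ M) {A : ValuationSubring M}
    (hA : ∀ B : ValuationSubring M, (∀ q : ℚ, (q : M) ∈ B) → algebraMap L M α ∉ B → B = A)
    {u : ℚ[X]} (hu : u ≠ 0)
    (huA : aeval ((⟨Zt t z, hZM⟩ : M) / algebraMap L M υ) u ∈ A.nonunits) : m ≤ u.natDegree := by
  classical
  -- conjugate places
  have hconj : ∀ (τ : Ω ≃ₐ[L] Ω) (x : M), x ∈ A.nonunits → τ (x : Ω) ∈ 𝒱.nonunits := by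
    intro τ x hx
    have h1 : (𝒱.comap ((τ : Ω →+* Ω).comp (algebraMap M Ω))) = A := by
      apply hA
      · intro q
        rw [ValuationSubring.mem_comap, map_ratCast]
        exact hQ q
      · rw [ValuationSubring.mem_comap, RingHom.comp_apply, ← IsScalarTower.algebraMap_apply L M Ω]
        have : (τ : Ω →+* Ω) (algebraMap L Ω α) = algebraMap L Ω α := τ.commutes α
        rw [this]
        exact hα
    rw [ValuationSubring.mem_nonunits_iff_or] at hx ⊢
    rcases hx with hx | hx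
    · left
      rw [hx]
      simp
    · right
      intro h2
      apply hx
      rw [← h1, ValuationSubring.mem_comap, RingHom.comp_apply]
      have h3 : (τ : Ω →+* Ω) (algebraMap M Ω x⁻¹) = (τ (x : Ω))⁻¹ := by
        show τ ((x⁻¹ : M) : Ω) = _
        rw [IntermediateField.coe_inv, map_inv₀]
      rw [h3]
      exact h2
  choose! τ hτ1 hτ2 using hRτ
  have hact : ∀ r ∈ R, act (τ r).toRingEquiv z σ₀ = r := by
    intro r hr
    unfold act
    have h1 : (((τ r).toRingEquiv.symm : Ω →+* Ω).comp σ₀) = σ₀ := by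
      ext k
      have h2 := hτ1 r hr k
      show (τ r).symm (σ₀ k) = σ₀ k
      rw [AlgEquiv.symm_apply_eq, h2]
    rw [h1]
    exact hτ2 r hr
  have hτT : ∀ r ∈ R, act (τ r).toRingEquiv z ∈ T := fun r _ => hT _ z hz
  obtain ⟨w, hw⟩ : ∃ w : Ω → Ω, w = fun r => Zt t (act (τ r).toRingEquiv z) / algebraMap L Ω υ :=
    ⟨_, rfl⟩
  have hwV : ∀ r ∈ R, w r ∈ 𝒱 := by
    intro r hr
    rw [hw]
    exact hmem _ (hτT r hr)
  have hwτ : ∀ r, τ r (((⟨Zt t z, hZM⟩ : M) / algebraMap L M υ : M) : Ω) = w r := by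
    intro r
    rw [hw, IntermediateField.coe_div, map_div₀]
    have h1 : τ r (Zt t z) = Zt t (act (τ r).toRingEquiv z) := act_Zt (τ r).toRingEquiv t z
    have h2 : τ r ((algebraMap L M υ : M) : Ω) = algebraMap L Ω υ := by
      have h3 : ((algebraMap L M υ : M) : Ω) = algebraMap L Ω υ := rfl
      rw [h3]
      exact (τ r).commutes υ
    rw [h2]
    show τ r (Zt t z) / _ = _
    rw [h1]
  have hwu : ∀ r, aeval (w r) u ∈ 𝒱.nonunits := by
    intro r
    have h1 := hconj (τ r) _ huA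
    have h2 : τ r ((aeval ((⟨Zt t z, hZM⟩ : M) / algebraMap L M υ) u : M) : Ω) =
        aeval (w r) u := by
      rw [← hwτ r, aeval_def, aeval_def]
      have h3 := hom_eval₂ u (algebraMap ℚ M) (((τ r : Ω ≃ₐ[L] Ω) : Ω →+* Ω).comp (algebraMap M Ω))
        ((⟨Zt t z, hZM⟩ : M) / algebraMap L M υ)
      refine Eq.trans h3 ?_
      congr 1
      exact Subsingleton.elim _ _
    rw [h2] at h1
    exact h1
  -- the residue field
  obtain ⟨j, hj⟩ : ∃ j : ℚ →+* 𝒱, ∀ r, (j r : Ω) = r :=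
    ⟨(algebraMap ℚ Ω).codRestrict 𝒱.toSubring (by intro q; simpa using hQ q), fun r => by
      simp⟩
  obtain ⟨ub, hub⟩ : ∃ ub : (IsLocalRing.ResidueField 𝒱)[X],
    ub = u.map ((IsLocalRing.residue 𝒱).comp j) := ⟨_, rfl⟩
  have hub0 : ub ≠ 0 := by
    rw [hub, Ne, Polynomial.map_eq_zero]
    exact hu
  obtain ⟨ρ, hρ⟩ : ∃ ρ : R → IsLocalRing.ResidueField 𝒱,
    ρ = fun r : R => IsLocalRing.residue 𝒱 ⟨w r, hwV r r.2⟩ := ⟨_, rfl⟩
  have hρinj : Function.Injective ρ := by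
    intro r r' hrr
    by_contra hne
    have h1 : IsLocalRing.residue 𝒱 (⟨w r, hwV r r.2⟩ - ⟨w r', hwV r' r'.2⟩) = 0 := by
      rw [map_sub, sub_eq_zero]
      rw [hρ] at hrr
      exact hrr
    rw [IsLocalRing.residue_eq_zero_iff, ← ValuationSubring.coe_mem_nonunits_iff] at h1
    have h2 : ((⟨w r, hwV r r.2⟩ - ⟨w r', hwV r' r'.2⟩ : 𝒱) : Ω) =
        (Zt t (act (τ r).toRingEquiv z) - Zt t (act (τ r').toRingEquiv z)) / algebraMap L Ω υ := by
      rw [AddSubgroupClass.coe_sub, sub_div]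
      show w r - w r' = _
      rw [hw]
    rw [h2] at h1
    refine hsep _ (hτT r r.2) _ (hτT r' r'.2) ?_ h1
    intro h3
    apply hne
    have h4 := congrFun h3 σ₀
    rw [hact r r.2, hact r' r'.2] at h4
    exact Subtype.ext h4
  have hroot : ∀ r : R, ρ r ∈ ub.roots.toFinset := by
    intro r
    rw [Multiset.mem_toFinset, mem_roots hub0, IsRoot.def, hub, eval_map, hρ]
    have h1 := hom_eval₂ u j (IsLocalRing.residue 𝒱) ⟨w r, hwV r r.2⟩
    rw [← h1, IsLocalRing.residue_eq_zero_iff, ← ValuationSubring.coe_mem_nonunits_iff]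
    have h2 : ((eval₂ j (⟨w r, hwV r r.2⟩ : 𝒱) u : 𝒱) : Ω) = aeval (w r) u := by
      have h3 := hom_eval₂ u j 𝒱.subtype ⟨w r, hwV r r.2⟩
      refine Eq.trans h3 ?_
      rw [aeval_def]
      congr 1
      exact Subsingleton.elim _ _
    rw [h2]
    exact hwu r
  calc m ≤ R.card := hR
    _ = Fintype.card R := (Fintype.card_coe R).symm
    _ ≤ (ub.roots.toFinset).card := by
        rw [← Finset.card_univ, ← Finset.card_image_of_injective univ hρinj]
        apply Finset.card_le_card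
        intro x hx
        rw [Finset.mem_image] at hx
        obtain ⟨r, -, rfl⟩ := hx
        exact hroot r
    _ ≤ Multiset.card ub.roots := Multiset.toFinset_card_le _
    _ ≤ ub.natDegree := card_roots' _
    _ ≤ u.natDegree := by rw [hub]; exact natDegree_map_le

end

end Pool.Agent.H90GC
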