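import Pool.Agent.H90GC.G2
import Pool.Agent.H90GC.G7

set_option autoImplicit false

/-!
The value of the trace form at a place.
-/

open Polynomial Finset

namespace Pool.Agent.H90GC

section

variable {K : Type} [Field K] [NumberField K] {Ω M : Type} [Field Ω] [CharZero Ω] [IsAlgClosed Ω]
  [Field M] [CharZero M] [Algebra M Ω] {m n : ℕ}

/-- elements integral over a subring of `M` -/
def intA (A : Subring M) : Subring Ω where
  carrier := {u | ((algebraMap M Ω).comp A.subtype).IsIntegralElem u}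
  zero_mem' := ((algebraMap M Ω).comp A.subtype).isIntegralElem_zero
  one_mem' := ((algebraMap M Ω).comp A.subtype).isIntegralElem_one
  add_mem' := fun ha hb => ha.add _ hb
  mul_mem' := fun ha hb => ha.mul _ hb
  neg_mem' := fun ha => ha.neg _

omit [IsAlgClosed Ω] in
lemma rat_int (A : Subring M) (hAQ : ∀ q : ℚ, (q : M) ∈ A) {u : Ω} (hu : IsIntegral ℚ u) :
    u ∈ intA (Ω := Ω) A := by
  obtain ⟨p, hp, h0⟩ := hu
  obtain ⟨j, -⟩ : ∃ j : ℚ →+* A, ∀ r, (j r : M) = r :=
    ⟨(Rat.castHom M).codRestrict A hAQ, fun r => rfl⟩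
  refine ⟨p.map j, hp.map _, ?_⟩
  rw [eval₂_map]
  have h1 : ((algebraMap M Ω).comp A.subtype).comp j = algebraMap ℚ Ω := Subsingleton.elim _ _
  rw [h1]
  exact h0

omit [CharZero Ω] [IsAlgClosed Ω] [CharZero M] in
lemma intA_closed (A : Subring M) {u : Ω} (h : ∃ W : Polynomial (intA (Ω := Ω) A), W.Monic ∧
    eval₂ (intA (Ω := Ω) A).subtype u W = 0) : u ∈ intA (Ω := Ω) A := by
  obtain ⟨W, hW, h0⟩ := h
  let alg : Algebra A Ω := ((algebraMap M Ω).comp A.subtype).toAlgebra
  have hsub : ∀ v : intA (Ω := Ω) A, (v : Ω) ∈ integralClosure A Ω := fun v => v.2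
  have h1 : IsIntegral (integralClosure A Ω) u := by
    obtain ⟨j, hj⟩ : ∃ j : intA (Ω := Ω) A →+* integralClosure A Ω, ∀ v, (j v : Ω) = v :=
      ⟨(intA (Ω := Ω) A).subtype.codRestrict (integralClosure A Ω).toSubring hsub, fun v => rfl⟩
    refine ⟨W.map j, hW.map _, ?_⟩
    rw [eval₂_map]
    have h3 : (algebraMap (integralClosure A Ω) Ω).comp j = (intA (Ω := Ω) A).subtype :=
      RingHom.ext hj
    rw [h3]
    exact h0
  have h2 : IsIntegral A u := isIntegral_trans (A := integralClosure A Ω) u h1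
  exact h2

theorem value_mem (A : Subring M) (hAQ : ∀ q : ℚ, (q : M) ∈ A) (f : A →+* ℂ)
    (ω : Fin n → K) (c : Fin m → Fin n → A) (v : (K →+* Ω) → Ω)
    (hv : ∀ σ, v σ ^ m + ∑ j : Fin m, (∑ i, algebraMap M Ω (c j i) * σ (ω i)) * v σ ^ (j : ℕ) = 0)
    (t : K) (W : A) (hW : algebraMap M Ω W = ∑ σ, σ t * v σ) :
    ∃ w : (K →+* ℂ) → ℂ,
      (∀ τ, w τ ^ m + ∑ j : Fin m, (∑ i, f (c j i) * τ (ω i)) * w τ ^ (j : ℕ) = 0) ∧
      f W = ∑ τ, τ t * w τ := by
  classical
  obtain ⟨S, hS⟩ : ∃ S : Subring Ω, S = intA A := ⟨_, rfl⟩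
  have hAS : ∀ x : A, algebraMap M Ω x ∈ S := by
    intro x
    rw [hS]
    refine ⟨X - C x, monic_X_sub_C _, ?_⟩
    rw [eval₂_sub, eval₂_X, eval₂_C]
    exact sub_self _
  let alg : Algebra A S := (((algebraMap M Ω).comp A.subtype).codRestrict S hAS).toAlgebra
  have halg : ∀ x : A, ((algebraMap A S x : S) : Ω) = algebraMap M Ω x := fun x => rfl
  have hinj : Function.Injective (algebraMap A S) := by
    intro x y hxy
    have h1 := congrArg (fun s : S => (s : Ω)) hxy
    simp only [halg] at h1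
    exact Subtype.ext ((algebraMap M Ω).injective h1)
  have hint : Algebra.IsIntegral A S := by
    refine ⟨fun z => ?_⟩
    have hz : (z : Ω) ∈ intA (Ω := Ω) A := by rw [← hS]; exact z.2
    obtain ⟨p, hp, h0⟩ := hz
    refine ⟨p, hp, ?_⟩
    apply Subtype.ext
    have h1 := hom_eval₂ p (algebraMap A S) S.subtype z
    refine Eq.trans h1 ?_
    have h2 : S.subtype.comp (algebraMap A S) = (algebraMap M Ω).comp A.subtype :=
      RingHom.ext halg
    rw [h2]
    exact h0
  obtain ⟨g, hg⟩ := ext_hom hinj f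
  -- constants
  have hc : ∀ (σ : K →+* Ω) k, σ k ∈ S := by
    intro σ k
    rw [hS]
    exact rat_int A hAQ (emb_integral σ k)
  obtain ⟨up, hup⟩ : ∃ up : (K →+* Ω) → (K →+* S), ∀ σ k, (up σ k : Ω) = σ k :=
    ⟨fun σ => σ.codRestrict S (hc σ), fun σ k => rfl⟩
  have hbinj : Function.Injective (fun σ : K →+* Ω => g.comp (up σ)) := by
    intro σ σ' h
    ext k
    by_contra hne
    have h1 : g (up σ k - up σ' k) = 0 := by
      rw [map_sub, sub_eq_zero]
      exact congrArg (fun f : K →+* ℂ => f k) h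
    have h2 : (σ k - σ' k)⁻¹ ∈ S := by
      rw [hS]
      exact rat_int A hAQ (((emb_integral σ k).sub (emb_integral σ' k)).inv)
    have h3 : (up σ k - up σ' k) * ⟨(σ k - σ' k)⁻¹, h2⟩ = 1 := by
      apply Subtype.ext
      rw [MulMemClass.coe_mul, AddSubgroupClass.coe_sub, hup, hup]
      exact mul_inv_cancel₀ (sub_ne_zero.2 hne)
    have h4 := congrArg g h3
    rw [map_mul, h1, zero_mul, map_one] at h4
    exact zero_ne_one h4
  have hbij : Function.Bijective (fun σ : K →+* Ω => g.comp (up σ)) := by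
    rw [Fintype.bijective_iff_injective_and_card]
    refine ⟨hbinj, ?_⟩
    rw [NumberField.Embeddings.card K Ω, NumberField.Embeddings.card K ℂ]
  obtain ⟨e, he⟩ : ∃ e : (K →+* Ω) ≃ (K →+* ℂ), ∀ σ, e σ = g.comp (up σ) :=
    ⟨Equiv.ofBijective _ hbij, fun σ => rfl⟩
  -- the roots
  have hvS : ∀ σ, v σ ∈ S := by
    intro σ
    rw [hS]
    apply intA_closed
    subst hS
    obtain ⟨Q, hQ⟩ : ∃ Q : Polynomial (intA (Ω := Ω) A), Q = X ^ m + ∑ j : Fin m,
      C (∑ i, algebraMap A (intA (Ω := Ω) A) (c j i) * up σ (ω i)) * X ^ (j : ℕ) := ⟨_, rfl⟩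
    refine ⟨Q, ?_, ?_⟩
    · rw [hQ]
      exact monic_X_pow_add (degree_sum_fin_lt _)
    · rw [← hv σ, hQ, eval₂_add, eval₂_pow, eval₂_X, eval₂_finsetSum]
      congr 1
      apply Finset.sum_congr rfl
      intro j _
      rw [eval₂_mul, eval₂_C, eval₂_pow, eval₂_X, map_sum]
      congr 1
      apply Finset.sum_congr rfl
      intro i _
      rw [map_mul]
      have h1 := hup σ (ω i)
      rw [← h1]
      rfl
  have hrel : ∀ σ, (⟨v σ, hvS σ⟩ : S) ^ m + ∑ j : Fin m,
      (∑ i, algebraMap A S (c j i) * up σ (ω i)) * (⟨v σ, hvS σ⟩ : S) ^ (j : ℕ) = 0 := by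
    intro σ
    apply Subtype.ext
    rw [AddMemClass.coe_add, SubmonoidClass.coe_pow, AddSubmonoidClass.coe_finsetSum]
    refine Eq.trans ?_ (hv σ)
    congr 1
    apply Finset.sum_congr rfl
    intro j _
    rw [MulMemClass.coe_mul, SubmonoidClass.coe_pow, AddSubmonoidClass.coe_finsetSum]
    congr 1
    apply Finset.sum_congr rfl
    intro i _
    rw [MulMemClass.coe_mul, hup, halg]
  refine ⟨fun τ => g ⟨v (e.symm τ), hvS _⟩, ?_, ?_⟩
  · intro τ
    have h1 := congrArg g (hrel (e.symm τ))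
    rw [map_zero, map_add, map_pow, map_sum] at h1
    rw [← h1]
    congr 1
    apply Finset.sum_congr rfl
    intro j _
    rw [map_mul, map_pow, map_sum]
    congr 1
    apply Finset.sum_congr rfl
    intro i _
    rw [map_mul, hg]
    have h2 : g (up (e.symm τ) (ω i)) = τ (ω i) := by
      have h3 := he (e.symm τ)
      rw [Equiv.apply_symm_apply] at h3
      conv_rhs => rw [h3]
      rfl
    rw [h2]
  · have h1 : algebraMap A S W = ∑ σ, up σ t * ⟨v σ, hvS σ⟩ := by
      apply Subtype.ext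
      rw [halg, hW, AddSubmonoidClass.coe_finsetSum]
      apply Finset.sum_congr rfl
      intro σ _
      rw [MulMemClass.coe_mul, hup]
    rw [← hg, h1, map_sum]
    refine Fintype.sum_equiv e _ _ ?_
    intro σ
    rw [map_mul]
    have h2 : g (up σ t) = e σ t := by rw [he]; rfl
    rw [h2]
    have h3 : e.symm (e σ) = σ := Equiv.symm_apply_apply _ _
    congr 2
    apply Subtype.ext
    show v σ = v (e.symm (e σ))
    rw [h3]

end

end Pool.Agent.H90GC
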