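import Pool.Agent.H90GC.G10

set_option autoImplicit false

/-!
Roots that are separated at a place of the base are separated at all places above it.
-/

open Polynomial Finset

namespace Pool.Agent.H90GC

section

variable {K : Type} [Field K] [NumberField K] {Ω M : Type} [Field Ω] [CharZero Ω] [IsAlgClosed Ω]
  [Field M] [CharZero M] [Algebra M Ω] [Algebra.IsAlgebraic M Ω] {m n : ℕ}

lemma sep_poly {S : Type} [CommRing S] [IsDomain S] {q : S[X]} {v v' : S} (hv : q.eval v = 0)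
    (hv' : q.eval v' = 0) (hne : v ≠ v') (g : S →+* ℂ) (hg : g v = g v') :
    ¬ (q.map g).Separable := by
  intro hsep
  obtain ⟨q1, hq1⟩ := dvd_iff_isRoot.2 hv
  have h1 : q1.eval v' = 0 := by
    rw [hq1, eval_mul, eval_sub, eval_X, eval_C] at hv'
    rcases mul_eq_zero.1 hv' with h | h
    · exact absurd (sub_eq_zero.1 h).symm hne
    · exact h
  obtain ⟨q2, hq2⟩ := dvd_iff_isRoot.2 h1
  have h2 : (X - C (g v)) * (X - C (g v)) ∣ q.map g := by
    refine ⟨q2.map g, ?_⟩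
    rw [hq1, hq2, Polynomial.map_mul, Polynomial.map_mul, Polynomial.map_sub, Polynomial.map_sub,
      Polynomial.map_X, Polynomial.map_C, Polynomial.map_C, hg, mul_assoc]
  have h3 := hsep.squarefree _ h2
  exact not_isUnit_X_sub_C _ h3

theorem sep_transfer (A : ValuationSubring M) (hAQ : ∀ q : ℚ, (q : M) ∈ A) (f : A →+* ℂ)
    (hf : ∀ u : A, (u : M) ∈ A.nonunits → f u = 0)
    (𝒱 : ValuationSubring Ω) (hA : 𝒱.comap (algebraMap M Ω) = A)
    (ω : Fin n → K) (c : Fin m → Fin n → A)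
    (hsep : ∀ τ : K →+* ℂ, (X ^ m + ∑ j : Fin m, C (∑ i, f (c j i) * τ (ω i)) * X ^ (j : ℕ) :
      ℂ[X]).Separable) (σ : K →+* Ω) {v v' : Ω}
    (hv : v ^ m + ∑ j : Fin m, (∑ i, algebraMap M Ω (c j i) * σ (ω i)) * v ^ (j : ℕ) = 0)
    (hv' : v' ^ m + ∑ j : Fin m, (∑ i, algebraMap M Ω (c j i) * σ (ω i)) * v' ^ (j : ℕ) = 0)
    (hne : v ≠ v') : v - v' ∉ 𝒱.nonunits := by
  intro hnon
  have hAm : ∀ u : M, u ∈ A ↔ algebraMap M Ω u ∈ 𝒱 := by
    intro u
    rw [← hA, ValuationSubring.mem_comap]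
  obtain ⟨S, hS⟩ : ∃ S : Subring Ω, S = intA A.toSubring := ⟨_, rfl⟩
  have hAS : ∀ x : A, algebraMap M Ω x ∈ S := by
    intro x
    rw [hS]
    refine ⟨X - C x, monic_X_sub_C _, ?_⟩
    rw [eval₂_sub, eval₂_X, eval₂_C]
    exact sub_self _
  let algAΩ : Algebra A Ω := ((algebraMap M Ω).comp A.subtype).toAlgebra
  have halgAΩ : ∀ x : A, algebraMap A Ω x = algebraMap M Ω x := fun x => rfl
  have hinjA : Function.Injective (algebraMap A Ω) := by
    intro x y hxy
    rw [halgAΩ, halgAΩ] at hxy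
    exact Subtype.ext ((algebraMap M Ω).injective hxy)
  have : FaithfulSMul A Ω := (faithfulSMul_iff_algebraMap_injective _ _).2 hinjA
  have htf : Module.IsTorsionFree A Ω := inferInstance
  have hc : ∀ (σ : K →+* Ω) k, σ k ∈ S := by
    intro σ k
    rw [hS]
    exact rat_int A.toSubring hAQ (emb_integral σ k)
  obtain ⟨up, hup⟩ : ∃ up : K →+* S, ∀ k, (up k : Ω) = σ k :=
    ⟨σ.codRestrict S (hc σ), fun k => rfl⟩
  obtain ⟨jAS, hjAS⟩ : ∃ jAS : A →+* S, ∀ x, (jAS x : Ω) = algebraMap M Ω x :=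
    ⟨((algebraMap M Ω).comp A.subtype).codRestrict S hAS, fun x => rfl⟩
  obtain ⟨Q, hQ⟩ : ∃ Q : Polynomial S, Q = X ^ m + ∑ j : Fin m,
    C (∑ i, jAS (c j i) * up (ω i)) * X ^ (j : ℕ) := ⟨_, rfl⟩
  have hQm : Q.Monic := by
    rw [hQ]; exact monic_X_pow_add (degree_sum_fin_lt _)
  have hQe : ∀ u : Ω, u ^ m + ∑ j : Fin m, (∑ i, algebraMap M Ω (c j i) * σ (ω i)) * u ^ (j : ℕ) = 0 →
      eval₂ S.subtype u Q = 0 := by
    intro u hu
    rw [← hu, hQ, eval₂_add, eval₂_pow, eval₂_X, eval₂_finsetSum]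
    congr 1
    apply Finset.sum_congr rfl
    intro j _
    rw [eval₂_mul, eval₂_C, eval₂_pow, eval₂_X, map_sum]
    congr 1
    apply Finset.sum_congr rfl
    intro i _
    rw [map_mul]
    show (jAS (c j i) : Ω) * (up (ω i) : Ω) = _
    rw [hjAS, hup]
  have hmemS : ∀ u : Ω, u ^ m + ∑ j : Fin m, (∑ i, algebraMap M Ω (c j i) * σ (ω i)) * u ^ (j : ℕ) = 0 →
      u ∈ S := by
    intro u hu
    have h1 := hQe u hu
    subst hS
    exact intA_closed A.toSubring ⟨Q, hQm, h1⟩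
  have hvS := hmemS v hv
  have hvS' := hmemS v' hv'
  have hQv : ∀ (u : Ω) (hu : u ∈ S), eval₂ S.subtype u Q = 0 → Q.eval (⟨u, hu⟩ : S) = 0 := by
    intro u hu h0
    apply Subtype.ext
    have h1 := hom_eval₂ Q (RingHom.id S) S.subtype ⟨u, hu⟩
    rw [RingHom.comp_id] at h1
    rw [eval₂_id] at h1
    refine Eq.trans h1 h0
  -- the difference
  obtain ⟨δ, hδ⟩ : ∃ δ : Ω, δ = v - v' := ⟨_, rfl⟩
  rw [← hδ] at hnon
  have hδS : δ ∈ S := by rw [hδ]; exact S.sub_mem hvS hvS'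
  have hδint : IsIntegral A δ := by
    have h1 : δ ∈ intA (Ω := Ω) A.toSubring := by rw [← hS]; exact hδS
    exact h1
  obtain ⟨q, hq⟩ : ∃ q : A[X], q = minpoly A δ := ⟨_, rfl⟩
  have hqm : q.Monic := by rw [hq]; exact minpoly.monic hδint
  have hq0 : aeval δ q = 0 := by rw [hq]; exact minpoly.aeval _ _
  -- its constant term
  have hmem𝒱 : ∀ x : A, algebraMap M Ω x ∈ 𝒱 := by
    intro x
    exact (hAm _).1 x.2
  have hδ𝒱 : δ ∈ 𝒱 := 𝒱.nonunits_subset hnon
  have hc0 : ((q.coeff 0 : A) : M) ∈ A.nonunits := by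
    have h1 : algebraMap M Ω ((q.coeff 0 : A) : M) = - (δ * aeval δ q.divX) := by
      have h2 := q.divX_mul_X_add
      have h3 : aeval δ (q.divX * X + C (q.coeff 0)) = 0 := by rw [h2]; exact hq0
      rw [map_add, map_mul, aeval_X, aeval_C, halgAΩ] at h3
      linear_combination h3
    have h2 : aeval δ q.divX ∈ 𝒱 := by
      rw [aeval_eq_sum_range]
      apply sum_mem
      intro i _
      rw [Algebra.smul_def, halgAΩ]
      exact 𝒱.mul_mem _ _ (hmem𝒱 _) (pow_mem hδ𝒱 _)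
    have h3 : algebraMap M Ω ((q.coeff 0 : A) : M) ∈ 𝒱.nonunits := by
      rw [h1, ValuationSubring.mem_nonunits_iff, Valuation.map_neg, map_mul]
      rw [← ValuationSubring.valuation_le_one_iff] at h2
      rw [ValuationSubring.mem_nonunits_iff] at hnon
      exact lt_of_le_of_lt (mul_le_of_le_one_right' h2) hnon
    rw [ValuationSubring.mem_nonunits_iff_or] at h3 ⊢
    rcases h3 with h3 | h3
    · left
      exact (map_eq_zero _).1 h3
    · right
      intro h4
      apply h3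
      rw [hAm, map_inv₀] at h4
      exact h4
  have hf0 : f (q.coeff 0) = 0 := hf _ hc0
  -- the homomorphism
  have h1 : eval₂ jAS (⟨δ, hδS⟩ : S) q = 0 := by
    apply Subtype.ext
    have h2 := hom_eval₂ q jAS S.subtype ⟨δ, hδS⟩
    refine Eq.trans h2 ?_
    have h3 : S.subtype.comp jAS = algebraMap A Ω := RingHom.ext hjAS
    rw [h3]
    exact hq0
  let alg : Algebra (AdjoinRoot q) S := (AdjoinRoot.lift jAS ⟨δ, hδS⟩ h1).toAlgebra
  have hmk : ∀ P : A[X], algebraMap (AdjoinRoot q) S (AdjoinRoot.mk q P) =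
      eval₂ jAS (⟨δ, hδS⟩ : S) P := fun P => AdjoinRoot.lift_mk h1 P
  have hinj : Function.Injective (algebraMap (AdjoinRoot q) S) := by
    rw [injective_iff_map_eq_zero]
    intro a ha
    obtain ⟨P, rfl⟩ := AdjoinRoot.mk_surjective a
    rw [hmk] at ha
    rw [AdjoinRoot.mk_eq_zero, hq]
    apply minpoly.isIntegrallyClosed_dvd hδint
    have h2 := hom_eval₂ P jAS S.subtype ⟨δ, hδS⟩
    rw [ha, map_zero] at h2
    have h3 : S.subtype.comp jAS = algebraMap A Ω := RingHom.ext hjAS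
    rw [h3] at h2
    exact h2.symm
  have hint : Algebra.IsIntegral (AdjoinRoot q) S := by
    refine ⟨fun z => ?_⟩
    have hz : (z : Ω) ∈ intA (Ω := Ω) A.toSubring := by rw [← hS]; exact z.2
    obtain ⟨p, hp, h0⟩ := hz
    obtain ⟨p', hp'⟩ : ∃ p' : A[X], p' = p := ⟨p, rfl⟩
    refine ⟨p'.map ((AdjoinRoot.mk q).comp C), (by rw [hp']; exact hp.map _), ?_⟩
    rw [eval₂_map]
    have h2 : (algebraMap (AdjoinRoot q) S).comp ((AdjoinRoot.mk q).comp C) = jAS := by
      refine RingHom.ext fun a => ?_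
      rw [RingHom.comp_apply, RingHom.comp_apply, hmk, eval₂_C]
    rw [h2]
    apply Subtype.ext
    have h3 := hom_eval₂ p' jAS S.subtype z
    refine Eq.trans h3 ?_
    have h4 : S.subtype.comp jAS = (algebraMap M Ω).comp A.subtype := RingHom.ext hjAS
    rw [h4, hp']
    exact h0
  have hlift : eval₂ f (0 : ℂ) q = 0 := by
    rw [← eval_map, ← coeff_zero_eq_eval_zero, coeff_map]
    exact hf0
  obtain ⟨g, hg⟩ := ext_hom hinj (AdjoinRoot.lift f (0 : ℂ) hlift : AdjoinRoot q →+* ℂ)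
  have hgA : ∀ a : A, g (jAS a) = f a := by
    intro a
    have h2 := hg (AdjoinRoot.mk q (C a))
    rw [hmk, eval₂_C, AdjoinRoot.lift_mk, eval₂_C] at h2
    exact h2
  have hgδ : g ⟨δ, hδS⟩ = 0 := by
    have h2 := hg (AdjoinRoot.mk q X)
    rw [hmk, eval₂_X, AdjoinRoot.lift_mk, eval₂_X] at h2
    exact h2
  have hgv : g ⟨v, hvS⟩ = g ⟨v', hvS'⟩ := by
    have h2 : (⟨δ, hδS⟩ : S) = ⟨v, hvS⟩ - ⟨v', hvS'⟩ := by
      apply Subtype.ext
      rw [AddSubgroupClass.coe_sub]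
      exact hδ
    rw [h2, map_sub, sub_eq_zero] at hgδ
    exact hgδ
  refine sep_poly (hQv v hvS (hQe v hv)) (hQv v' hvS' (hQe v' hv')) (fun h => hne ?_) g hgv ?_
  · exact congrArg (fun s : S => (s : Ω)) h
  · have h2 := hsep (g.comp up)
    have h3 : Q.map g = X ^ m + ∑ j : Fin m, C (∑ i, f (c j i) * (g.comp up) (ω i)) * X ^ (j : ℕ) := by
      rw [hQ, Polynomial.map_add, Polynomial.map_pow, Polynomial.map_X, Polynomial.map_sum]
      congr 1
      apply Finset.sum_congr rfl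
      intro j _
      rw [Polynomial.map_mul, Polynomial.map_C, Polynomial.map_pow, Polynomial.map_X, map_sum]
      congr 2
      apply Finset.sum_congr rfl
      intro i _
      rw [map_mul, hgA]
      rfl
    rw [h3]
    exact h2

end

end Pool.Agent.H90GC
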