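import Pool.Agent.H90GC.G11

set_option autoImplicit false

/-!
The integer points of a curve that lift to a cover over a number field: one constant for each real
number field.
-/

open Polynomial Finset IntermediateField

namespace Pool.Agent.H90GC

open Pool.Agent.H322R2 Pool.Agent.H90TL

theorem coreU (D m n : ℕ) (hm : 3 ≤ m) (hn : 1 ≤ n) : ∃ (E κ : ℕ) (ck : IntermediateField ℚ ℝ → ℕ),
    1 ≤ κ ∧ (∀ M, κ ≤ ck M) ∧
    ∀ (K : Type) [Field K] [NumberField K] (ω : Fin n → NumberField.RingOfIntegers K),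
    Module.finrank ℚ K = n → (∀ k : K, ∃ q : Fin n → ℚ, k = ∑ i, (q i : K) * ω i) →
    ∀ W : ℕ, 1 ≤ W → (∀ (i : Fin n) (f : NumberField.RingOfIntegers K →+* ℂ), ‖f (ω i)‖ ≤ W) →
    ∀ (T : ℕ) (_ : 2 ≤ T) (F : ℤ[X][X]) (a : Fin m → Fin n → ℤ[X][X]), F.Monic →
    1 ≤ F.natDegree → F.natDegree ≤ D → XD D F → (∀ j i, (a j i).natDegree ≤ D) →
    (∀ j i, XD D (a j i)) → pn (pn zn) F ≤ T → (∀ j i, pn (pn zn) (a j i) ≤ T) →
    Irreducible (F.map (mapRingHom (Int.castRingHom ℚ))) →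
    ∀ (L : Type) [Field L] [Algebra ℚ L] (α β : L), ev α β F = 0 → Transcendental ℚ α →
    (∀ z : L, ∃ w1 ∈ Algebra.adjoin ℚ {α, β}, ∃ w2 ∈ Algebra.adjoin ℚ {α, β},
      w2 ≠ 0 ∧ w2 * z = w1) →
    (∃ σ₀ : K →+* AlgebraicClosure L, ∀ r₀ : AlgebraicClosure L,
      (PP a (fun i => (ω i : K)) (algebraMap L (AlgebraicClosure L) α)
        (algebraMap L (AlgebraicClosure L) β) σ₀).eval r₀ = 0 →
      ∃ R : Finset (AlgebraicClosure L), m ≤ R.card ∧ ∀ r ∈ R,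
        ∃ τ : AlgebraicClosure L ≃ₐ[L] AlgebraicClosure L, (∀ k, τ (σ₀ k) = σ₀ k) ∧ τ r₀ = r) →
    ∀ G : ValuationSubring L → L → Prop,
    (∀ 𝒱 : ValuationSubring (AlgebraicClosure L), (∀ q : ℚ, (q : AlgebraicClosure L) ∈ 𝒱) →
      algebraMap L (AlgebraicClosure L) α ∉ 𝒱 →
      ∃ υ : L, υ ≠ 0 ∧ G (𝒱.comap (algebraMap L (AlgebraicClosure L))) υ ∧
        ∀ j i, algebraMap L (AlgebraicClosure L) (ev α β (a j i) / υ ^ (m - (j : ℕ))) ∈ 𝒱) →
    (∀ (V : ValuationSubring L) (υ : L) (ψ : IsLocalRing.ResidueField V →+* ℝ)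
      (h : ∀ j i, ev α β (a j i) / υ ^ (m - (j : ℕ)) ∈ V), G V υ → ∀ τ : K →+* ℂ,
      (X ^ m + ∑ j : Fin m, C (∑ i, ((ψ (IsLocalRing.residue V ⟨_, h j i⟩) : ℝ) : ℂ) *
        τ (ω i : K)) * X ^ (j : ℕ) : ℂ[X]).Separable) →
    ∀ (x y : ℤ) (ζ : NumberField.RingOfIntegers K), ev x y F = 0 →
      ζ ^ m + ∑ j : Fin m, (∑ i, ((ev x y (a j i) : ℤ) : NumberField.RingOfIntegers K) * ω i) *
        ζ ^ (j : ℕ) = 0 →
      |x| ≤ ((κ * (W * T) : ℕ) : ℤ) ^ E ∨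
      ∃ (V : ValuationSubring L) (υ : L) (ψ : IsLocalRing.ResidueField V →+* ℝ)
        (h : ∀ j i, ev α β (a j i) / υ ^ (m - (j : ℕ)) ∈ V) (s : ℕ) (ϖ : ℝ),
        (∀ q : ℚ, algebraMap ℚ L q ∈ V) ∧ α ∉ V ∧ υ ≠ 0 ∧ G V υ ∧ s ≤ κ ∧
        ϖ ∈ Val (fun i => (ω i : K)) (fun j i => ψ (IsLocalRing.residue V ⟨_, h j i⟩)) s ∧
        3 ≤ Module.finrank ℚ ℚ⟮ϖ⟯ ∧ |x| ≤ ((ck ℚ⟮ϖ⟯ * (W * T) : ℕ) : ℤ) ^ E := by
  obtain ⟨N, hN⟩ : ∃ N, N = D * m ^ n := ⟨_, rfl⟩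
  obtain ⟨S, hS⟩ : ∃ S, S = 1 + N + m ^ n * m ^ n * n := ⟨_, rfl⟩
  obtain ⟨d', hd'⟩ : ∃ d', d' = N + (D + D * D) * N := ⟨_, rfl⟩
  obtain ⟨C0, hC2, hC⟩ := Pool.Agent.Y910.A.struct_le d'
  obtain ⟨K1, hCK1, hcl⟩ := Pool.Agent.Y910.A.class_const C0 hC2
  choose! ck hck1 hck using hcl
  obtain ⟨K2, hK2⟩ : ∃ K2, K2 = (N + 1) + (((D + D * D) * N + 1) + (N + (D + 1) * N)) := ⟨_, rfl⟩
  obtain ⟨κ0, hκ0⟩ : ∃ κ0 : ℕ, κ0 = S * (n * (n * S ^ n) * (1 + m * n * 2 ^ D)) := ⟨_, rfl⟩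
  obtain ⟨κ, hκ⟩ : ∃ κ : ℕ, κ = 2 + κ0 + S := ⟨_, rfl⟩
  refine ⟨2 * ((C0 + K2) * C0 + (1 + K2) * K1), κ, fun M => κ + ck M, by omega,
    fun M => Nat.le_add_right _ _, ?_⟩
  intro K _ _ ω hK hω W hW1 hW
  obtain ⟨c1, hc1⟩ : ∃ c1 : ℕ, c1 = 2 + S * (n * (n * S ^ n * W) * (1 + m * n * W * 2 ^ D)) :=
    ⟨_, rfl⟩
  have hc1κ : c1 ≤ κ * W ^ 2 := by
    have e1 : 1 + m * n * W * 2 ^ D ≤ W * (1 + m * n * 2 ^ D) := by nlinarith
    have e2 : S * (n * (n * S ^ n * W) * (1 + m * n * W * 2 ^ D)) ≤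
        S * (n * (n * S ^ n * W) * (W * (1 + m * n * 2 ^ D))) :=
      Nat.mul_le_mul_left _ (Nat.mul_le_mul_left _ e1)
    have e3 : S * (n * (n * S ^ n * W) * (W * (1 + m * n * 2 ^ D))) = κ0 * W ^ 2 := by
      rw [hκ0]; ring
    have e4 : 1 ≤ W ^ 2 := Nat.one_le_pow _ _ hW1
    rw [hc1, hκ]
    calc 2 + S * (n * (n * S ^ n * W) * (1 + m * n * W * 2 ^ D)) ≤ 2 * W ^ 2 + κ0 * W ^ 2 := by
          rw [← e3]; omega
      _ ≤ (2 + κ0 + S) * W ^ 2 := by nlinarith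
  intro T hT F a hF he hFD hFX haD haX hFT haT hirr L _ _ α β hev hα hgen hirrΩ G hinf hsepψ x y ζ hxy hζ
  have hTR : (2 : ℝ) ≤ T := by exact_mod_cast hT
  have hT1R : (1 : ℝ) ≤ T := by linarith
  have hchL : CharZero L := charZero_of_injective_algebraMap (algebraMap ℚ L).injective
  obtain ⟨Ω, hΩ⟩ : ∃ Ω : Type, Ω = AlgebraicClosure L := ⟨_, rfl⟩
  clear hΩ Ω
  have hchΩ : CharZero (AlgebraicClosure L) :=
    charZero_of_injective_algebraMap (algebraMap L (AlgebraicClosure L)).injective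
  obtain ⟨j0, hj0⟩ : ∃ j0 : L →+* AlgebraicClosure L, j0 = algebraMap L (AlgebraicClosure L) :=
    ⟨_, rfl⟩
  obtain ⟨αΩ, hαΩ⟩ : ∃ αΩ, αΩ = algebraMap L (AlgebraicClosure L) α := ⟨_, rfl⟩
  obtain ⟨βΩ, hβΩ⟩ : ∃ βΩ, βΩ = algebraMap L (AlgebraicClosure L) β := ⟨_, rfl⟩
  obtain ⟨ωK, hωK⟩ : ∃ ωK : Fin n → K, ωK = fun i => (ω i : K) := ⟨_, rfl⟩
  rw [← hαΩ, ← hβΩ, ← hωK] at hirrΩ
  rw [← hαΩ] at hinf
  have hevΩ : ev αΩ βΩ F = 0 := by
    rw [hαΩ, hβΩ, ← map_ev, hev, map_zero]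
  have hβint : βΩ ∈ intS αΩ := ⟨F, hF, hevΩ⟩
  have hFminΩ : ∀ W, ev αΩ βΩ W = 0 → F ∣ W := by
    intro W hW
    apply F_min hF hev hα hirr W
    rw [hαΩ, hβΩ, ← map_ev, map_eq_zero] at hW
    exact hW
  -- the specialisation at the point
  have hxyC : ev (x : ℂ) (y : ℂ) F = 0 := by
    have h1 := map_ev (Int.castRingHom ℂ) x y F
    rw [hxy, map_zero] at h1
    exact h1.symm
  obtain ⟨φ, hφ1, hφ2⟩ := exists_hom hF hevΩ hFminΩ (x : ℂ) (y : ℂ) hxyC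
  have hσ : ∀ σ : K →+* AlgebraicClosure L, ∃ τ : NumberField.RingOfIntegers K →+* intS αΩ,
    ∀ k, (τ k : AlgebraicClosure L) = σ k := fun σ => sigO αΩ σ
  choose σO hσO using hσ
  have hroots := fun σ : K →+* AlgebraicClosure L =>
    exists_root a ω hβint φ hφ1 hφ2 hζ σ (σO σ) (hσO σ)
  choose r hr1 hr2 using hroots
  obtain ⟨z, hz⟩ : ∃ z : (K →+* AlgebraicClosure L) → AlgebraicClosure L,
    z = fun σ => (r σ : AlgebraicClosure L) := ⟨_, rfl⟩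
  have hzT : z ∈ TT a ωK αΩ βΩ := by
    rw [mem_TT]
    intro σ
    rw [hz, hωK]
    exact hr1 σ
  have hcardT : (TT a ωK αΩ βΩ).card ≤ m ^ n := by
    have := card_TT a ωK αΩ βΩ
    rwa [hK] at this
  -- the place
  have hαtr : Transcendental ℚ αΩ := by
    rw [hαΩ]
    exact (transcendental_algebraMap_iff (algebraMap L (AlgebraicClosure L)).injective).2 hα
  obtain ⟨𝒱, h𝒱Q, h𝒱α⟩ := exists_place hαtr
  obtain ⟨υ, hυ0, hGυ, hcoef⟩ := hinf 𝒱 h𝒱Q h𝒱α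
  obtain ⟨υΩ, hυΩ⟩ : ∃ υΩ, υΩ = algebraMap L (AlgebraicClosure L) υ := ⟨_, rfl⟩
  have hυΩ0 : υΩ ≠ 0 := by
    rw [hυΩ, Ne, map_eq_zero]; exact hυ0
  have hcoefΩ : ∀ j i, ev αΩ βΩ (a j i) / υΩ ^ (m - (j : ℕ)) ∈ 𝒱 := by
    intro j i
    have := hcoef j i
    rw [map_div₀, map_ev, map_pow, ← hαΩ, ← hβΩ, ← hυΩ] at this
    exact this
  have hσ𝒱 : ∀ (σ : K →+* AlgebraicClosure L) k, σ k ∈ 𝒱 := fun σ k =>
    alg_mem 𝒱 h𝒱Q (emb_integral σ k)
  -- scaled roots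
  have hscaled : ∀ (σ : K →+* AlgebraicClosure L) (r : AlgebraicClosure L),
      (PP a ωK αΩ βΩ σ).eval r = 0 →
      (r / υΩ) ^ m + ∑ j : Fin m, (∑ i, ev αΩ βΩ (a j i) / υΩ ^ (m - (j : ℕ)) * σ (ωK i)) *
        (r / υΩ) ^ (j : ℕ) = 0 := by
    intro σ r hr
    rw [PP_eval] at hr
    have h1 : ∀ j : Fin m, (∑ i, ev αΩ βΩ (a j i) / υΩ ^ (m - (j : ℕ)) * σ (ωK i)) *
        (r / υΩ) ^ (j : ℕ) = (∑ i, ev αΩ βΩ (a j i) * σ (ωK i)) * r ^ (j : ℕ) / υΩ ^ m := by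
      intro j
      have h2 : υΩ ^ m = υΩ ^ (m - (j : ℕ)) * υΩ ^ (j : ℕ) := by
        rw [← pow_add]; congr 1; have := j.2; omega
      rw [h2, Finset.sum_mul, Finset.sum_mul, Finset.sum_div]
      apply Finset.sum_congr rfl
      intro i _
      rw [div_pow]
      field_simp
    rw [Finset.sum_congr rfl fun j _ => h1 j, div_pow, ← Finset.sum_div, ← add_div, hr, zero_div]
  have hroot𝒱 : ∀ (σ : K →+* AlgebraicClosure L) (r : AlgebraicClosure L),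
      (PP a ωK αΩ βΩ σ).eval r = 0 → r / υΩ ∈ 𝒱 := by
    intro σ r hr
    have h1 := hscaled σ r hr
    have hco : ∀ j : Fin m, ∑ i, ev αΩ βΩ (a j i) / υΩ ^ (m - (j : ℕ)) * σ (ωK i) ∈ 𝒱 := by
      intro j
      exact sum_mem fun i _ => 𝒱.mul_mem _ _ (hcoefΩ j i) (hσ𝒱 σ _)
    have h2 : IsIntegral 𝒱 (r / υΩ) := by
      refine ⟨X ^ m + ∑ j : Fin m, C (⟨_, hco j⟩ : 𝒱) * X ^ (j : ℕ),
        monic_X_pow_add (degree_sum_fin_lt _), ?_⟩
      rw [eval₂_add, eval₂_pow, eval₂_X, eval₂_finsetSum, ← h1]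
      congr 1
      apply Finset.sum_congr rfl
      intro j _
      rw [eval₂_mul, eval₂_C, eval₂_pow, eval₂_X]
      rfl
    obtain ⟨b, hb⟩ := IsIntegrallyClosed.algebraMap_eq_of_integral h2
    rw [← hb]
    exact SetLike.coe_mem b
  -- the generic linear form
  have hωq : ∀ k : K, ∃ q : Fin n → ℚ, k = ∑ i, (q i : K) * ωK i := by
    rw [hωK]; exact hω
  obtain ⟨s', hs'S, hsep⟩ : ∃ s' ≤ S, (∀ (σ : K →+* AlgebraicClosure L)
      (r r' : AlgebraicClosure L), (PP a ωK αΩ βΩ σ).eval r = 0 → (PP a ωK αΩ βΩ σ).eval r' = 0 →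
      r ≠ r' → (r - r') / υΩ ∉ 𝒱.nonunits) → ∀ z ∈ TT a ωK αΩ βΩ, ∀ z' ∈ TT a ωK αΩ βΩ, z ≠ z' →
      (Zt (tS ωK s') z - Zt (tS ωK s') z') / υΩ ∉ 𝒱.nonunits := by
    by_cases hsepr : ∀ (σ : K →+* AlgebraicClosure L)
      (r r' : AlgebraicClosure L), (PP a ωK αΩ βΩ σ).eval r = 0 → (PP a ωK αΩ βΩ σ).eval r' = 0 →
      r ≠ r' → (r - r') / υΩ ∉ 𝒱.nonunits
    · obtain ⟨s', hs', hsep⟩ := sep hn ωK hωq 𝒱 h𝒱Q υΩ (TT a ωK αΩ βΩ)
        (fun z' hz' σ => hroot𝒱 σ _ (mem_TT.1 hz' σ)) (by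
          intro z1 hz1 z2 hz2 hne
          have h1 : ∃ σ, z1 σ ≠ z2 σ := by
            by_contra hcon
            push Not at hcon
            exact hne (funext hcon)
          obtain ⟨σ, hσ⟩ := h1
          refine ⟨σ, ?_⟩
          exact hsepr σ _ _ (mem_TT.1 hz1 σ) (mem_TT.1 hz2 σ) hσ)
      refine ⟨s', ?_, fun _ => hsep⟩
      have h1 : (TT a ωK αΩ βΩ).card * (TT a ωK αΩ βΩ).card * n ≤ m ^ n * m ^ n * n :=
        Nat.mul_le_mul_right _ (Nat.mul_le_mul hcardT hcardT)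
      omega
    · exact ⟨0, Nat.zero_le _, fun h => absurd h hsepr⟩
  obtain ⟨Z, hZ⟩ : ∃ Z, Z = Zt (tS ωK s') z := ⟨_, rfl⟩
  have hact : ∀ (τ : AlgebraicClosure L ≃ₐ[L] AlgebraicClosure L), ∀ z' ∈ TT a ωK αΩ βΩ,
      act τ.toRingEquiv z' ∈ TT a ωK αΩ βΩ := by
    intro τ z' hz'
    rw [hαΩ, hβΩ] at hz' ⊢
    exact act_TT a ωK α β τ hz'
  have hZint : IsIntegral L Z := Algebra.IsIntegral.isIntegral _
  have hfdM : FiniteDimensional L L⟮Z⟯ := IntermediateField.adjoin.finiteDimensional hZint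
  have hrM : Module.finrank L L⟮Z⟯ ≤ m ^ n := by
    rw [hZ]
    exact (finrank_Z hact (tS ωK s') hzT).trans hcardT
  -- `Z` is integral
  have hZS : Z ∈ intS αΩ := by
    rw [hZ, Zt]
    apply sum_mem
    intro σ _
    apply (intS αΩ).mul_mem
    · unfold tS
      rw [map_sum]
      apply sum_mem
      intro i _
      rw [map_mul, map_pow, map_natCast]
      apply (intS αΩ).mul_mem
      · exact pow_mem (_root_.natCast_mem _ _) _
      · rw [hωK, ← hσO]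
        exact (σO σ (ω i)).2
    · rw [hz]; exact (r σ).2
  obtain ⟨ZM, hZM⟩ : ∃ ZM : L⟮Z⟯, ZM = AdjoinSimple.gen L Z := ⟨_, rfl⟩
  have hZMc : (ZM : AlgebraicClosure L) = Z := by rw [hZM]; rfl
  have hevM : ∀ (u : L⟮Z⟯) (P : ℤ[X][X]), ((ev (algebraMap L L⟮Z⟯ α) u P : L⟮Z⟯) :
      AlgebraicClosure L) = ev αΩ (u : AlgebraicClosure L) P := by
    intro u P
    have h1 := map_ev (algebraMap L⟮Z⟯ (AlgebraicClosure L)) (algebraMap L L⟮Z⟯ α) u P
    rw [← IsScalarTower.algebraMap_apply L L⟮Z⟯ (AlgebraicClosure L), ← hαΩ] at h1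
    exact h1
  obtain ⟨s, H, hsN, hHm, hHd, hH0, hHmin, hHirr, hHker, hHgen⟩ := model hF he hev hα hgen hirr
    (M := L⟮Z⟯) ZM (by rw [hZM]; exact gen_adj Z) (by
      obtain ⟨P, hP, hP0⟩ := hZS
      refine ⟨P, hP, ?_⟩
      have h1 := hevM ZM P
      have h2 : ((ev (algebraMap L L⟮Z⟯ α) ZM P : L⟮Z⟯) : AlgebraicClosure L) = 0 := by
        rw [h1, hZMc]; exact hP0
      exact_mod_cast h2)
  have hsS : s ≤ S := by
    have h1 : F.natDegree * Module.finrank L L⟮Z⟯ ≤ D * m ^ n := Nat.mul_le_mul hFD hrM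
    omega
  have hHN : H.natDegree ≤ N := by
    rw [hHd, hN]; exact Nat.mul_le_mul hFD hrM
  obtain ⟨YM, hYM⟩ : ∃ YM : L⟮Z⟯, YM = algebraMap L L⟮Z⟯ β + (s : L⟮Z⟯) * ZM := ⟨_, rfl⟩
  rw [← hYM] at hH0
  have hYΩ : (YM : AlgebraicClosure L) = βΩ + (s : AlgebraicClosure L) * Z := by
    rw [hYM, IntermediateField.coe_add, IntermediateField.coe_mul, hZMc]
    have h1 : ((algebraMap L L⟮Z⟯ β : L⟮Z⟯) : AlgebraicClosure L) = βΩ := by
      rw [hβΩ, IsScalarTower.algebraMap_apply L L⟮Z⟯ (AlgebraicClosure L)]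
      rfl
    have h2 : (((s : ℕ) : L⟮Z⟯) : AlgebraicClosure L) = s :=
      map_natCast (algebraMap L⟮Z⟯ (AlgebraicClosure L)) s
    rw [h1, h2]
  have hH0Ω : ev αΩ (βΩ + (s : AlgebraicClosure L) * Z) H = 0 := by
    rw [← hYΩ, ← hevM, hH0]; rfl
  have hHminΩ : ∀ P, ev αΩ (βΩ + (s : AlgebraicClosure L) * Z) P = 0 → H ∣ P := by
    intro P hP
    apply hHmin P
    rw [← hYM]
    rw [← hYΩ, ← hevM] at hP
    exact_mod_cast hP
  have hHb := H_bound (K := K) hK ω hW1 hW hT1R hF hFX hFT a haD haX haT hevΩ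
    (by rw [← hωK]; exact hzT) hsS hs'S (by omega : 1 ≤ S) hHm hHN
    (by rw [← hωK, ← hZ]; exact hH0Ω) (by rw [← hωK, ← hZ]; exact hHminΩ)
  obtain ⟨hHX, hHpn⟩ := hHb
  -- the plane curve
  obtain ⟨Gm, hGm⟩ : ∃ Gm, Gm = (toB ℤ).symm H := ⟨_, rfl⟩
  have hdeg : Gm.totalDegree ≤ d' := by
    rw [hGm]
    refine (totalDegree_toB_symm _ hHX).trans ?_
    omega
  obtain ⟨Q, hQ⟩ : ∃ Q : ℕ, Q = c1 * T := ⟨_, rfl⟩
  have hQ2 : 2 ≤ Q := by
    rw [hQ]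
    calc 2 ≤ 1 * T := by omega
      _ ≤ c1 * T := Nat.mul_le_mul_right _ (by omega)
  have hlen : len Gm ≤ Q ^ K2 := by
    have h1 : ((len Gm : ℕ) : ℝ) ≤ (Q : ℝ) ^ K2 := by
      rw [hGm]
      refine (len_toB_symm _ hHX).trans ?_
      refine hHpn.trans ?_
      rw [hK2]
      have h2 := num N D (Q : ℝ) (by exact_mod_cast hQ2)
      have h3 : ((2 + (S : ℝ) * (n * (n * S ^ n * W) * (1 + m * n * W * 2 ^ D))) * T) = (Q : ℝ) := by
        rw [hQ, hc1]; push_cast; ring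
      rw [h3]
      exact h2
    exact_mod_cast h1
  -- the integer point
  obtain ⟨NT, hNT⟩ := sum_emb (K := K) (Ω := AlgebraicClosure L)
    ((∑ i : Fin n, (s' : NumberField.RingOfIntegers K) ^ (i : ℕ) * ω i) * ζ)
  obtain ⟨YP, hYP⟩ : ∃ YP : ℤ, YP = y + s * NT := ⟨_, rfl⟩
  have hpt0 : ev x YP H = 0 := by
    have hYmem : (βΩ + (s : AlgebraicClosure L) * Z) ∈ intS αΩ :=
      (intS αΩ).add_mem hβint ((intS αΩ).mul_mem (_root_.natCast_mem _ _) hZS)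
    have hφZ : φ ⟨Z, hZS⟩ = (NT : ℂ) := by
      obtain ⟨u, hu⟩ : ∃ u : NumberField.RingOfIntegers K,
        u = ∑ i : Fin n, (s' : NumberField.RingOfIntegers K) ^ (i : ℕ) * ω i := ⟨_, rfl⟩
      have huK : (u : K) = tS ωK s' := by
        rw [hu, tS, hωK]
        push_cast
        rfl
      have e1 : (⟨Z, hZS⟩ : intS αΩ) = ∑ σ, σO σ u * r σ := by
        apply Subtype.ext
        rw [AddSubmonoidClass.coe_finsetSum]
        show Z = _
        rw [hZ, Zt]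
        apply Finset.sum_congr rfl
        intro σ _
        rw [MulMemClass.coe_mul, hσO, hz, huK]
      have e2 : ∑ σ, σO σ (u * ζ) = ((NT : ℤ) : intS αΩ) := by
        apply Subtype.ext
        rw [AddSubmonoidClass.coe_finsetSum]
        have h3 : (((NT : ℤ) : intS αΩ) : AlgebraicClosure L) = NT :=
          map_intCast (intS αΩ).subtype NT
        rw [h3, ← hNT, ← hu]
        apply Finset.sum_congr rfl
        intro σ _
        rw [hσO]
      rw [e1, map_sum]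
      have e3 : ∀ σ, φ (σO σ u * r σ) = φ (σO σ (u * ζ)) := by
        intro σ
        rw [map_mul, hr2 σ, map_mul, map_mul]
      rw [Finset.sum_congr rfl fun σ _ => e3 σ, ← map_sum, e2, map_intCast]
    have hφY : φ ⟨_, hYmem⟩ = ((YP : ℤ) : ℂ) := by
      have e1 : (⟨_, hYmem⟩ : intS αΩ) = ⟨βΩ, hβint⟩ + (s : intS αΩ) * ⟨Z, hZS⟩ := by
        apply Subtype.ext
        rw [AddMemClass.coe_add, MulMemClass.coe_mul]
        have h3 : (((s : ℕ) : intS αΩ) : AlgebraicClosure L) = s :=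
          map_natCast (intS αΩ).subtype s
        rw [h3]
      rw [e1, map_add, map_mul, hφ2, hφZ, map_natCast, hYP]
      push_cast
      rfl
    have h1 : ev (⟨αΩ, self_mem_intS αΩ⟩ : intS αΩ) ⟨_, hYmem⟩ H = 0 := by
      apply Subtype.ext
      have := map_ev (intS αΩ).subtype (⟨αΩ, self_mem_intS αΩ⟩ : intS αΩ) ⟨_, hYmem⟩ H
      refine Eq.trans this ?_
      exact hH0Ω
    have h2 := congrArg φ h1
    rw [map_ev, hφ1, hφY, map_zero] at h2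
    have h3 := map_ev (Int.castRingHom ℂ) x YP H
    rw [eq_intCast, eq_intCast, eq_intCast, h2] at h3
    exact_mod_cast h3
  have hpt : MvPolynomial.eval ![YP, x] Gm = 0 := by
    have h2 := ev_toB (S := ℤ) YP x Gm
    rw [hGm, AlgEquiv.apply_symm_apply, hpt0] at h2
    rw [MvPolynomial.eval, MvPolynomial.coe_eval₂Hom, hGm]
    rw [RingHom.ext_int (RingHom.id ℤ) (Int.castRingHom ℤ)]
    exact h2.symm
  have hCpos : 1 ≤ C0 := by omega
  have hTpos : 1 ≤ T := by omega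
  have hxm : x.natAbs ≤ max YP.natAbs x.natAbs := le_max_right _ _
  have hκWT : ∀ k : ℕ, κ ≤ k → Q ≤ (k * (W * T)) ^ 2 := by
    intro k hk
    have hk1 : 1 ≤ k := by omega
    calc Q ≤ κ * W ^ 2 * T := by rw [hQ]; exact Nat.mul_le_mul_right _ hc1κ
      _ ≤ k * W ^ 2 * T := Nat.mul_le_mul_right _ (Nat.mul_le_mul_right _ hk)
      _ ≤ k * W ^ 2 * T * (k * T) := Nat.le_mul_of_pos_right _ (Nat.mul_pos hk1 hTpos)
      _ = (k * (W * T)) ^ 2 := by ring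
  have fin1 : ∀ B : ℕ, x.natAbs ≤ B → |x| ≤ (B : ℤ) := by
    intro B h
    rw [Int.abs_eq_natAbs]
    exact_mod_cast h
  rw [← hYM] at hHker hHgen
  rw [← hGm] at hHirr hHker
  rcases hC Gm hdeg hHirr L⟮Z⟯ (MvPolynomial.aeval ![YM, algebraMap L L⟮Z⟯ α]) hHker hHgen YP x hpt with
    h | ⟨g, ⟨A, hA, hgm, hgi, ⟨e⟩⟩, η, hη, hnear⟩
  · left
    have h1 : x.natAbs ≤ (κ * (W * T)) ^ (2 * ((C0 + K2) * C0 + (1 + K2) * K1)) := by
      refine hxm.trans (h.trans ?_)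
      have hCT : C0 ≤ Q ^ C0 := (Nat.lt_two_pow_self).le.trans (Nat.pow_le_pow_left hQ2 _)
      calc (C0 * len Gm) ^ C0 ≤ (Q ^ C0 * Q ^ K2) ^ C0 :=
            Nat.pow_le_pow_left (Nat.mul_le_mul hCT hlen) _
        _ = Q ^ ((C0 + K2) * C0) := by rw [← pow_add, ← pow_mul]
        _ ≤ Q ^ ((C0 + K2) * C0 + (1 + K2) * K1) := Nat.pow_le_pow_right (by omega) (by omega)
        _ ≤ ((κ * (W * T)) ^ 2) ^ ((C0 + K2) * C0 + (1 + K2) * K1) :=
          Nat.pow_le_pow_left (hκWT κ le_rfl) _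
        _ = _ := by rw [← pow_mul]
    have := fin1 _ h1
    push_cast at this ⊢
    exact this
  · right
    -- the unique place
    obtain ⟨hAQ, hAx⟩ := (hA A).2 rfl
    simp only [MvPolynomial.aeval_X, Matrix.cons_val_zero, Matrix.cons_val_one] at hAx hA
    have hchM : CharZero L⟮Z⟯ := charZero_of_injective_algebraMap (algebraMap L L⟮Z⟯).injective
    have hratM : ∀ q : ℚ, algebraMap ℚ L⟮Z⟯ q = (q : L⟮Z⟯) := fun q => eq_ratCast _ q
    have hAuniq : ∀ B : ValuationSubring L⟮Z⟯, (∀ q : ℚ, (q : L⟮Z⟯) ∈ B) →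
        algebraMap L L⟮Z⟯ α ∉ B → B = A := by
      intro B hB1 hB2
      apply (hA B).1
      refine ⟨fun q => ?_, fun h => hB2 h.2⟩
      rw [hratM]; exact hB1 q
    have hYH : ev (algebraMap L L⟮Z⟯ α) YM H = 0 := hH0
    have hαA : algebraMap L L⟮Z⟯ α ∉ A := by
      intro h1
      apply hAx
      exact ⟨mem_of_ev A hHm h1 hYH, h1⟩
    have hA𝒱 : 𝒱.comap (algebraMap L⟮Z⟯ (AlgebraicClosure L)) = A := by
      apply hAuniq
      · intro q
        rw [ValuationSubring.mem_comap, map_ratCast]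
        exact h𝒱Q q
      · rw [ValuationSubring.mem_comap, ← IsScalarTower.algebraMap_apply L L⟮Z⟯ (AlgebraicClosure L),
          ← hαΩ]
        exact h𝒱α
    have hmemA : ∀ u : L⟮Z⟯, u ∈ A ↔ (u : AlgebraicClosure L) ∈ 𝒱 := by
      intro u
      rw [← hA𝒱, ValuationSubring.mem_comap]
      rfl
    obtain ⟨V, hV⟩ : ∃ V : ValuationSubring L, V = 𝒱.comap (algebraMap L (AlgebraicClosure L)) :=
      ⟨_, rfl⟩
    have hmemV : ∀ v, v ∈ V ↔ algebraMap L (AlgebraicClosure L) v ∈ 𝒱 := by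
      intro v
      rw [hV, ValuationSubring.mem_comap]
    have hVA : ∀ v, v ∈ V ↔ algebraMap L L⟮Z⟯ v ∈ A := by
      intro v
      rw [hmemV, hmemA]
      rfl
    have hVQ : ∀ q : ℚ, algebraMap ℚ L q ∈ V := by
      intro q
      rw [hmemV, eq_ratCast, map_ratCast]
      exact h𝒱Q q
    have hαV : α ∉ V := by
      rw [hmemV, ← hαΩ]
      exact h𝒱α
    -- the real embedding of the residue field
    obtain ⟨ψ, hψ⟩ : ∃ ψ : AdjoinRoot g →+* ℝ, ∀ u : ℚ[X], ψ (AdjoinRoot.mk g u) = aeval η u := by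
      have hη' : eval₂ (algebraMap ℚ ℝ) η g = 0 := hη
      refine ⟨AdjoinRoot.lift (algebraMap ℚ ℝ) η hη', ?_⟩
      intro u
      rw [AdjoinRoot.lift_mk]
      rfl
    have hfactg : Fact (Irreducible g) := ⟨hgi⟩
    obtain ⟨ψA, hψA⟩ : ∃ ψA : A →+* ℝ, ψA = ψ.comp ((e : IsLocalRing.ResidueField A →+*
      AdjoinRoot g).comp (IsLocalRing.residue A)) := ⟨_, rfl⟩
    have hψA0 : ∀ u : A, ψA u = 0 ↔ (u : L⟮Z⟯) ∈ A.nonunits := by
      intro u
      rw [hψA, ValuationSubring.coe_mem_nonunits_iff, ← IsLocalRing.residue_eq_zero_iff]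
      constructor
      · intro h1
        rw [RingHom.comp_apply, RingHom.comp_apply] at h1
        have h2 := (map_eq_zero ψ).1 h1
        exact (map_eq_zero_iff _ e.injective).1 h2
      · intro h1
        rw [RingHom.comp_apply, RingHom.comp_apply, h1, map_zero, map_zero]
    have hψAη : ∀ u : A, ψA u ∈ ℚ⟮η⟯ := by
      intro u
      obtain ⟨p, hp⟩ := AdjoinRoot.mk_surjective (e (IsLocalRing.residue A u))
      have h1 : ψA u = aeval η p := by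
        rw [hψA, RingHom.comp_apply, RingHom.comp_apply, ← hψ, hp]
        rfl
      rw [h1]
      exact aeval_mem_adjoin p η
    obtain ⟨jVA, hjVA⟩ : ∃ jVA : V →+* A, ∀ v, (jVA v : L⟮Z⟯) = algebraMap L L⟮Z⟯ v :=
      ⟨((algebraMap L L⟮Z⟯).comp V.subtype).codRestrict A.toSubring (fun v => (hVA v).1 v.2),
        fun v => rfl⟩
    have hnonV : ∀ v : L, v ∈ V.nonunits ↔ algebraMap L L⟮Z⟯ v ∈ A.nonunits := by
      intro v
      rw [ValuationSubring.mem_nonunits_iff_or, ValuationSubring.mem_nonunits_iff_or, hVA,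
        map_inv₀, map_eq_zero]
    have hloc : IsLocalHom (ψA.comp jVA) := by
      constructor
      intro v hv
      by_contra hcon
      have h1 : (v : L) ∈ V.nonunits := by
        rw [ValuationSubring.coe_mem_nonunits_iff, IsLocalRing.mem_maximalIdeal]
        exact hcon
      rw [hnonV, ← hjVA, ← hψA0] at h1
      rw [RingHom.comp_apply, h1] at hv
      exact not_isUnit_zero hv
    obtain ⟨ψV, hψV⟩ : ∃ ψV : IsLocalRing.ResidueField V →+* ℝ,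
        ∀ v : V, ψV (IsLocalRing.residue V v) = ψA (jVA v) :=
      ⟨IsLocalRing.ResidueField.lift (ψA.comp jVA), fun v => IsLocalRing.ResidueField.lift_residue_apply _ v⟩
    have hcoefV : ∀ j i, ev α β (a j i) / υ ^ (m - (j : ℕ)) ∈ V := by
      intro j i
      rw [hmemV]
      exact hcoef j i
    have hGV : G V υ := by rw [hV]; exact hGυ
    obtain ⟨ℓ, hℓ⟩ : ∃ ℓ : Fin m → Fin n → ℝ,
      ℓ = fun j i => ψV (IsLocalRing.residue V ⟨_, hcoefV j i⟩) := ⟨_, rfl⟩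
    have hcA : ∀ j i, algebraMap L L⟮Z⟯ (ev α β (a j i) / υ ^ (m - (j : ℕ))) ∈ A.toSubring :=
      fun j i => (hVA _).1 (hcoefV j i)
    have hcAΩ : ∀ j i, algebraMap L⟮Z⟯ (AlgebraicClosure L)
        (algebraMap L L⟮Z⟯ (ev α β (a j i) / υ ^ (m - (j : ℕ)))) =
        ev αΩ βΩ (a j i) / υΩ ^ (m - (j : ℕ)) := by
      intro j i
      rw [← IsScalarTower.algebraMap_apply L L⟮Z⟯ (AlgebraicClosure L), map_div₀, map_ev,
        map_pow, ← hαΩ, ← hβΩ, ← hυΩ]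
    have hℓA : ∀ j i, ((algebraMap ℝ ℂ).comp ψA) ⟨_, hcA j i⟩ = ((ℓ j i : ℝ) : ℂ) := by
      intro j i
      rw [hℓ, RingHom.comp_apply]
      show _ = ((ψV (IsLocalRing.residue V ⟨_, hcoefV j i⟩) : ℝ) : ℂ)
      rw [hψV]
      have h3 : jVA ⟨_, hcoefV j i⟩ = (⟨_, hcA j i⟩ : A) := Subtype.ext (hjVA _)
      rw [h3]
      rfl
    have hAQ' : ∀ q : ℚ, (q : L⟮Z⟯) ∈ A := by
      intro q
      have := hAQ q
      rw [hratM] at this
      exact this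
    have hsepr : ∀ (σ : K →+* AlgebraicClosure L)
        (r r' : AlgebraicClosure L), (PP a ωK αΩ βΩ σ).eval r = 0 → (PP a ωK αΩ βΩ σ).eval r' = 0 →
        r ≠ r' → (r - r') / υΩ ∉ 𝒱.nonunits := by
      intro σ r r' hr hr' hne
      have halgM : Algebra.IsAlgebraic L⟮Z⟯ (AlgebraicClosure L) :=
        Algebra.IsAlgebraic.tower_top (K := L) L⟮Z⟯
      rw [sub_div]
      refine sep_transfer (M := L⟮Z⟯) A hAQ' ((algebraMap ℝ ℂ).comp ψA) ?_ 𝒱 hA𝒱 ωK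
        (fun j i => ⟨_, hcA j i⟩) ?_ σ (v := r / υΩ) (v' := r' / υΩ) ?_ ?_ ?_
      · intro u hu
        rw [RingHom.comp_apply, (hψA0 u).2 hu, map_zero]
      · intro τ
        have h1 := hsepψ V υ ψV hcoefV (by rw [hV]; exact hGυ) τ
        have h2 : (X ^ m + ∑ j : Fin m, C (∑ i, ((algebraMap ℝ ℂ).comp ψA) ⟨_, hcA j i⟩ *
            τ (ωK i)) * X ^ (j : ℕ) : ℂ[X]) = X ^ m + ∑ j : Fin m,
            C (∑ i, ((ψV (IsLocalRing.residue V ⟨_, hcoefV j i⟩) : ℝ) : ℂ) *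
              τ (ω i : K)) * X ^ (j : ℕ) := by
          congr 1
          apply Finset.sum_congr rfl
          intro j _
          congr 2
          apply Finset.sum_congr rfl
          intro i _
          rw [hℓA, hωK, hℓ]
        exact h2 ▸ h1
      · rw [← hscaled σ r hr]
        congr 1
        apply Finset.sum_congr rfl
        intro j _
        congr 1
        apply Finset.sum_congr rfl
        intro i _
        congr 1
        exact hcAΩ j i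
      · rw [← hscaled σ r' hr']
        congr 1
        apply Finset.sum_congr rfl
        intro j _
        congr 1
        apply Finset.sum_congr rfl
        intro i _
        congr 1
        exact hcAΩ j i
      · intro h
        apply hne
        exact (div_left_inj' hυΩ0).1 h
    have hsep := hsep hsepr
    -- the value of the trace form
    have hW𝒱 : Z / υΩ ∈ 𝒱 := by
      rw [hZ, Zt, Finset.sum_div]
      apply sum_mem
      intro σ _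
      rw [mul_div_assoc]
      exact 𝒱.mul_mem _ _ (hσ𝒱 σ _) (hroot𝒱 σ _ (mem_TT.1 hzT σ))
    have hWΩ : ((ZM / algebraMap L L⟮Z⟯ υ : L⟮Z⟯) : AlgebraicClosure L) = Z / υΩ := by
      rw [IntermediateField.coe_div, hZMc, hυΩ]
      rfl
    have hWA : ZM / algebraMap L L⟮Z⟯ υ ∈ A := by
      rw [hmemA, hWΩ]; exact hW𝒱
    obtain ⟨ϖ, hϖ⟩ : ∃ ϖ : ℝ, ϖ = ψA ⟨_, hWA⟩ := ⟨_, rfl⟩
    have hϖη : ϖ ∈ ℚ⟮η⟯ := by rw [hϖ]; exact hψAη _
    have hle : ℚ⟮ϖ⟯ ≤ ℚ⟮η⟯ := by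
      rw [adjoin_simple_le_iff]; exact hϖη
    have hηint : IsIntegral ℚ η := ⟨g, hgm, hη⟩
    have hfdη : FiniteDimensional ℚ ℚ⟮η⟯ := IntermediateField.adjoin.finiteDimensional hηint
    have hϖint : IsIntegral ℚ ϖ := by
      have h1 : IsIntegral ℚ (⟨ϖ, hϖη⟩ : ℚ⟮η⟯) := IsIntegral.of_finite ℚ _
      exact h1.map (ℚ⟮η⟯.val)
    -- its degree
    have hdegϖ : m ≤ (minpoly ℚ ϖ).natDegree := by
      obtain ⟨σ₀, hσ₀⟩ := hirrΩ
      obtain ⟨R, hR1, hR2⟩ := hσ₀ (z σ₀) (mem_TT.1 hzT σ₀)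
      have hZ' : Zt (tS ωK s') z ∈ L⟮Z⟯ := by
        rw [← hZ]; exact mem_adjoin_simple_self L Z
      refine deg_ge 𝒱 h𝒱Q (α := α) (by rw [← hαΩ]; exact h𝒱α) hυ0 hact (t := tS ωK s')
        (by rw [← hυΩ]; exact hsep) ?_ hzT hR1 hR2 (M := L⟮Z⟯) hZ' (A := A) hAuniq
        (minpoly.ne_zero hϖint) ?_
      · intro z1 hz1
        rw [← hυΩ, Zt, Finset.sum_div]
        apply sum_mem
        intro σ _
        rw [mul_div_assoc]
        exact 𝒱.mul_mem _ _ (hσ𝒱 σ _) (hroot𝒱 σ _ (mem_TT.1 hz1 σ))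
      · have h1 : (⟨Zt (tS ωK s') z, hZ'⟩ : L⟮Z⟯) = ZM := by
          apply Subtype.ext
          rw [hZMc]
          exact hZ.symm
        rw [h1]
        obtain ⟨jQA, hjQA⟩ : ∃ jQA : ℚ →+* A, ∀ r, (jQA r : L⟮Z⟯) = algebraMap ℚ _ r :=
          ⟨(algebraMap ℚ L⟮Z⟯).codRestrict A.toSubring hAQ, fun r => rfl⟩
        have h2 : ((eval₂ jQA (⟨_, hWA⟩ : A) (minpoly ℚ ϖ) : A) : L⟮Z⟯) =
            aeval (ZM / algebraMap L L⟮Z⟯ υ) (minpoly ℚ ϖ) := by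
          have h3 := hom_eval₂ (minpoly ℚ ϖ) jQA A.subtype ⟨_, hWA⟩
          refine Eq.trans h3 ?_
          rw [aeval_def]
          congr 1
          exact Subsingleton.elim _ _
        rw [← h2, ← hψA0]
        have h3 := hom_eval₂ (minpoly ℚ ϖ) jQA ψA ⟨_, hWA⟩
        rw [h3, ← hϖ]
        have h4 : ψA.comp jQA = algebraMap ℚ ℝ := Subsingleton.elim _ _
        rw [h4]
        exact minpoly.aeval ℚ ϖ
    have hfr : 3 ≤ Module.finrank ℚ ℚ⟮ϖ⟯ := by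
      rw [IntermediateField.adjoin.finrank hϖint]
      omega
    -- it is in the finite set
    have hϖVal : ϖ ∈ Val ωK ℓ s' := by
      obtain ⟨w, hw1, hw2⟩ := value_mem (K := K) (Ω := AlgebraicClosure L) (M := L⟮Z⟯) A.toSubring
        hAQ' ((algebraMap ℝ ℂ).comp ψA) ωK
        (fun j i => ⟨_, hcA j i⟩) (fun σ => z σ / υΩ) (by
          intro σ
          have h1 := hscaled σ (z σ) (mem_TT.1 hzT σ)
          rw [← h1]
          congr 1
          apply Finset.sum_congr rfl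
          intro j _
          congr 1
          apply Finset.sum_congr rfl
          intro i _
          congr 1
          exact hcAΩ j i) (tS ωK s') ⟨_, hWA⟩ (by
          show ((ZM / algebraMap L L⟮Z⟯ υ : L⟮Z⟯) : AlgebraicClosure L) = _
          rw [hWΩ, hZ, Zt, Finset.sum_div]
          apply Finset.sum_congr rfl
          intro σ _
          rw [mul_div_assoc])
      refine ⟨w, ?_, ?_⟩
      · intro τ
        rw [← hw1 τ]
        congr 1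
        apply Finset.sum_congr rfl
        intro j _
        congr 1
        apply Finset.sum_congr rfl
        intro i _
        congr 1
        exact (hℓA j i).symm
      · rw [← hw2, RingHom.comp_apply, ← hϖ]
        rfl
    have hGm0 : Gm ≠ 0 := by
      rintro h0
      rw [h0, map_zero] at hHirr
      exact hHirr.ne_zero rfl
    have hfin := hck _ hfr Gm _ η hGm0 hnear hle
    refine ⟨V, υ, ψV, hcoefV, s', ϖ, hVQ, hαV, hυ0, hGV, by omega, ?_, hfr, ?_⟩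
    · rw [← hωK, ← hℓ]
      exact hϖVal
    obtain ⟨k, hk⟩ : ∃ k, k = κ + ck ℚ⟮ϖ⟯ := ⟨_, rfl⟩
    have hk1 : κ ≤ k := by omega
    have hck' : ck ℚ⟮ϖ⟯ ≤ k := by omega
    obtain ⟨Y, hY⟩ : ∃ Y, Y = k * (W * T) := ⟨_, rfl⟩
    have hQY : Q ≤ Y ^ 2 := by rw [hY]; exact hκWT k hk1
    have hWT : 1 ≤ W * T := Nat.mul_pos hW1 hTpos
    have hY1 : 1 ≤ Y := by rw [hY]; exact Nat.mul_pos (by omega) hWT
    have h1 : x.natAbs ≤ Y ^ (2 * ((C0 + K2) * C0 + (1 + K2) * K1)) := by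
      refine hxm.trans (hfin.trans ?_)
      calc (ck ℚ⟮ϖ⟯ * len Gm) ^ K1 ≤ (Y ^ 1 * (Y ^ 2) ^ K2) ^ K1 := by
            apply Nat.pow_le_pow_left
            apply Nat.mul_le_mul
            · rw [pow_one, hY]
              exact hck'.trans (Nat.le_mul_of_pos_right _ hWT)
            · exact hlen.trans (Nat.pow_le_pow_left hQY _)
        _ = Y ^ ((1 + 2 * K2) * K1) := by rw [← pow_mul, ← pow_add, ← pow_mul]
        _ ≤ _ := Nat.pow_le_pow_right hY1 (by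
          have e1 : (1 + 2 * K2) * K1 ≤ 2 * ((1 + K2) * K1) := by nlinarith
          omega)
    have h2 := fin1 _ h1
    rw [hY, hk] at h2
    push_cast at h2 ⊢
    exact h2

end Pool.Agent.H90GC
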