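import Pool.Agent.H90GC.G1

set_option autoImplicit false

/-!
Extension of ring homomorphisms to integral extensions.
-/

open Polynomial Finset

namespace Pool.Agent.H90GC

open Pool.Agent.H322R2 Pool.Agent.H90TL

/-- homomorphisms to an algebraically closed field extend to integral extensions -/
theorem ext_hom {R S : Type} [CommRing R] [CommRing S] [Algebra R S]
    [Algebra.IsIntegral R S] (hinj : Function.Injective (algebraMap R S)) {E : Type} [Field E]
    [IsAlgClosed E] (f : R →+* E) : ∃ g : S →+* E, ∀ r, g (algebraMap R S r) = f r := by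
  have hp : (RingHom.ker f).IsPrime := RingHom.ker_isPrime f
  obtain ⟨Q, -, hQ, hQ2⟩ := Ideal.exists_ideal_over_prime_of_isIntegral (R := R) (S := S)
    (RingHom.ker f) ⊥ (by
      intro x hx
      rw [Ideal.mem_comap, Ideal.mem_bot] at hx
      have : x = 0 := hinj (by rw [hx, map_zero])
      rw [this]
      exact Ideal.zero_mem _)
  obtain ⟨P, hP⟩ : ∃ P : Ideal R, P = RingHom.ker f := ⟨_, rfl⟩
  have hQP : P ≤ Q.comap (algebraMap R S) := by rw [hQ2, hP]
  have hPp : P.IsPrime := by rw [hP]; exact hp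
  have hPQ : ∀ x, x ∈ P ↔ algebraMap R S x ∈ Q := by
    intro x
    rw [hP, ← hQ2]; rfl
  let algA : Algebra (R ⧸ P) (S ⧸ Q) := (Ideal.quotientMap Q (algebraMap R S) hQP).toAlgebra
  have hmk : ∀ r : R, algebraMap (R ⧸ P) (S ⧸ Q) (Ideal.Quotient.mk P r) =
      Ideal.Quotient.mk Q (algebraMap R S r) := fun r => rfl
  let algE : Algebra (R ⧸ P) E := (Ideal.Quotient.lift P f (by
    intro a ha; rw [hP] at ha; exact ha)).toAlgebra
  have hmkE : ∀ r : R, algebraMap (R ⧸ P) E (Ideal.Quotient.mk P r) = f r := fun r => rfl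
  have hinjA : Function.Injective (algebraMap (R ⧸ P) (S ⧸ Q)) := by
    rw [injective_iff_map_eq_zero]
    intro a ha
    obtain ⟨r, rfl⟩ := Ideal.Quotient.mk_surjective a
    rw [hmk, Ideal.Quotient.eq_zero_iff_mem] at ha
    rw [Ideal.Quotient.eq_zero_iff_mem, hPQ]
    exact ha
  have hinjE : Function.Injective (algebraMap (R ⧸ P) E) := by
    rw [injective_iff_map_eq_zero]
    intro a ha
    obtain ⟨r, rfl⟩ := Ideal.Quotient.mk_surjective a
    rw [hmkE] at ha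
    rw [Ideal.Quotient.eq_zero_iff_mem, hP]
    exact ha
  have hdA : IsDomain (R ⧸ P) := Ideal.Quotient.isDomain P
  have hdS : IsDomain (S ⧸ Q) := Ideal.Quotient.isDomain Q
  have : FaithfulSMul (R ⧸ P) (S ⧸ Q) := (faithfulSMul_iff_algebraMap_injective _ _).2 hinjA
  have : FaithfulSMul (R ⧸ P) E := (faithfulSMul_iff_algebraMap_injective _ _).2 hinjE
  have hint : Algebra.IsIntegral (R ⧸ P) (S ⧸ Q) := by
    refine ⟨fun z => ?_⟩
    obtain ⟨s, rfl⟩ := Ideal.Quotient.mk_surjective z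
    obtain ⟨p, hpm, hp0⟩ := Algebra.IsIntegral.isIntegral (R := R) s
    refine ⟨p.map (Ideal.Quotient.mk P), hpm.map _, ?_⟩
    rw [eval₂_map]
    have h1 : (algebraMap (R ⧸ P) (S ⧸ Q)).comp (Ideal.Quotient.mk P) =
        (Ideal.Quotient.mk Q).comp (algebraMap R S) := RingHom.ext hmk
    rw [h1, ← hom_eval₂, hp0, map_zero]
  have : Algebra.IsAlgebraic (R ⧸ P) (S ⧸ Q) := inferInstance
  refine ⟨((IsAlgClosed.lift : (S ⧸ Q) →ₐ[R ⧸ P] E) : (S ⧸ Q) →+* E).comp (Ideal.Quotient.mk Q), ?_⟩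
  intro r
  rw [RingHom.comp_apply, ← hmk]
  have := (IsAlgClosed.lift : (S ⧸ Q) →ₐ[R ⧸ P] E).commutes (Ideal.Quotient.mk P r)
  rw [← hmkE]
  exact this

section

variable {Ω : Type} [Field Ω]

/-- the elements integral over `ℤ[α]` -/
def intS (α : Ω) : Subring Ω where
  carrier := {u | (evf α).IsIntegralElem u}
  zero_mem' := (evf α).isIntegralElem_zero
  one_mem' := (evf α).isIntegralElem_one
  add_mem' := fun ha hb => ha.add _ hb
  mul_mem' := fun ha hb => ha.mul _ hb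
  neg_mem' := fun ha => ha.neg _

lemma mem_intS {α u : Ω} : u ∈ intS α ↔ ∃ W : ℤ[X][X], W.Monic ∧ ev α u W = 0 := Iff.rfl

lemma self_mem_intS (α : Ω) : α ∈ intS α := by
  rw [mem_intS]
  refine ⟨X - C X, monic_X_sub_C _, ?_⟩
  rw [map_sub, ev_X, ev_C, evf_X, sub_self]

lemma int_mem_intS (α : Ω) {u : Ω} (hu : IsIntegral ℤ u) : u ∈ intS α := by
  obtain ⟨p, hp, h0⟩ := hu
  refine ⟨p.map C, hp.map _, ?_⟩
  rw [eval₂_map]
  have : (evf α).comp C = algebraMap ℤ Ω := RingHom.ext_int _ _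
  rw [this]
  exact h0

/-- integral over the ring -/
lemma intS_closed (α : Ω) {u : Ω} (h : ∃ W : (intS α)[X], W.Monic ∧
    eval₂ (intS α).subtype u W = 0) : u ∈ intS α := by
  obtain ⟨W, hW, h0⟩ := h
  let A : Algebra ℤ[X] Ω := (evf α).toAlgebra
  have hsub : ∀ v : intS α, (v : Ω) ∈ integralClosure ℤ[X] Ω := fun v => v.2
  have h1 : IsIntegral (integralClosure ℤ[X] Ω) u := by
    obtain ⟨j, hj⟩ : ∃ j : intS α →+* integralClosure ℤ[X] Ω, ∀ v, (j v : Ω) = v :=
      ⟨(intS α).subtype.codRestrict (integralClosure ℤ[X] Ω).toSubring hsub, fun v => rfl⟩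
    refine ⟨W.map j, hW.map _, ?_⟩
    rw [eval₂_map]
    have h3 : (algebraMap (integralClosure ℤ[X] Ω) Ω).comp j = (intS α).subtype := RingHom.ext hj
    rw [h3]
    exact h0
  have h2 : IsIntegral ℤ[X] u := isIntegral_trans (A := integralClosure ℤ[X] Ω) u h1
  exact h2

theorem exists_hom {α Y : Ω} {H : ℤ[X][X]} (hH : H.Monic) (h0 : ev α Y H = 0)
    (hmin : ∀ W, ev α Y W = 0 → H ∣ W) (x r : ℂ) (hr : ev x r H = 0) :
    ∃ φ : intS α →+* ℂ, (∀ h : α ∈ intS α, φ ⟨α, h⟩ = x) ∧ ∀ h : Y ∈ intS α, φ ⟨Y, h⟩ = r := by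
  have hα := self_mem_intS α
  have hY : Y ∈ intS α := ⟨H, hH, h0⟩
  have h1 : ev (⟨α, hα⟩ : intS α) ⟨Y, hY⟩ H = 0 := by
    apply Subtype.ext
    have := map_ev (intS α).subtype (⟨α, hα⟩ : intS α) ⟨Y, hY⟩ H
    rw [ZeroMemClass.coe_zero, ← h0]
    exact this
  let alg : Algebra (AdjoinRoot H) (intS α) :=
    (AdjoinRoot.lift (evf (⟨α, hα⟩ : intS α)) ⟨Y, hY⟩ h1).toAlgebra
  have hmk : ∀ q, algebraMap (AdjoinRoot H) (intS α) (AdjoinRoot.mk H q) =
      ev (⟨α, hα⟩ : intS α) ⟨Y, hY⟩ q := fun q => AdjoinRoot.lift_mk h1 q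
  have hinj : Function.Injective (algebraMap (AdjoinRoot H) (intS α)) := by
    rw [injective_iff_map_eq_zero]
    intro a ha
    obtain ⟨q, rfl⟩ := AdjoinRoot.mk_surjective a
    rw [hmk] at ha
    rw [AdjoinRoot.mk_eq_zero]
    apply hmin
    have := map_ev (intS α).subtype (⟨α, hα⟩ : intS α) ⟨Y, hY⟩ q
    rw [ha, map_zero] at this
    exact this.symm
  have hint : Algebra.IsIntegral (AdjoinRoot H) (intS α) := by
    refine ⟨fun z => ?_⟩
    obtain ⟨W, hW, hz⟩ := z.2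
    refine ⟨W.map ((AdjoinRoot.mk H).comp C), hW.map _, ?_⟩
    rw [eval₂_map]
    have h2 : (algebraMap (AdjoinRoot H) (intS α)).comp ((AdjoinRoot.mk H).comp C) =
        evf (⟨α, hα⟩ : intS α) := by
      refine RingHom.ext fun q => ?_
      rw [RingHom.comp_apply, RingHom.comp_apply, hmk, ev_C]
    rw [h2]
    apply Subtype.ext
    have h3 := map_ev (intS α).subtype (⟨α, hα⟩ : intS α) z W
    rw [ZeroMemClass.coe_zero, ← hz]
    exact h3
  have hr' : eval₂ (evf x) r H = 0 := hr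
  obtain ⟨g, hg⟩ := ext_hom hinj (AdjoinRoot.lift (evf x) r hr' : AdjoinRoot H →+* ℂ)
  refine ⟨g, fun h => ?_, fun h => ?_⟩
  · have h2 := hg (AdjoinRoot.mk H (C X))
    rw [hmk, ev_C, evf_X, AdjoinRoot.lift_mk, eval₂_C, evf_X] at h2
    exact h2
  · have h2 := hg (AdjoinRoot.mk H X)
    rw [hmk, ev_X, AdjoinRoot.lift_mk, eval₂_X] at h2
    exact h2

end

end Pool.Agent.H90GC
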