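import Mathlib

set_option autoImplicit false

/-!
Tuples of roots indexed by the embeddings of a number field, and the generic linear form.
-/

open Polynomial Finset

namespace Pool.Agent.H90GC

section Gen

variable {K : Type} [Field K] [NumberField K] {Ω : Type} [Field Ω] [CharZero Ω]

/-- the point of the moment curve -/
noncomputable def tS {n : ℕ} (ω : Fin n → K) (s : ℕ) : K := ∑ i : Fin n, (s : K) ^ (i : ℕ) * ω i

/-- the trace form -/
noncomputable def Zt (t : K) (z : (K →+* Ω) → Ω) : Ω := ∑ σ, σ t * z σ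

/-- the field embeddings act -/
def act (τ : Ω ≃+* Ω) (z : (K →+* Ω) → Ω) : (K →+* Ω) → Ω :=
  fun σ => τ (z ((τ.symm : Ω →+* Ω).comp σ))

lemma act_Zt (τ : Ω ≃+* Ω) (t : K) (z : (K →+* Ω) → Ω) : τ (Zt t z) = Zt t (act τ z) := by
  unfold Zt act
  rw [map_sum]
  refine Fintype.sum_equiv
    { toFun := fun σ => (τ : Ω →+* Ω).comp σ
      invFun := fun σ => (τ.symm : Ω →+* Ω).comp σ
      left_inv := fun σ => by ext x; simp
      right_inv := fun σ => by ext x; simp } _ _ ?_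
  intro σ
  rw [map_mul]
  have h1 : ((τ.symm : Ω →+* Ω).comp ((τ : Ω →+* Ω).comp σ)) = σ := by ext x; simp
  have h2 : ((τ : Ω →+* Ω).comp σ) t = τ (σ t) := rfl
  show τ (σ t) * τ (z σ) = ((τ : Ω →+* Ω).comp σ) t *
    τ (z ((τ.symm : Ω →+* Ω).comp ((τ : Ω →+* Ω).comp σ)))
  rw [h1, h2]

lemma few_zeros {n : ℕ} (hn : 1 ≤ n) (ω : Fin n → K) (hω : ∀ k : K, ∃ q : Fin n → ℚ, k = ∑ i, (q i : K) * ω i)
    {κ : Type} [Field κ] [CharZero κ] (bar : (K →+* Ω) → (K →+* κ)) (hbar : Function.Injective bar)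
    (δ : (K →+* Ω) → κ) (hδ : δ ≠ 0) (S : Finset ℕ)
    (hS : ∀ s ∈ S, ∑ σ, bar σ (tS ω s) * δ σ = 0) : S.card ≤ n := by
  classical
  obtain ⟨c, hc⟩ : ∃ c : Fin n → κ, c = fun i => ∑ σ, bar σ (ω i) * δ σ := ⟨_, rfl⟩
  have h1 : ∀ s : ℕ, ∑ σ, bar σ (tS ω s) * δ σ = ∑ i : Fin n, c i * (s : κ) ^ (i : ℕ) := by
    intro s
    have e1 : ∀ σ, bar σ (tS ω s) * δ σ = ∑ i : Fin n, (s : κ) ^ (i : ℕ) * (bar σ (ω i) * δ σ) := by
      intro σ
      unfold tS
      rw [map_sum, Finset.sum_mul]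
      apply Finset.sum_congr rfl
      intro i _
      rw [map_mul, map_pow, map_natCast]
      ring
    rw [Finset.sum_congr rfl fun σ _ => e1 σ, Finset.sum_comm]
    apply Finset.sum_congr rfl
    intro i _
    rw [← Finset.mul_sum, hc, mul_comm]
  have h2 : ∃ i, c i ≠ 0 := by
    by_contra hcon
    push Not at hcon
    apply hδ
    have h3 : ∀ k : K, ∑ σ, bar σ k * δ σ = 0 := by
      intro k
      obtain ⟨q, rfl⟩ := hω k
      have e1 : ∀ σ, bar σ (∑ i, (q i : K) * ω i) * δ σ =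
          ∑ i, (q i : κ) * (bar σ (ω i) * δ σ) := by
        intro σ
        rw [map_sum, Finset.sum_mul]
        apply Finset.sum_congr rfl
        intro i _
        rw [map_mul, map_ratCast]
        ring
      rw [Finset.sum_congr rfl fun σ _ => e1 σ, Finset.sum_comm]
      apply Finset.sum_eq_zero
      intro i _
      rw [← Finset.mul_sum]
      have h4 := hcon i
      rw [hc] at h4
      exact mul_eq_zero_of_right _ h4
    have hli := (linearIndependent_monoidHom K κ).comp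
      (fun σ : K →+* Ω => ((bar σ : K →+* κ) : K →* κ)) (by
        intro σ σ' h
        apply hbar
        ext x
        exact congrArg (fun f : K →* κ => f x) h)
    rw [Fintype.linearIndependent_iff] at hli
    funext σ
    refine hli δ ?_ σ
    funext k
    rw [Finset.sum_apply, Pi.zero_apply, ← h3 k]
    apply Finset.sum_congr rfl
    intro σ _
    rw [Pi.smul_apply, smul_eq_mul, mul_comm]
    rfl
  obtain ⟨q, hq⟩ : ∃ q : κ[X], q = ∑ i : Fin n, C (c i) * X ^ (i : ℕ) := ⟨_, rfl⟩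
  have hqc : ∀ i : Fin n, q.coeff i = c i := by
    intro i
    rw [hq, finsetSum_coeff]
    rw [Finset.sum_eq_single i]
    · rw [coeff_C_mul, coeff_X_pow, if_pos rfl, mul_one]
    · intro j _ hj
      rw [coeff_C_mul, coeff_X_pow, if_neg, mul_zero]
      intro h
      exact hj (Fin.ext h.symm)
    · intro h; exact absurd (mem_univ _) h
  have hq0 : q ≠ 0 := by
    rintro h0
    obtain ⟨i, hi⟩ := h2
    apply hi
    rw [← hqc, h0, coeff_zero]
  have hqd : q.natDegree ≤ n := by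
    rw [hq]
    apply natDegree_sum_le_of_forall_le
    intro i _
    refine (natDegree_C_mul_le _ _).trans ?_
    rw [natDegree_X_pow]
    exact i.2.le
  have h3 : (S.image (fun s : ℕ => (s : κ))) ⊆ q.roots.toFinset := by
    intro u hu
    rw [Finset.mem_image] at hu
    obtain ⟨s, hs, rfl⟩ := hu
    rw [Multiset.mem_toFinset, mem_roots hq0, IsRoot.def, hq, eval_finsetSum, ← hS s hs, h1]
    apply Finset.sum_congr rfl
    intro i _
    rw [eval_mul, eval_C, eval_pow, eval_X]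
  calc S.card = (S.image (fun s : ℕ => (s : κ))).card :=
        (Finset.card_image_of_injective _ Nat.cast_injective).symm
    _ ≤ q.roots.toFinset.card := Finset.card_le_card h3
    _ ≤ Multiset.card q.roots := Multiset.toFinset_card_le _
    _ ≤ q.natDegree := card_roots' q
    _ ≤ n := hqd

lemma exists_s {n : ℕ} (hn : 1 ≤ n) (ω : Fin n → K) (hω : ∀ k : K, ∃ q : Fin n → ℚ, k = ∑ i, (q i : K) * ω i)
    {κ : Type} [Field κ] [CharZero κ] (bar : (K →+* Ω) → (K →+* κ)) (hbar : Function.Injective bar)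
    {J : Type} [Fintype J] (δ : J → (K →+* Ω) → κ) :
    ∃ s ≤ Fintype.card J * n, ∀ j, δ j ≠ 0 → ∑ σ, bar σ (tS ω s) * δ j σ ≠ 0 := by
  classical
  by_contra hcon
  push Not at hcon
  obtain ⟨B, hB⟩ : ∃ B : J → Finset ℕ, B = fun j => (range (Fintype.card J * n + 1)).filter
    (fun s => δ j ≠ 0 ∧ ∑ σ, bar σ (tS ω s) * δ j σ = 0) := ⟨_, rfl⟩
  have h1 : ∀ j, (B j).card ≤ n := by
    intro j
    by_cases hj : δ j = 0
    · have : B j = ∅ := by
        rw [hB]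
        apply Finset.filter_eq_empty_iff.2
        intro s _ hs
        exact hs.1 hj
      rw [this]; simp
    · apply few_zeros hn ω hω bar hbar (δ j) hj
      intro s hs
      rw [hB, Finset.mem_filter] at hs
      exact hs.2.2
  have h2 : range (Fintype.card J * n + 1) ⊆ (univ : Finset J).biUnion B := by
    intro s hs
    obtain ⟨j, hj1, hj2⟩ := hcon s (by rw [Finset.mem_range] at hs; omega)
    rw [Finset.mem_biUnion]
    refine ⟨j, mem_univ _, ?_⟩
    rw [hB, Finset.mem_filter]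
    exact ⟨hs, hj1, hj2⟩
  have h3 := Finset.card_le_card h2
  rw [card_range] at h3
  have h4 : ((univ : Finset J).biUnion B).card ≤ Fintype.card J * n := by
    refine Finset.card_biUnion_le.trans ?_
    refine (Finset.sum_le_sum fun j _ => h1 j).trans ?_
    rw [Finset.sum_const, card_univ, smul_eq_mul]
  omega

end Gen

section Val

variable {K : Type} [Field K] [NumberField K] {Ω : Type} [Field Ω] [CharZero Ω]

lemma alg_mem (𝒱 : ValuationSubring Ω) (hQ : ∀ q : ℚ, (q : Ω) ∈ 𝒱) {x : Ω}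
    (hx : IsIntegral ℚ x) : x ∈ 𝒱 := by
  obtain ⟨p, hp, h0⟩ := hx
  obtain ⟨j, hj⟩ : ∃ j : ℚ →+* 𝒱, ∀ r, (j r : Ω) = r :=
    ⟨(algebraMap ℚ Ω).codRestrict 𝒱.toSubring (by intro q; simpa using hQ q), fun r => by
      simp⟩
  have h1 : IsIntegral 𝒱 x := by
    refine ⟨p.map j, hp.map _, ?_⟩
    rw [eval₂_map]
    have : (algebraMap 𝒱 Ω).comp j = algebraMap ℚ Ω := Subsingleton.elim _ _
    rw [this]
    exact h0
  obtain ⟨b, hb⟩ := IsIntegrallyClosed.algebraMap_eq_of_integral h1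
  rw [← hb]
  exact SetLike.coe_mem b

lemma emb_integral (σ : K →+* Ω) (k : K) : IsIntegral ℚ (σ k) := by
  have h := (Algebra.IsIntegral.isIntegral (R := ℚ) k)
  obtain ⟨p, hp, h0⟩ := h
  refine ⟨p, hp, ?_⟩
  have h1 := hom_eval₂ p (algebraMap ℚ K) σ k
  rw [h0, map_zero] at h1
  rw [h1]
  congr 1
  exact Subsingleton.elim _ _

lemma sep {n : ℕ} (hn : 1 ≤ n) (ω : Fin n → K)
    (hω : ∀ k : K, ∃ q : Fin n → ℚ, k = ∑ i, (q i : K) * ω i)
    (𝒱 : ValuationSubring Ω) (hQ : ∀ q : ℚ, (q : Ω) ∈ 𝒱) (υ : Ω)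
    (T : Finset ((K →+* Ω) → Ω)) (h1 : ∀ z ∈ T, ∀ σ, z σ / υ ∈ 𝒱)
    (h2 : ∀ z ∈ T, ∀ z' ∈ T, z ≠ z' → ∃ σ, (z σ - z' σ) / υ ∉ 𝒱.nonunits) :
    ∃ s ≤ T.card * T.card * n, ∀ z ∈ T, ∀ z' ∈ T, z ≠ z' →
      (Zt (tS ω s) z - Zt (tS ω s) z') / υ ∉ 𝒱.nonunits := by
  classical
  have hmem : ∀ (σ : K →+* Ω) k, σ k ∈ 𝒱 := fun σ k => alg_mem 𝒱 hQ (emb_integral σ k)
  obtain ⟨up, hup⟩ : ∃ up : (K →+* Ω) → (K →+* 𝒱), ∀ σ k, (up σ k : Ω) = σ k :=
    ⟨fun σ => σ.codRestrict 𝒱.toSubring (hmem σ), fun σ k => rfl⟩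
  have hchar : CharZero (IsLocalRing.ResidueField 𝒱) := by
    obtain ⟨j, hj⟩ : ∃ j : ℚ →+* 𝒱, ∀ r, (j r : Ω) = r :=
      ⟨(algebraMap ℚ Ω).codRestrict 𝒱.toSubring (by intro q; simpa using hQ q), fun r => by
        simp⟩
    exact charZero_of_injective_ringHom ((IsLocalRing.residue 𝒱).comp j).injective
  obtain ⟨bar, hbar⟩ : ∃ bar : (K →+* Ω) → (K →+* IsLocalRing.ResidueField 𝒱),
    bar = fun σ => (IsLocalRing.residue 𝒱).comp (up σ) := ⟨_, rfl⟩
  have hinj : Function.Injective bar := by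
    intro σ σ' hσ
    ext k
    by_contra hne
    have h3 : IsLocalRing.residue 𝒱 (up σ k - up σ' k) = 0 := by
      rw [map_sub, sub_eq_zero]
      rw [hbar] at hσ
      exact congrArg (fun f : K →+* IsLocalRing.ResidueField 𝒱 => f k) hσ
    rw [IsLocalRing.residue_eq_zero_iff, ← ValuationSubring.coe_mem_nonunits_iff] at h3
    have h4 : ((up σ k - up σ' k : 𝒱) : Ω) = σ k - σ' k := by
      rw [AddSubgroupClass.coe_sub, hup, hup]
    rw [h4] at h3
    have h5 : (σ k - σ' k)⁻¹ ∈ 𝒱 := by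
      apply alg_mem 𝒱 hQ
      have h6 : IsIntegral ℚ (σ k - σ' k) := (emb_integral σ k).sub (emb_integral σ' k)
      exact h6.inv
    have h7 : σ k - σ' k ≠ 0 := sub_ne_zero.2 hne
    rw [ValuationSubring.mem_nonunits_iff] at h3
    rw [← ValuationSubring.valuation_le_one_iff, map_inv₀] at h5
    have e7 : 𝒱.valuation (σ k - σ' k) * (𝒱.valuation (σ k - σ' k))⁻¹ = 1 :=
      mul_inv_cancel₀ ((Valuation.ne_zero_iff _).2 h7)
    have e8 : 𝒱.valuation (σ k - σ' k) * (𝒱.valuation (σ k - σ' k))⁻¹ < 1 :=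
      lt_of_le_of_lt (mul_le_of_le_one_right' h5) h3
    rw [e7] at e8
    exact lt_irrefl _ e8
  have hd : ∀ z ∈ T, ∀ z' ∈ T, ∀ σ, (z σ - z' σ) / υ ∈ 𝒱 := by
    intro z hz z' hz' σ
    rw [sub_div]
    exact 𝒱.sub_mem (h1 z hz σ) (h1 z' hz' σ)
  obtain ⟨dl, hdl⟩ : ∃ dl : T × T → (K →+* Ω) → 𝒱, ∀ j σ, (dl j σ : Ω) =
      ((j.1 : (K →+* Ω) → Ω) σ - (j.2 : (K →+* Ω) → Ω) σ) / υ :=
    ⟨fun j σ => ⟨_, hd j.1 j.1.2 j.2 j.2.2 σ⟩, fun j σ => rfl⟩
  obtain ⟨s, hs, hs2⟩ := exists_s hn ω hω bar hinj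
    (fun (j : T × T) σ => IsLocalRing.residue 𝒱 (dl j σ))
  refine ⟨s, ?_, ?_⟩
  · rw [Fintype.card_prod, Fintype.card_coe] at hs
    exact hs
  intro z hz z' hz' hne hcon
  refine hs2 (⟨z, hz⟩, ⟨z', hz'⟩) ?_ ?_
  · obtain ⟨σ, hσ⟩ := h2 z hz z' hz' hne
    intro h3
    apply hσ
    have h4 := congrFun h3 σ
    rw [Pi.zero_apply, IsLocalRing.residue_eq_zero_iff, ← ValuationSubring.coe_mem_nonunits_iff,
      hdl] at h4
    exact h4
  · have h3 : ∑ σ, bar σ (tS ω s) * IsLocalRing.residue 𝒱 (dl (⟨z, hz⟩, ⟨z', hz'⟩) σ) =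
        IsLocalRing.residue 𝒱 (∑ σ, up σ (tS ω s) * dl (⟨z, hz⟩, ⟨z', hz'⟩) σ) := by
      rw [map_sum]
      apply Finset.sum_congr rfl
      intro σ _
      rw [map_mul, hbar]
      rfl
    rw [h3, IsLocalRing.residue_eq_zero_iff, ← ValuationSubring.coe_mem_nonunits_iff]
    have h4 : ((∑ σ, up σ (tS ω s) * dl (⟨z, hz⟩, ⟨z', hz'⟩) σ : 𝒱) : Ω) =
        (Zt (tS ω s) z - Zt (tS ω s) z') / υ := by
      rw [AddSubmonoidClass.coe_finsetSum, Zt, Zt, ← Finset.sum_sub_distrib, Finset.sum_div]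
      apply Finset.sum_congr rfl
      intro σ _
      rw [MulMemClass.coe_mul, hup, hdl]
      ring
    rw [h4]
    exact hcon

end Val

end Pool.Agent.H90GC
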