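import Pool.Agent.H90GC.G1

set_option autoImplicit false

/-!
Size of the specialisations of the primitive element.
-/

open Polynomial Finset

namespace Pool.Agent.H90GC

open Pool.Agent.H322R2 Pool.Agent.H90TL

lemma norm_evf_le (x : ℂ) (p : ℤ[X]) {D : ℕ} (hD : p.natDegree ≤ D) :
    ‖evf x p‖ ≤ pn zn p * max 1 ‖x‖ ^ D := by
  rw [evf_sum x p (Nat.lt_succ_of_le hD), pn_eq_range zn p (Nat.lt_succ_of_le hD), Finset.sum_mul]
  refine (norm_sum_le _ _).trans (Finset.sum_le_sum ?_)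
  intro i hi
  rw [Finset.mem_range] at hi
  rw [norm_mul, norm_pow, Complex.norm_intCast]
  have hm : (1 : ℝ) ≤ max 1 ‖x‖ := le_max_left _ _
  apply mul_le_mul_of_nonneg_left _ (abs_nonneg _)
  calc ‖x‖ ^ i ≤ max 1 ‖x‖ ^ i := pow_le_pow_left₀ (norm_nonneg _) (le_max_right _ _) _
    _ ≤ max 1 ‖x‖ ^ D := pow_le_pow_right₀ hm (by omega)

lemma norm_ev_le (x y : ℂ) (G : ℤ[X][X]) {D E : ℕ} (hD : XD D G) (hE : G.natDegree ≤ E) :
    ‖ev x y G‖ ≤ pn (pn zn) G * (max 1 ‖x‖ ^ D * max 1 ‖y‖ ^ E) := by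
  rw [ev_apply, eval₂_eq_sum_range' _ (Nat.lt_succ_of_le hE),
    pn_eq_range (pn zn) G (Nat.lt_succ_of_le hE), Finset.sum_mul]
  refine (norm_sum_le _ _).trans (Finset.sum_le_sum ?_)
  intro i hi
  rw [Finset.mem_range] at hi
  rw [norm_mul, norm_pow]
  have hm : (1 : ℝ) ≤ max 1 ‖y‖ := le_max_left _ _
  have h1 : ‖y‖ ^ i ≤ max 1 ‖y‖ ^ E := (pow_le_pow_left₀ (norm_nonneg _) (le_max_right _ _) _).trans
    (pow_le_pow_right₀ hm (by omega))
  have h2 := norm_evf_le x (G.coeff i) (hD i)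
  have h3 : 0 ≤ pn zn (G.coeff i) := apply_nonneg _ _
  calc _ ≤ (pn zn (G.coeff i) * max 1 ‖x‖ ^ D) * max 1 ‖y‖ ^ E :=
        mul_le_mul h2 h1 (by positivity) (by positivity)
    _ = _ := by ring

lemma root_le (r : ℂ) {m : ℕ} (A : ℕ → ℂ) (h : r ^ m + ∑ j ∈ range m, A j * r ^ j = 0) :
    ‖r‖ ≤ 1 + ∑ j ∈ range m, ‖A j‖ := by
  have hs : 0 ≤ ∑ j ∈ range m, ‖A j‖ := Finset.sum_nonneg fun _ _ => norm_nonneg _
  by_cases hr : ‖r‖ ≤ 1
  · linarith
  push Not at hr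
  have hm : m ≠ 0 := by
    rintro rfl
    simp at h
  obtain ⟨k, rfl⟩ : ∃ k, m = k + 1 := ⟨m - 1, by omega⟩
  have h1 : r ^ (k + 1) = - ∑ j ∈ range (k + 1), A j * r ^ j := by linear_combination h
  have h2 : ‖r‖ ^ (k + 1) ≤ (∑ j ∈ range (k + 1), ‖A j‖) * ‖r‖ ^ k := by
    rw [← norm_pow, h1, norm_neg, Finset.sum_mul]
    refine (norm_sum_le _ _).trans (Finset.sum_le_sum ?_)
    intro j hj
    rw [Finset.mem_range] at hj
    rw [norm_mul, norm_pow]
    apply mul_le_mul_of_nonneg_left _ (norm_nonneg _)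
    exact pow_le_pow_right₀ hr.le (by omega)
  have h3 : 0 < ‖r‖ ^ k := by positivity
  rw [pow_succ'] at h2
  have := le_of_mul_le_mul_right h2 h3
  linarith

lemma root_le_monic (r : ℂ) (p : ℂ[X]) (hp : p.Monic) (h : p.eval r = 0) :
    ‖r‖ ≤ 1 + ∑ j ∈ range p.natDegree, ‖p.coeff j‖ := by
  apply root_le r (fun j => p.coeff j)
  rw [eval_eq_sum_range, Finset.sum_range_succ, hp.coeff_natDegree, one_mul] at h
  linear_combination h

/-- roots of a monic integer bivariate polynomial -/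
lemma root_F (x y : ℂ) {F : ℤ[X][X]} (hF : F.Monic) {D : ℕ} (hD : XD D F) (h : ev x y F = 0) :
    ‖y‖ ≤ 1 + pn (pn zn) F * max 1 ‖x‖ ^ D := by
  have h1 := root_le_monic y (F.map (evf x)) (hF.map _) (by rw [eval_map]; exact h)
  refine h1.trans ?_
  rw [hF.natDegree_map, pn_eq_range (pn zn) F (Nat.lt_succ_self _), Finset.sum_mul]
  have h2 : ∑ j ∈ range F.natDegree, ‖(F.map (evf x)).coeff j‖ ≤
      ∑ j ∈ range F.natDegree, pn zn (F.coeff j) * max 1 ‖x‖ ^ D := by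
    apply Finset.sum_le_sum
    intro j _
    rw [coeff_map]
    exact norm_evf_le x _ (hD j)
  have h3 : ∑ j ∈ range F.natDegree, pn zn (F.coeff j) * max 1 ‖x‖ ^ D ≤
      ∑ j ∈ range (F.natDegree + 1), pn zn (F.coeff j) * max 1 ‖x‖ ^ D := by
    rw [Finset.sum_range_succ]
    have h4 : 0 ≤ pn zn (F.coeff F.natDegree) := apply_nonneg _ _
    have : 0 ≤ pn zn (F.coeff F.natDegree) * max 1 ‖x‖ ^ D := by positivity
    linarith
  linarith

/-- roots of a monic integer polynomial -/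
lemma root_int (w : ℂ) {p : ℤ[X]} (hp : p.Monic) (h : eval₂ (Int.castRingHom ℂ) w p = 0) :
    ‖w‖ ≤ 1 + pn zn p := by
  have h1 := root_le_monic w (p.map (Int.castRingHom ℂ)) (hp.map _) (by rw [eval_map]; exact h)
  refine h1.trans ?_
  rw [hp.natDegree_map, pn_eq_range zn p (Nat.lt_succ_self _), Finset.sum_range_succ]
  have h2 : ∑ j ∈ range p.natDegree, ‖(p.map (Int.castRingHom ℂ)).coeff j‖ =
      ∑ j ∈ range p.natDegree, zn (p.coeff j) := by
    apply Finset.sum_congr rfl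
    intro j _
    rw [coeff_map, eq_intCast, Complex.norm_intCast]
    rfl
  have h4 : 0 ≤ zn (p.coeff p.natDegree) := apply_nonneg _ _
  rw [h2]
  linarith

lemma size_Y {J : Type} [Fintype J] {m n D : ℕ} (hJ : Fintype.card J = n) {W : ℝ} (hW : 1 ≤ W)
    {T : ℝ} (hT : 1 ≤ T) {F : ℤ[X][X]} (hF : F.Monic) (hFX : XD D F) (hFT : pn (pn zn) F ≤ T)
    (a : Fin m → Fin n → ℤ[X][X]) (haD : ∀ j i, (a j i).natDegree ≤ D) (haX : ∀ j i, XD D (a j i))
    (haT : ∀ j i, pn (pn zn) (a j i) ≤ T) (x y : ℂ) (hxy : ev x y F = 0)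
    (w : J → Fin n → ℂ) (hw : ∀ σ i, ‖w σ i‖ ≤ W) (z : J → ℂ)
    (hz : ∀ σ, z σ ^ m + ∑ j : Fin m, (∑ i, ev x y (a j i) * w σ i) * z σ ^ (j : ℕ) = 0)
    (s s' S : ℕ) (hs : s ≤ S) (hs' : s' ≤ S) (hS : 1 ≤ S) :
    ‖y + s * ∑ σ, (∑ i : Fin n, (s' : ℂ) ^ (i : ℕ) * w σ i) * z σ‖ ≤
      ((2 + S * (n * (n * S ^ n * W) * (1 + m * n * W * 2 ^ D))) * T) ^ (D + 1) *
        max 1 ‖x‖ ^ (D + D * D) := by
  obtain ⟨X, hX⟩ : ∃ X : ℝ, X = max 1 ‖x‖ := ⟨_, rfl⟩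
  have hX1 : 1 ≤ X := by rw [hX]; exact le_max_left _ _
  have hXD : 1 ≤ X ^ D := one_le_pow₀ hX1
  have hy : ‖y‖ ≤ 2 * T * X ^ D := by
    have h1 := root_F x y hF hFX hxy
    rw [← hX] at h1
    have h2 : pn (pn zn) F * X ^ D ≤ T * X ^ D := mul_le_mul_of_nonneg_right hFT (by positivity)
    have h3 : 1 ≤ T * X ^ D := one_le_mul_of_one_le_of_one_le hT hXD
    linarith
  have hy1 : (1 : ℝ) ≤ 2 * T * X ^ D := by
    have h3 : 1 ≤ T * X ^ D := one_le_mul_of_one_le_of_one_le hT hXD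
    linarith
  have hmy : max 1 ‖y‖ ≤ 2 * T * X ^ D := max_le hy1 hy
  have hmy0 : (0 : ℝ) ≤ max 1 ‖y‖ := le_trans zero_le_one (le_max_left _ _)
  have hev : ∀ j i, ‖ev x y (a j i)‖ ≤ T * (X ^ D * (2 * T * X ^ D) ^ D) := by
    intro j i
    refine (norm_ev_le x y (a j i) (haX j i) (haD j i)).trans ?_
    rw [← hX]
    apply mul_le_mul (haT j i) _ (by positivity) (by linarith)
    apply mul_le_mul_of_nonneg_left _ (by positivity)
    exact pow_le_pow_left₀ hmy0 hmy _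
  obtain ⟨V, hV⟩ : ∃ V : ℝ, V = T * (X ^ D * (2 * T * X ^ D) ^ D) := ⟨_, rfl⟩
  rw [← hV] at hev
  have hV0 : 0 ≤ V := by rw [hV]; positivity
  have hcoef : ∀ σ (j : Fin m), ‖∑ i, ev x y (a j i) * w σ i‖ ≤ n * (V * W) := by
    intro σ j
    refine (norm_sum_le _ _).trans ?_
    refine (Finset.sum_le_sum (g := fun _ => V * W) ?_).trans ?_
    · intro i _
      rw [norm_mul]
      exact mul_le_mul (hev j i) (hw σ i) (norm_nonneg _) hV0
    · rw [Finset.sum_const, card_univ, Fintype.card_fin, nsmul_eq_mul]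
  have hzb : ∀ σ, ‖z σ‖ ≤ 1 + m * (n * (V * W)) := by
    intro σ
    have h1 := root_le (z σ) (m := m)
      (fun j => if h : j < m then ∑ i, ev x y (a ⟨j, h⟩ i) * w σ i else 0) (by
        have h2 : ∑ j ∈ range m, (if h : j < m then ∑ i, ev x y (a ⟨j, h⟩ i) * w σ i else 0) *
            z σ ^ j = ∑ j : Fin m, (∑ i, ev x y (a j i) * w σ i) * z σ ^ (j : ℕ) := by
          rw [← Fin.sum_univ_eq_sum_range (fun j =>
            (if h : j < m then ∑ i, ev x y (a ⟨j, h⟩ i) * w σ i else 0) * z σ ^ j)]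
          apply Finset.sum_congr rfl
          intro j _
          rw [dif_pos j.2]
        rw [h2]
        exact hz σ)
    refine h1.trans ?_
    apply add_le_add le_rfl
    refine (Finset.sum_le_sum (g := fun _ => (n : ℝ) * (V * W)) ?_).trans ?_
    · intro j hj
      rw [Finset.mem_range] at hj
      rw [dif_pos hj]
      exact hcoef σ _
    · rw [Finset.sum_const, card_range, nsmul_eq_mul]
  have hS1 : (1 : ℝ) ≤ S := by exact_mod_cast hS
  have hs0 : (0 : ℝ) ≤ s := Nat.cast_nonneg _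
  have hs'0 : (0 : ℝ) ≤ s' := Nat.cast_nonneg _
  have hsS : (s : ℝ) ≤ S := by exact_mod_cast hs
  have hs'S : (s' : ℝ) ≤ S := by exact_mod_cast hs'
  have htb : ∀ σ, ‖∑ i : Fin n, (s' : ℂ) ^ (i : ℕ) * w σ i‖ ≤ n * (S ^ n * W) := by
    intro σ
    refine (norm_sum_le _ _).trans ?_
    refine (Finset.sum_le_sum (g := fun _ => (S : ℝ) ^ n * W) ?_).trans ?_
    · intro i _
      rw [norm_mul, norm_pow, Complex.norm_natCast]
      apply mul_le_mul _ (hw σ i) (norm_nonneg _) (by positivity)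
      exact (pow_le_pow_left₀ hs'0 hs'S _).trans (pow_le_pow_right₀ hS1 i.2.le)
    · rw [Finset.sum_const, card_univ, Fintype.card_fin, nsmul_eq_mul]
  have hsum : ‖∑ σ, (∑ i : Fin n, (s' : ℂ) ^ (i : ℕ) * w σ i) * z σ‖ ≤
      n * ((n * (S ^ n * W)) * (1 + m * (n * (V * W)))) := by
    refine (norm_sum_le _ _).trans ?_
    refine (Finset.sum_le_sum (g := fun _ => (n * (S ^ n * W)) * (1 + m * (n * (V * W)))) ?_).trans ?_
    · intro σ _
      rw [norm_mul]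
      exact mul_le_mul (htb σ) (hzb σ) (norm_nonneg _) (by positivity)
    · rw [Finset.sum_const, card_univ, hJ, nsmul_eq_mul]
  have hVe : V = 2 ^ D * T ^ (D + 1) * X ^ (D + D * D) := by
    rw [hV, mul_pow, mul_pow, pow_add X D, pow_mul X D, pow_succ T]
    ring
  have hTD : T ≤ T ^ (D + 1) := le_self_pow₀ hT (by omega)
  have hXX : X ^ D ≤ X ^ (D + D * D) := pow_le_pow_right₀ hX1 (by omega)
  have hT1 : (1 : ℝ) ≤ T ^ (D + 1) := one_le_pow₀ hT
  have hXX1 : (1 : ℝ) ≤ X ^ (D + D * D) := one_le_pow₀ hX1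
  obtain ⟨Q, hQ⟩ : ∃ Q : ℝ, Q = T ^ (D + 1) * X ^ (D + D * D) := ⟨_, rfl⟩
  have hQ1 : 1 ≤ Q := by rw [hQ]; exact one_le_mul_of_one_le_of_one_le hT1 hXX1
  have hyQ : ‖y‖ ≤ 2 * Q := by
    refine hy.trans ?_
    rw [hQ, mul_assoc]
    gcongr
  have hVQ : V = 2 ^ D * Q := by rw [hVe, hQ]; ring
  obtain ⟨c, hc⟩ : ∃ c : ℝ, c = 2 + S * (n * (n * S ^ n * W) * (1 + m * n * W * 2 ^ D)) := ⟨_, rfl⟩
  have hc1 : 1 ≤ c := by
    rw [hc]
    have : (0 : ℝ) ≤ S * (n * (n * S ^ n * W) * (1 + m * n * W * 2 ^ D)) := by positivity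
    linarith
  have htot : ‖y + s * ∑ σ, (∑ i : Fin n, (s' : ℂ) ^ (i : ℕ) * w σ i) * z σ‖ ≤ c * Q := by
    refine (norm_add_le _ _).trans ?_
    rw [norm_mul, Complex.norm_natCast]
    have h1 : (s : ℝ) * ‖∑ σ, (∑ i : Fin n, (s' : ℂ) ^ (i : ℕ) * w σ i) * z σ‖ ≤
        S * (n * ((n * (S ^ n * W)) * (1 + m * (n * (V * W))))) :=
      mul_le_mul hsS hsum (norm_nonneg _) (by linarith)
    have h2 : (1 : ℝ) + m * (n * (V * W)) ≤ (1 + m * n * W * 2 ^ D) * Q := by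
      rw [hVQ]
      have : (0 : ℝ) ≤ m * n * W * 2 ^ D * Q := by positivity
      nlinarith
    have h3 : (S : ℝ) * (n * ((n * (S ^ n * W)) * (1 + m * (n * (V * W))))) ≤
        S * (n * ((n * (S ^ n * W)) * ((1 + m * n * W * 2 ^ D) * Q))) := by
      gcongr
    calc _ ≤ 2 * Q + S * (n * ((n * (S ^ n * W)) * ((1 + m * n * W * 2 ^ D) * Q))) := by
          linarith
      _ = c * Q := by rw [hc]; ring
  refine htot.trans ?_
  rw [← hc, ← hX, hQ, mul_pow, ← mul_assoc]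
  apply mul_le_mul_of_nonneg_right _ (by positivity)
  apply mul_le_mul_of_nonneg_right _ (by positivity)
  exact le_self_pow₀ hc1 (by omega)

end Pool.Agent.H90GC
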