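import Pool.Agent.H90TL.B2
import Pool.Agent.H90GC.G2

set_option autoImplicit false

/-!
Plane models of finite extensions with integral equations.
-/

open Polynomial Finset IntermediateField

namespace Pool.Agent.H90GC

open Pool.Agent.H322R2 Pool.Agent.H90TL

lemma isFrac {K : Type} [Field K] [Algebra ℚ[X] K] [IsFractionRing ℚ[X] K] [alg : Algebra ℤ[X] K]
    (h : ∀ q, algebraMap ℤ[X] K q = algebraMap ℚ[X] K (q.map (Int.castRingHom ℚ))) :
    IsFractionRing ℤ[X] K := by
  have hinj : Function.Injective (algebraMap ℤ[X] K) := by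
    intro q q' hq
    rw [h, h] at hq
    exact map_injective _ Int.cast_injective (IsFractionRing.injective ℚ[X] K hq)
  have : FaithfulSMul ℤ[X] K := (faithfulSMul_iff_algebraMap_injective _ _).2 hinj
  have hnum : ∀ q : ℚ[X], ∃ (b : ℤ) (r : ℤ[X]), b ≠ 0 ∧ r.map (Int.castRingHom ℚ) = C (b : ℚ) * q := by
    intro q
    obtain ⟨b, hb1, hb⟩ := IsLocalization.integerNormalization_spec (nonZeroDivisors ℤ) q
    refine ⟨b, IsLocalization.integerNormalization (nonZeroDivisors ℤ) q,
      nonZeroDivisors.ne_zero hb1, ?_⟩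
    have h2 : (IsLocalization.integerNormalization (nonZeroDivisors ℤ) q).map (algebraMap ℤ ℚ) =
        (b : ℤ) • q := hb
    have h3 : Int.castRingHom ℚ = algebraMap ℤ ℚ := RingHom.ext_int _ _
    rw [h3, h2, ← Polynomial.smul_eq_C_mul]
    ext i
    rw [coeff_smul, coeff_smul, zsmul_eq_mul, smul_eq_mul]
  apply IsFractionRing.of_field
  intro z
  obtain ⟨a, b, hb, rfl⟩ := IsFractionRing.div_surjective (A := ℚ[X]) z
  obtain ⟨n1, r1, h1, e1⟩ := hnum a
  obtain ⟨n2, r2, h2, e2⟩ := hnum b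
  have hb0 : algebraMap ℚ[X] K b ≠ 0 := by
    intro h0
    exact nonZeroDivisors.ne_zero hb (IsFractionRing.injective ℚ[X] K (by rw [h0, map_zero]))
  have hn1 : algebraMap ℚ[X] K (C (n1 : ℚ)) ≠ 0 := by
    intro h0
    have h3 := IsFractionRing.injective ℚ[X] K (h0.trans (map_zero _).symm)
    rw [C_eq_zero] at h3
    exact h1 (by exact_mod_cast h3)
  have hn2 : algebraMap ℚ[X] K (C (n2 : ℚ)) ≠ 0 := by
    intro h0
    have h3 := IsFractionRing.injective ℚ[X] K (h0.trans (map_zero _).symm)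
    rw [C_eq_zero] at h3
    exact h2 (by exact_mod_cast h3)
  refine ⟨C n2 * r1, C n1 * r2, ?_⟩
  rw [h, h, Polynomial.map_mul, Polynomial.map_mul, e1, e2, Polynomial.map_C, Polynomial.map_C]
  simp only [map_mul, eq_intCast]
  field_simp

lemma int_model {K M : Type} [Field K] [Field M] [Algebra K M] [FiniteDimensional K M]
    [Algebra ℤ[X] K] [IsFractionRing ℤ[X] K] [Algebra ℤ[X] M] [IsScalarTower ℤ[X] K M]
    (Y : M) (hY : IsIntegral ℤ[X] Y) (hprim : K⟮Y⟯ = ⊤) :
    ∃ H : ℤ[X][X], H.Monic ∧ H.natDegree = Module.finrank K M ∧ aeval Y H = 0 ∧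
      ∀ W : ℤ[X][X], aeval Y W = 0 → H ∣ W := by
  have hinj : Function.Injective (algebraMap ℤ[X] M) := by
    rw [IsScalarTower.algebraMap_eq ℤ[X] K M]
    exact (algebraMap K M).injective.comp (IsFractionRing.injective ℤ[X] K)
  have : FaithfulSMul ℤ[X] M := (faithfulSMul_iff_algebraMap_injective _ _).2 hinj
  have htf : Module.IsTorsionFree ℤ[X] M := inferInstance
  refine ⟨minpoly ℤ[X] Y, minpoly.monic hY, ?_, minpoly.aeval _ _, fun W hW =>
    minpoly.isIntegrallyClosed_dvd hY hW⟩
  have h1 := minpoly.isIntegrallyClosed_eq_field_fractions' K hY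
  have h2 : (minpoly K Y).natDegree = Module.finrank K M := by
    rw [← IntermediateField.adjoin.finrank (IsIntegral.of_finite K Y), hprim,
      IntermediateField.finrank_top']
  rw [← h2, h1, (minpoly.monic hY).natDegree_map]

end Pool.Agent.H90GC
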