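import Pool.Agent.H90GC.G5

set_option autoImplicit false

/-!
The plane model of a finite extension generated by an integral element.
-/

open Polynomial Finset IntermediateField

namespace Pool.Agent.H90GC

open Pool.Agent.H322R2 Pool.Agent.H90TL

theorem model {L : Type} [Field L] [Algebra ℚ L] {α β : L} {F : ℤ[X][X]} (hF : F.Monic)
    (he : 1 ≤ F.natDegree) (hev : ev α β F = 0) (hα : Transcendental ℚ α)
    (hgen : ∀ z : L, ∃ w1 ∈ Algebra.adjoin ℚ {α, β}, ∃ w2 ∈ Algebra.adjoin ℚ {α, β},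
      w2 ≠ 0 ∧ w2 * z = w1)
    (hirr : Irreducible (F.map (mapRingHom (Int.castRingHom ℚ))))
    {M : Type} [Field M] [Algebra L M] [Algebra ℚ M] [IsScalarTower ℚ L M]
    [FiniteDimensional L M] (Z : M) (hZ : L⟮Z⟯ = ⊤)
    (hint : ∃ W : ℤ[X][X], W.Monic ∧ ev (algebraMap L M α) Z W = 0) :
    ∃ (s : ℕ) (H : ℤ[X][X]), s ≤ F.natDegree * Module.finrank L M ∧ H.Monic ∧
      H.natDegree = F.natDegree * Module.finrank L M ∧
      ev (algebraMap L M α) (algebraMap L M β + s * Z) H = 0 ∧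
      (∀ W, ev (algebraMap L M α) (algebraMap L M β + s * Z) W = 0 → H ∣ W) ∧
      Irreducible (MvPolynomial.map (Int.castRingHom ℚ) ((toB ℤ).symm H)) ∧
      (∀ w, MvPolynomial.aeval (R := ℚ) ![algebraMap L M β + s * Z, algebraMap L M α] w = 0 ↔
        MvPolynomial.map (Int.castRingHom ℚ) ((toB ℤ).symm H) ∣ w) ∧
      (∀ z, ∃ w1 w2 : MvPolynomial (Fin 2) ℚ,
        MvPolynomial.aeval (R := ℚ) ![algebraMap L M β + s * Z, algebraMap L M α] w2 ≠ 0 ∧
        MvPolynomial.aeval (R := ℚ) ![algebraMap L M β + s * Z, algebraMap L M α] w2 * z =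
          MvPolynomial.aeval (R := ℚ) ![algebraMap L M β + s * Z, algebraMap L M α] w1) := by
  let algL : Algebra ℚ[X] L := (aeval α : ℚ[X] →ₐ[ℚ] L).toRingHom.toAlgebra
  have hmapX : algebraMap ℚ[X] L X = α := by
    show (aeval α : ℚ[X] →ₐ[ℚ] L) X = α
    exact aeval_X α
  have hinj : Function.Injective (algebraMap ℚ[X] L) := transcendental_iff_injective.1 hα
  have : FaithfulSMul ℚ[X] L := (faithfulSMul_iff_algebraMap_injective ℚ[X] L).2 hinj
  have : IsScalarTower ℚ ℚ[X] L := IsScalarTower.of_algebraMap_eq (fun q => by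
    show _ = (aeval α : ℚ[X] →ₐ[ℚ] L) (algebraMap ℚ ℚ[X] q)
    rw [AlgHom.commutes])
  let algK : Algebra (FractionRing ℚ[X]) L := FractionRing.liftAlgebra ℚ[X] L
  have : IsScalarTower ℚ[X] (FractionRing ℚ[X]) L := FractionRing.isScalarTower_liftAlgebra ℚ[X] L
  have : IsScalarTower ℚ (FractionRing ℚ[X]) L := IsScalarTower.to₁₃₄ ℚ ℚ[X] (FractionRing ℚ[X]) L
  obtain ⟨Fq, hFq⟩ : ∃ Fq : ℚ[X][X], Fq = F.map (mapRingHom (Int.castRingHom ℚ)) := ⟨_, rfl⟩
  have hFqm : Fq.Monic := by rw [hFq]; exact hF.map _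
  have hFq0 : aeval β Fq = 0 := by rw [hFq, aeval_mapQ α β hmapX, hev]
  rw [← hFq] at hirr
  have hFqd : Fq.natDegree = F.natDegree := by rw [hFq]; exact hF.natDegree_map _
  -- the degree of `L`
  have hmin : minpoly (FractionRing ℚ[X]) β = Fq.map (algebraMap ℚ[X] (FractionRing ℚ[X])) :=
    minpoly_of_irr hFqm hirr β hFq0
  have hintβ : IsIntegral (FractionRing ℚ[X]) β := by
    refine ⟨Fq.map (algebraMap ℚ[X] (FractionRing ℚ[X])), hFqm.map _, ?_⟩
    have := aeval_map_algebraMap (FractionRing ℚ[X]) β Fq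
    rw [hFq0] at this
    exact this
  have htop : (FractionRing ℚ[X])⟮β⟯ = ⊤ := by
    apply gen_top (α := α) (β := β) _ hgen
    refine ⟨algebraMap ℚ[X] _ X, ?_⟩
    rw [← IsScalarTower.algebraMap_apply, hmapX]
  have hfdL : FiniteDimensional (FractionRing ℚ[X]) L := by
    have h1 : FiniteDimensional (FractionRing ℚ[X]) (FractionRing ℚ[X])⟮β⟯ :=
      IntermediateField.adjoin.finiteDimensional hintβ
    rw [htop] at h1
    exact (IntermediateField.topEquiv (F := FractionRing ℚ[X]) (E := L)).toLinearEquiv.finiteDimensional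
  have hrL : Module.finrank (FractionRing ℚ[X]) L = F.natDegree := by
    rw [← IntermediateField.finrank_top', ← htop, IntermediateField.adjoin.finrank hintβ, hmin,
      hFqm.natDegree_map, hFqd]
  -- the degree of `M`
  let algKM : Algebra (FractionRing ℚ[X]) M :=
    ((algebraMap L M).comp (algebraMap (FractionRing ℚ[X]) L)).toAlgebra
  have towKM : IsScalarTower (FractionRing ℚ[X]) L M := IsScalarTower.of_algebraMap_eq (fun q => rfl)
  let algQM : Algebra ℚ[X] M := ((algebraMap L M).comp (algebraMap ℚ[X] L)).toAlgebra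
  have towQLM : IsScalarTower ℚ[X] L M := IsScalarTower.of_algebraMap_eq (fun q => rfl)
  have towQKM : IsScalarTower ℚ[X] (FractionRing ℚ[X]) M := IsScalarTower.of_algebraMap_eq (fun q => by
    show algebraMap L M (algebraMap ℚ[X] L q) =
      algebraMap L M (algebraMap (FractionRing ℚ[X]) L (algebraMap ℚ[X] (FractionRing ℚ[X]) q))
    rw [← IsScalarTower.algebraMap_apply ℚ[X] (FractionRing ℚ[X]) L])
  have hfd : FiniteDimensional (FractionRing ℚ[X]) M := FiniteDimensional.trans _ L _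
  have hr : Module.finrank (FractionRing ℚ[X]) M = F.natDegree * Module.finrank L M := by
    rw [← Module.finrank_mul_finrank (FractionRing ℚ[X]) L M, hrL]
  have : CharZero (FractionRing ℚ[X]) := charZero_of_injective_algebraMap
    (IsFractionRing.injective ℚ[X] (FractionRing ℚ[X]))
  obtain ⟨s, hs, hss⟩ := exists_prim (K := FractionRing ℚ[X]) (algebraMap L M β) Z (by
      intro φ ψ h1 h2
      have h3 : (φ : M →+* AlgebraicClosure M).comp (algebraMap L M) =
          (ψ : M →+* AlgebraicClosure M).comp (algebraMap L M) := by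
        have h4 : φ.comp (IsScalarTower.toAlgHom (FractionRing ℚ[X]) L M) =
            ψ.comp (IsScalarTower.toAlgHom (FractionRing ℚ[X]) L M) := by
          have h5 := (Field.primitive_element_iff_algHom_eq_of_eval (FractionRing ℚ[X])
            (AlgebraicClosure M) (fun x => IsAlgClosed.splits _) β
            (φ.comp (IsScalarTower.toAlgHom (FractionRing ℚ[X]) L M))).1 htop
          exact h5 _ h1
        exact congrArg (fun f : L →ₐ[FractionRing ℚ[X]] AlgebraicClosure M =>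
          (f : L →+* AlgebraicClosure M)) h4
      have h6 : ∀ x : M, φ x = ψ x := by
        intro x
        have hx : x ∈ L⟮Z⟯ := by rw [hZ]; exact IntermediateField.mem_top
        obtain ⟨q, hq⟩ : ∃ q : L[X], aeval Z q = x := by
          have h1 : x ∈ L⟮Z⟯.toSubalgebra := hx
          rw [IntermediateField.adjoin_simple_toSubalgebra_of_isAlgebraic
            (IsIntegral.of_finite L Z).isAlgebraic] at h1
          rw [Algebra.adjoin_singleton_eq_range_aeval] at h1
          obtain ⟨q, hq⟩ := h1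
          exact ⟨q, hq⟩
        rw [← hq, aeval_def]
        have e1 := hom_eval₂ q (algebraMap L M) (φ : M →+* AlgebraicClosure M) Z
        have e2 := hom_eval₂ q (algebraMap L M) (ψ : M →+* AlgebraicClosure M) Z
        rw [h3] at e1
        have e3 : (φ : M →+* AlgebraicClosure M) Z = (ψ : M →+* AlgebraicClosure M) Z := h2
        rw [e3, ← e2] at e1
        exact e1
      exact AlgHom.ext h6)
  rw [hr] at hs
  obtain ⟨γ, hγ⟩ : ∃ γ : M, γ = algebraMap L M β + (s : M) * Z := ⟨_, rfl⟩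
  obtain ⟨α', hα'⟩ : ∃ α' : M, α' = algebraMap L M α := ⟨_, rfl⟩
  rw [← hγ] at hss
  have hXM : algebraMap ℚ[X] M X = α' := by
    rw [IsScalarTower.algebraMap_apply ℚ[X] L M, hmapX, hα']
  -- the integral structure
  let algZK : Algebra ℤ[X] (FractionRing ℚ[X]) :=
    ((algebraMap ℚ[X] (FractionRing ℚ[X])).comp (mapRingHom (Int.castRingHom ℚ))).toAlgebra
  have hfr : IsFractionRing ℤ[X] (FractionRing ℚ[X]) := isFrac (fun q => rfl)
  let algZM : Algebra ℤ[X] M :=
    ((algebraMap ℚ[X] M).comp (mapRingHom (Int.castRingHom ℚ))).toAlgebra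
  have towZ : IsScalarTower ℤ[X] (FractionRing ℚ[X]) M := IsScalarTower.of_algebraMap_eq (fun q => by
    show algebraMap ℚ[X] M (mapRingHom (Int.castRingHom ℚ) q) =
      algebraMap (FractionRing ℚ[X]) M (algebraMap ℚ[X] (FractionRing ℚ[X])
        (mapRingHom (Int.castRingHom ℚ) q))
    rw [← IsScalarTower.algebraMap_apply ℚ[X] (FractionRing ℚ[X]) M])
  have hevZ : (algebraMap ℤ[X] M : ℤ[X] →+* M) = evf α' := by
    apply Polynomial.ringHom_ext'
    · exact RingHom.ext_int _ _
    · rw [evf_X, ← hXM]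
      show algebraMap ℚ[X] M (mapRingHom (Int.castRingHom ℚ) X) = _
      rw [coe_mapRingHom, Polynomial.map_X]
  have hae : ∀ (u : M) (G : ℤ[X][X]), aeval u G = ev α' u G := by
    intro u G
    rw [aeval_def, hevZ, ev_apply]
  have hintγ : IsIntegral ℤ[X] γ := by
    have i1 : IsIntegral ℤ[X] (algebraMap L M β) := by
      refine ⟨F, hF, ?_⟩
      rw [hevZ, hα']
      have := map_ev (algebraMap L M) α β F
      rw [hev, map_zero] at this
      exact this.symm
    have i2 : IsIntegral ℤ[X] Z := by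
      obtain ⟨W, hW, hW0⟩ := hint
      refine ⟨W, hW, ?_⟩
      rw [hevZ, hα']
      exact hW0
    have i3 : IsIntegral ℤ[X] (s : M) := by
      refine ⟨X - C (s : ℤ[X]), monic_X_sub_C _, ?_⟩
      rw [eval₂_sub, eval₂_X, eval₂_C, map_natCast, sub_self]
    rw [hγ]
    exact i1.add (i3.mul i2)
  obtain ⟨H, hHm, hHd, hH0, hHdvd⟩ := int_model (K := FractionRing ℚ[X]) γ hintγ hss
  rw [hae] at hH0
  obtain ⟨g, hg⟩ : ∃ g : ℚ[X][X], g = H.map (mapRingHom (Int.castRingHom ℚ)) := ⟨_, rfl⟩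
  have hgm : g.Monic := by rw [hg]; exact hHm.map _
  have hgd : g.natDegree = Module.finrank (FractionRing ℚ[X]) M := by
    rw [hg, hHm.natDegree_map, hHd]
  have hg0 : aeval γ g = 0 := by rw [hg, aeval_mapQ α' γ hXM, hH0]
  have htoB : toB ℚ (MvPolynomial.map (Int.castRingHom ℚ) ((toB ℤ).symm H)) = g := by
    rw [toB_map, AlgEquiv.apply_symm_apply, hg]
  have hπ : ∀ w : MvPolynomial (Fin 2) ℚ, MvPolynomial.aeval (R := ℚ) ![γ, α'] w =
      aeval γ (toB ℚ w) := by
    intro w
    have h1 : (MvPolynomial.aeval (R := ℚ) ![γ, α'] : MvPolynomial (Fin 2) ℚ →ₐ[ℚ] _).toRingHom =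
        ((aeval γ : ℚ[X][X] →ₐ[ℚ[X]] M) : ℚ[X][X] →+* M).comp
          (toB ℚ : MvPolynomial (Fin 2) ℚ →+* ℚ[X][X]) := by
      apply MvPolynomial.ringHom_ext
      · intro r
        exact congrArg (fun f : ℚ →+* M => f r) (Subsingleton.elim _ _ :
          ((MvPolynomial.aeval (R := ℚ) ![γ, α'] :
            MvPolynomial (Fin 2) ℚ →ₐ[ℚ] _).toRingHom.comp MvPolynomial.C) =
          (((aeval γ : ℚ[X][X] →ₐ[ℚ[X]] M) : ℚ[X][X] →+* M).comp
          (toB ℚ : MvPolynomial (Fin 2) ℚ →+* ℚ[X][X])).comp MvPolynomial.C)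
      · intro i
        fin_cases i
        · simp
        · simp [hXM]
    exact congrArg (fun f : MvPolynomial (Fin 2) ℚ →+* M => f w) h1
  rw [← hα']
  refine ⟨s, H, hs, hHm, ?_, ?_⟩
  · rw [hHd, hr]
  rw [← hγ]
  refine ⟨hH0, ?_, ?_, ?_, ?_⟩
  · intro W hW
    apply hHdvd
    rw [hae]
    exact hW
  · rw [← MulEquiv.irreducible_iff (toB ℚ), htoB]
    exact model_irr hgm γ hg0 hgd hss
  · intro w
    rw [hπ, model_ker hgm γ hg0 hgd hss, ← htoB]
    exact map_dvd_iff (toB ℚ)
  · intro z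
    obtain ⟨w1, w2, h1, h2⟩ := model_gen γ hss z
    refine ⟨(toB ℚ).symm w1, (toB ℚ).symm w2, ?_, ?_⟩
    · rw [hπ, AlgEquiv.apply_symm_apply]; exact h1
    · rw [hπ, hπ, AlgEquiv.apply_symm_apply, AlgEquiv.apply_symm_apply]; exact h2

end Pool.Agent.H90GC
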