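import Pool.Agent.H90GC.G2
import Pool.Agent.H90GC.G7

set_option autoImplicit false

/-!
Roots of the conjugate equations; specialisation at an integer point; places at infinity.
-/

open Polynomial Finset

namespace Pool.Agent.H90GC

open Pool.Agent.H322R2 Pool.Agent.H90TL

section PP

variable {K : Type} [Field K] {Ω Ω' : Type} [Field Ω] [Field Ω'] {m n : ℕ}

/-- the equation of the cover, for an embedding of the field of coefficients -/
noncomputable def PP (a : Fin m → Fin n → ℤ[X][X]) (ω : Fin n → K) (α β : Ω) (σ : K →+* Ω) : Polynomial Ω :=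
  X ^ m + ∑ j : Fin m, C (∑ i, ev α β (a j i) * σ (ω i)) * X ^ (j : ℕ)

lemma PP_eval (a : Fin m → Fin n → ℤ[X][X]) (ω : Fin n → K) (α β : Ω) (σ : K →+* Ω) (r : Ω) :
    (PP a ω α β σ).eval r = r ^ m + ∑ j : Fin m, (∑ i, ev α β (a j i) * σ (ω i)) * r ^ (j : ℕ) := by
  unfold PP
  rw [eval_add, eval_pow, eval_X, eval_finsetSum]
  congr 1
  apply Finset.sum_congr rfl
  intro j _
  rw [eval_mul, eval_C, eval_pow, eval_X]

lemma PP_aux_deg (c : Fin m → Ω) : (∑ j : Fin m, C (c j) * X ^ (j : ℕ) : Polynomial Ω).degree < m := by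
  exact degree_sum_fin_lt c

lemma PP_monic (a : Fin m → Fin n → ℤ[X][X]) (ω : Fin n → K) (α β : Ω) (σ : K →+* Ω) :
    (PP a ω α β σ).Monic := by
  unfold PP
  exact monic_X_pow_add (PP_aux_deg _)

lemma PP_natDegree (a : Fin m → Fin n → ℤ[X][X]) (ω : Fin n → K) (α β : Ω) (σ : K →+* Ω) :
    (PP a ω α β σ).natDegree = m := by
  unfold PP
  have h := PP_aux_deg (fun j : Fin m => ∑ i, ev α β (a j i) * σ (ω i))
  rw [add_comm, natDegree_add_eq_right_of_degree_lt, natDegree_X_pow]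
  rw [degree_X_pow]
  exact h

lemma PP_map (g : Ω →+* Ω') (a : Fin m → Fin n → ℤ[X][X]) (ω : Fin n → K) (α β : Ω) (σ : K →+* Ω) :
    (PP a ω α β σ).map g = PP a ω (g α) (g β) (g.comp σ) := by
  unfold PP
  rw [Polynomial.map_add, Polynomial.map_pow, Polynomial.map_X, Polynomial.map_sum]
  congr 1
  apply Finset.sum_congr rfl
  intro j _
  rw [Polynomial.map_mul, Polynomial.map_C, Polynomial.map_pow, Polynomial.map_X, map_sum]
  congr 2
  apply Finset.sum_congr rfl
  intro i _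
  rw [map_mul, map_ev]
  rfl

end PP

section TT

variable {K : Type} [Field K] [NumberField K] {Ω : Type} [Field Ω] [CharZero Ω] {m n : ℕ}

open Classical in
/-- the tuples of roots -/
noncomputable def TT (a : Fin m → Fin n → ℤ[X][X]) (ω : Fin n → K) (α β : Ω) :
    Finset ((K →+* Ω) → Ω) := Fintype.piFinset fun σ => (PP a ω α β σ).roots.toFinset

lemma mem_TT {a : Fin m → Fin n → ℤ[X][X]} {ω : Fin n → K} {α β : Ω} {z : (K →+* Ω) → Ω} :
    z ∈ TT a ω α β ↔ ∀ σ, (PP a ω α β σ).eval (z σ) = 0 := by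
  classical
  unfold TT
  rw [Fintype.mem_piFinset]
  apply forall_congr'
  intro σ
  rw [Multiset.mem_toFinset, mem_roots (PP_monic a ω α β σ).ne_zero, IsRoot.def]

lemma card_TT [IsAlgClosed Ω] (a : Fin m → Fin n → ℤ[X][X]) (ω : Fin n → K) (α β : Ω) :
    (TT a ω α β).card ≤ m ^ Module.finrank ℚ K := by
  classical
  unfold TT
  rw [Fintype.card_piFinset]
  calc ∏ σ : K →+* Ω, ((PP a ω α β σ).roots.toFinset).card ≤ ∏ _σ : K →+* Ω, m := by
        apply Finset.prod_le_prod' 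
        intro σ _
        calc _ ≤ Multiset.card (PP a ω α β σ).roots := Multiset.toFinset_card_le _
          _ ≤ (PP a ω α β σ).natDegree := card_roots' _
          _ = m := PP_natDegree a ω α β σ
    _ = m ^ Module.finrank ℚ K := by
        rw [Finset.prod_const, card_univ, NumberField.Embeddings.card K Ω]

lemma act_TT {L : Type} [Field L] [Algebra L Ω] (a : Fin m → Fin n → ℤ[X][X]) (ω : Fin n → K)
    (α β : L) (τ : Ω ≃ₐ[L] Ω) {z : (K →+* Ω) → Ω}
    (hz : z ∈ TT a ω (algebraMap L Ω α) (algebraMap L Ω β)) :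
    act τ.toRingEquiv z ∈ TT a ω (algebraMap L Ω α) (algebraMap L Ω β) := by
  rw [mem_TT] at hz ⊢
  intro σ
  obtain ⟨σ', hσ'⟩ : ∃ σ' : K →+* Ω, σ' = ((τ.toRingEquiv.symm : Ω →+* Ω).comp σ) := ⟨_, rfl⟩
  have h1 : PP a ω (algebraMap L Ω α) (algebraMap L Ω β) σ =
      (PP a ω (algebraMap L Ω α) (algebraMap L Ω β) σ').map (τ : Ω →+* Ω) := by
    rw [PP_map]
    have e1 : (τ : Ω →+* Ω) (algebraMap L Ω α) = algebraMap L Ω α := τ.commutes α
    have e2 : (τ : Ω →+* Ω) (algebraMap L Ω β) = algebraMap L Ω β := τ.commutes β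
    have e3 : (τ : Ω →+* Ω).comp σ' = σ := by
      rw [hσ']
      ext k
      show τ (τ.symm (σ k)) = σ k
      rw [AlgEquiv.apply_symm_apply]
    rw [e1, e2, e3]
  have h2 : act τ.toRingEquiv z σ = (τ : Ω →+* Ω) (z σ') := by
    rw [hσ']; rfl
  rw [h1, h2, eval_map_apply, hz σ', map_zero]

end TT

/-- places at infinity exist -/
lemma exists_place {Ω : Type} [Field Ω] [CharZero Ω] [Algebra ℚ Ω] {α : Ω} (hα : Transcendental ℚ α) :
    ∃ 𝒱 : ValuationSubring Ω, (∀ q : ℚ, (q : Ω) ∈ 𝒱) ∧ α ∉ 𝒱 := by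
  have hα' : Transcendental ℚ α⁻¹ := by
    intro h
    apply hα
    rw [← inv_inv α]
    exact h.inv
  have hα0 : α ≠ 0 := by
    rintro rfl
    exact hα (isAlgebraic_zero)
  obtain ⟨φ, hφ⟩ : ∃ φ : ℚ[X] →+* Ω, φ = (aeval α⁻¹ : ℚ[X] →ₐ[ℚ] Ω).toRingHom := ⟨_, rfl⟩
  have hφa : ∀ q, φ q = aeval α⁻¹ q := by intro q; rw [hφ]; rfl
  have hφinj : ∀ q, φ q = 0 → q = 0 := by
    intro q hq
    by_contra hne
    exact hα' ⟨q, hne, by rw [← hφa]; exact hq⟩
  obtain ⟨J, hJ⟩ : ∃ J : Ideal φ.range, J = (Ideal.span {(X : ℚ[X])}).map φ.rangeRestrict := ⟨_, rfl⟩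
  have hJt : J ≠ ⊤ := by
    intro hJ1
    have h1 : (1 : φ.range) ∈ J := by rw [hJ1]; trivial
    rw [hJ, Ideal.mem_map_iff_of_surjective _ φ.rangeRestrict_surjective] at h1
    obtain ⟨q, hq, hq1⟩ := h1
    have h2 : φ q = 1 := congrArg Subtype.val hq1
    have h3 : φ (1 - q) = 0 := by rw [map_sub, map_one, h2, sub_self]
    have h4 := hφinj _ h3
    have h5 : q = 1 := (sub_eq_zero.1 h4).symm
    rw [h5, Ideal.mem_span_singleton] at hq
    have h6 := isUnit_of_dvd_one hq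
    exact not_isUnit_X h6
  obtain ⟨B, hB1, hB2⟩ := Ideal.image_subset_nonunits_valuationSubring J hJt
  refine ⟨B, fun q => ?_, fun h => ?_⟩
  · have := hB1 (⟨C q, rfl⟩ : φ (C q) ∈ φ.range)
    rw [hφa, aeval_C, eq_ratCast] at this
    exact this
  · have h1 : φ X ∈ B.nonunits := by
      apply hB2
      refine ⟨φ.rangeRestrict X, ?_, rfl⟩
      rw [hJ]
      exact Ideal.mem_map_of_mem _ (Ideal.mem_span_singleton_self _)
    rw [hφa, aeval_X, ValuationSubring.inv_mem_nonunits_iff] at h1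
    rcases h1 with h1 | h1
    · exact hα0 h1
    · exact h1 h

section Spec

variable {K : Type} [Field K] [NumberField K] {Ω : Type} [Field Ω] [CharZero Ω] {m n : ℕ}

omit [NumberField K] [CharZero Ω] in
/-- integers of `K` in the ring of integral elements -/
lemma sigO (α : Ω) (σ : K →+* Ω) : ∃ τ : NumberField.RingOfIntegers K →+* intS α,
    ∀ k, (τ k : Ω) = σ k := by
  refine ⟨(σ.comp (algebraMap (NumberField.RingOfIntegers K) K)).codRestrict (intS α) ?_, fun k => rfl⟩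
  intro k
  apply int_mem_intS
  have h1 : IsIntegral ℤ k := NumberField.RingOfIntegers.isIntegral k
  exact h1.map ((σ.comp (algebraMap (NumberField.RingOfIntegers K) K)).toIntAlgHom)

omit [NumberField K] [CharZero Ω] in
lemma root_mem (a : Fin m → Fin n → ℤ[X][X]) (ω : Fin n → NumberField.RingOfIntegers K) {α β : Ω}
    (hβ : β ∈ intS α) (σ : K →+* Ω) {r : Ω} (hr : (PP a (fun i => (ω i : K)) α β σ).eval r = 0) :
    r ∈ intS α := by
  apply intS_closed
  obtain ⟨σO, hσO⟩ := sigO α σ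
  obtain ⟨W, hW⟩ : ∃ W : (intS α)[X], W = X ^ m + ∑ j : Fin m,
    C (∑ i, ev (⟨α, self_mem_intS α⟩ : intS α) ⟨β, hβ⟩ (a j i) * σO (ω i)) * X ^ (j : ℕ) := ⟨_, rfl⟩
  refine ⟨W, ?_, ?_⟩
  · rw [hW]
    exact monic_X_pow_add (degree_sum_fin_lt _)
  · rw [← hr, PP_eval, hW, eval₂_add, eval₂_pow, eval₂_X, eval₂_finsetSum]
    congr 1
    apply Finset.sum_congr rfl
    intro j _
    rw [eval₂_mul, eval₂_C, eval₂_pow, eval₂_X, map_sum]
    congr 1
    apply Finset.sum_congr rfl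
    intro i _
    rw [map_mul, map_ev]
    have := hσO (ω i)
    rw [← this]
    rfl

/-- a root of the conjugate equation with the right value -/
lemma exists_root [IsAlgClosed Ω] (a : Fin m → Fin n → ℤ[X][X])
    (ω : Fin n → NumberField.RingOfIntegers K) {α β : Ω} (hβ : β ∈ intS α)
    (φ : intS α →+* ℂ) {x y : ℤ} (hx : ∀ h, φ ⟨α, h⟩ = x) (hy : ∀ h, φ ⟨β, h⟩ = y)
    {ζ : NumberField.RingOfIntegers K}
    (hζ : ζ ^ m + ∑ j : Fin m, (∑ i, ((ev x y (a j i) : ℤ) : NumberField.RingOfIntegers K) * ω i) *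
      ζ ^ (j : ℕ) = 0) (σ : K →+* Ω) (σO : NumberField.RingOfIntegers K →+* intS α)
    (hσO : ∀ k, (σO k : Ω) = σ k) :
    ∃ r : intS α, (PP a (fun i => (ω i : K)) α β σ).eval (r : Ω) = 0 ∧ φ r = φ (σO ζ) := by
  classical
  obtain ⟨P, hP⟩ : ∃ P, P = PP a (fun i => (ω i : K)) α β σ := ⟨_, rfl⟩
  have hPm : P.Monic := by rw [hP]; exact PP_monic _ _ _ _ _
  have hs : P.Splits := IsAlgClosed.splits P
  have h1 := hs.eval_eq_prod_roots_of_monic hPm (σ ζ)
  -- lift the roots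
  have hmem : ∀ r ∈ P.roots, r ∈ intS α := by
    intro r hr
    rw [mem_roots hPm.ne_zero, IsRoot.def, hP] at hr
    exact root_mem a ω hβ σ hr
  obtain ⟨rts, hrts⟩ : ∃ rts : Multiset (intS α), rts.map (fun r : intS α => (r : Ω)) = P.roots := by
    refine ⟨P.roots.pmap (fun r h => ⟨r, h⟩) hmem, ?_⟩
    rw [Multiset.map_pmap]
    have h2 := Multiset.pmap_eq_map (fun r => r ∈ intS α) (fun r : Ω => r) P.roots hmem
    rw [Multiset.map_id'] at h2
    exact h2
  obtain ⟨e, he⟩ : ∃ e : intS α, e = σO ζ ^ m + ∑ j : Fin m,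
    (∑ i, ev (⟨α, self_mem_intS α⟩ : intS α) ⟨β, hβ⟩ (a j i) * σO (ω i)) * σO ζ ^ (j : ℕ) := ⟨_, rfl⟩
  have he1 : (e : Ω) = P.eval (σ ζ) := by
    rw [he, hP, PP_eval]
    rw [AddMemClass.coe_add, SubmonoidClass.coe_pow, hσO, AddSubmonoidClass.coe_finsetSum]
    congr 1
    apply Finset.sum_congr rfl
    intro j _
    rw [MulMemClass.coe_mul, SubmonoidClass.coe_pow, hσO, AddSubmonoidClass.coe_finsetSum]
    congr 1
    apply Finset.sum_congr rfl
    intro i _
    rw [MulMemClass.coe_mul, hσO]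
    congr 1
    exact map_ev (intS α).subtype (⟨α, self_mem_intS α⟩ : intS α) ⟨β, hβ⟩ (a j i)
  have he2 : e = (rts.map (fun r => σO ζ - r)).prod := by
    apply Subtype.ext
    rw [he1, h1, ← hrts, Multiset.map_map]
    have h2 := map_multiset_prod (intS α).subtype (rts.map (fun r => σO ζ - r))
    rw [Multiset.map_map] at h2
    refine Eq.trans ?_ h2.symm
    congr 1
    apply Multiset.map_congr rfl
    intro r _
    rw [Function.comp_apply, Function.comp_apply, map_sub]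
    show _ = ((σO ζ : intS α) : Ω) - r
    rw [hσO]
  have he3 : φ e = 0 := by
    rw [he, map_add, map_pow, map_sum]
    have h2 : ∀ j : Fin m, φ ((∑ i, ev (⟨α, self_mem_intS α⟩ : intS α) ⟨β, hβ⟩ (a j i) *
        σO (ω i)) * σO ζ ^ (j : ℕ)) =
        (φ.comp σO) ((∑ i, ((ev x y (a j i) : ℤ) : NumberField.RingOfIntegers K) * ω i) *
          ζ ^ (j : ℕ)) := by
      intro j
      simp only [RingHom.comp_apply, map_mul, map_pow, map_sum]
      congr 1
      apply Finset.sum_congr rfl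
      intro i _
      rw [map_intCast, map_intCast, map_ev, hx, hy]
      congr 1
      have := map_ev (Int.castRingHom ℂ) x y (a j i)
      rw [eq_intCast, eq_intCast, eq_intCast] at this
      exact this.symm
    rw [Finset.sum_congr rfl fun j _ => h2 j, ← map_sum]
    have h3 : φ (σO ζ) ^ m = (φ.comp σO) (ζ ^ m) := by rw [map_pow]; rfl
    rw [h3, ← map_add, hζ, map_zero]
  rw [he2, map_multiset_prod, Multiset.map_map] at he3
  rw [Multiset.prod_eq_zero_iff, Multiset.mem_map] at he3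
  obtain ⟨r, hr1, hr2⟩ := he3
  refine ⟨r, ?_, ?_⟩
  · have h2 : (r : Ω) ∈ P.roots := by
      rw [← hrts]
      exact Multiset.mem_map_of_mem _ hr1
    rw [mem_roots hPm.ne_zero, IsRoot.def, hP] at h2
    exact h2
  · rw [Function.comp_apply, map_sub, sub_eq_zero] at hr2
    exact hr2.symm

/-- the sum over the embeddings is an integer -/
lemma sum_emb [IsAlgClosed Ω] (u : NumberField.RingOfIntegers K) :
    ∃ N : ℤ, ∑ σ : K →+* Ω, σ (u : K) = (N : Ω) := by
  let _ : Algebra ℚ Ω := DivisionRing.toRatAlgebra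
  have h1 : IsIntegral ℤ (Algebra.trace ℚ K (u : K)) :=
    Algebra.isIntegral_trace (NumberField.RingOfIntegers.isIntegral_coe u)
  obtain ⟨N, hN⟩ := IsIntegrallyClosed.isIntegral_iff.1 h1
  refine ⟨N, ?_⟩
  have h2 := trace_eq_sum_embeddings (K := ℚ) (L := K) Ω (x := (u : K))
  rw [← hN] at h2
  have h3 : ∑ σ : K →+* Ω, σ (u : K) = ∑ σ : K →ₐ[ℚ] Ω, σ (u : K) := by
    refine Fintype.sum_equiv (RingHom.equivRatAlgHom K Ω) _ _ ?_
    intro σ
    rfl
  rw [h3, ← h2]
  simp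

end Spec

end Pool.Agent.H90GC
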