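import Pool.Agent.H90GC.G4
import Pool.Agent.H90GC.G6
import Pool.Agent.H90GC.G8

set_option autoImplicit false

/-!
Minimality of the monic equation; size of the plane model.
-/

open Polynomial Finset

namespace Pool.Agent.H90GC

open Pool.Agent.H322R2 Pool.Agent.H90TL

lemma F_min {L : Type} [Field L] [Algebra ℚ L] {α β : L} {F : ℤ[X][X]} (hF : F.Monic)
    (hev : ev α β F = 0) (hα : Transcendental ℚ α)
    (hirr : Irreducible (F.map (mapRingHom (Int.castRingHom ℚ)))) (W : ℤ[X][X])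
    (hW : ev α β W = 0) : F ∣ W := by
  let algL : Algebra ℚ[X] L := (aeval α : ℚ[X] →ₐ[ℚ] L).toRingHom.toAlgebra
  have hmapX : algebraMap ℚ[X] L X = α := by
    show (aeval α : ℚ[X] →ₐ[ℚ] L) X = α
    exact aeval_X α
  have hinj : Function.Injective (algebraMap ℚ[X] L) := transcendental_iff_injective.1 hα
  have : FaithfulSMul ℚ[X] L := (faithfulSMul_iff_algebraMap_injective ℚ[X] L).2 hinj
  have htf : Module.IsTorsionFree ℚ[X] L := inferInstance
  obtain ⟨Fq, hFq⟩ : ∃ Fq : ℚ[X][X], Fq = F.map (mapRingHom (Int.castRingHom ℚ)) := ⟨_, rfl⟩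
  have hFqm : Fq.Monic := by rw [hFq]; exact hF.map _
  have hFq0 : aeval β Fq = 0 := by rw [hFq, aeval_mapQ α β hmapX, hev]
  rw [← hFq] at hirr
  have hint : IsIntegral ℚ[X] β := ⟨Fq, hFqm, hFq0⟩
  have h1 : minpoly ℚ[X] β ∣ Fq := minpoly.isIntegrallyClosed_dvd hint hFq0
  have h2 : minpoly ℚ[X] β = Fq := by
    have h3 : Associated (minpoly ℚ[X] β) Fq := by
      rcases h1 with ⟨q, hq⟩
      rcases hirr.isUnit_or_isUnit hq with h4 | h4
      · exact absurd h4 (minpoly.not_isUnit ℚ[X] β)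
      · rw [hq]
        exact associated_mul_unit_right _ _ h4
    exact eq_of_monic_of_associated (minpoly.monic hint) hFqm h3
  have h3 : Fq ∣ W.map (mapRingHom (Int.castRingHom ℚ)) := by
    rw [← h2]
    apply minpoly.isIntegrallyClosed_dvd hint
    rw [aeval_mapQ α β hmapX, hW]
  rw [hFq] at h3
  exact (map_dvd_map _ (map_injective _ Int.cast_injective) hF).1 h3

section

variable {K : Type} [Field K] [NumberField K] {Ω : Type} [Field Ω] [CharZero Ω] {m n : ℕ}

/-- constants bounding the conjugates of the basis -/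
lemma exists_W (ω : Fin n → NumberField.RingOfIntegers K) : ∃ W : ℕ, 1 ≤ W ∧
    ∀ (i : Fin n) (f : NumberField.RingOfIntegers K →+* ℂ), ‖f (ω i)‖ ≤ W := by
  have h1 : ∀ i, ∃ p : ℤ[X], p.Monic ∧ eval₂ (algebraMap ℤ (NumberField.RingOfIntegers K)) (ω i) p = 0 :=
    fun i => NumberField.RingOfIntegers.isIntegral (ω i)
  choose p hp hp0 using h1
  refine ⟨1 + ∑ i, ⌈1 + pn zn (p i)⌉₊, by omega, ?_⟩
  intro i f
  have h2 : eval₂ (Int.castRingHom ℂ) (f (ω i)) (p i) = 0 := by
    have h3 := hom_eval₂ (p i) (algebraMap ℤ (NumberField.RingOfIntegers K)) f (ω i)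
    rw [hp0, map_zero] at h3
    rw [h3]
    congr 1
    exact RingHom.ext_int _ _
  have h3 := root_int (f (ω i)) (hp i) h2
  have h4 : (⌈1 + pn zn (p i)⌉₊ : ℝ) ≤ ∑ i, (⌈1 + pn zn (p i)⌉₊ : ℝ) :=
    Finset.single_le_sum (f := fun i => (⌈1 + pn zn (p i)⌉₊ : ℝ)) (fun _ _ => Nat.cast_nonneg _)
      (mem_univ i)
  push_cast
  have h5 := Nat.le_ceil (1 + pn zn (p i))
  linarith

variable [IsAlgClosed Ω]

lemma H_bound (hK : Module.finrank ℚ K = n) (ω : Fin n → NumberField.RingOfIntegers K) {W : ℕ}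
    (hW1 : 1 ≤ W) (hW : ∀ (i : Fin n) (f : NumberField.RingOfIntegers K →+* ℂ), ‖f (ω i)‖ ≤ W)
    {D : ℕ} {T : ℝ} (hT : 1 ≤ T) {F : ℤ[X][X]} (hF : F.Monic) (hFX : XD D F)
    (hFT : pn (pn zn) F ≤ T) (a : Fin m → Fin n → ℤ[X][X]) (haD : ∀ j i, (a j i).natDegree ≤ D)
    (haX : ∀ j i, XD D (a j i)) (haT : ∀ j i, pn (pn zn) (a j i) ≤ T) {α β : Ω}
    (hev : ev α β F = 0) {z : (K →+* Ω) → Ω} (hz : z ∈ TT a (fun i => (ω i : K)) α β)
    {s s' S : ℕ} (hs : s ≤ S) (hs' : s' ≤ S) (hS : 1 ≤ S) {H : ℤ[X][X]} (hH : H.Monic)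
    {N : ℕ} (hHN : H.natDegree ≤ N)
    (h0 : ev α (β + s * Zt (tS (fun i => (ω i : K)) s') z) H = 0)
    (hmin : ∀ G, ev α (β + s * Zt (tS (fun i => (ω i : K)) s') z) G = 0 → H ∣ G) :
    XD ((D + D * D) * N) H ∧ pn (pn zn) H ≤ (N + 1) * (((D + D * D) * N + 1) *
      (2 * (((2 + S * (n * (n * S ^ n * W) * (1 + m * n * W * 2 ^ D))) * T) ^ (D + 1))) ^ N) := by
  have hc1 : (1 : ℝ) ≤ (2 + S * (n * (n * S ^ n * W) * (1 + m * n * W * 2 ^ D))) * T := by
    have h1 : (0 : ℝ) ≤ S * (n * (n * S ^ n * W) * (1 + m * n * W * 2 ^ D)) := by positivity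
    nlinarith
  have hβ : β ∈ intS α := ⟨F, hF, hev⟩
  have key := roots_bound hH hHN (E := D + D * D)
    (B := ((2 + S * (n * (n * S ^ n * W) * (1 + m * n * W * 2 ^ D))) * T) ^ (D + 1))
    (one_le_pow₀ hc1) (by
      intro x r hr
      obtain ⟨φ, hφ1, hφ2⟩ := exists_hom hH h0 hmin x r hr
      have hσ : ∀ σ : K →+* Ω, ∃ τ : NumberField.RingOfIntegers K →+* intS α,
        ∀ k, (τ k : Ω) = σ k := fun σ => sigO α σ
      choose σO hσO using hσ
      have hzm : ∀ σ, z σ ∈ intS α := fun σ => root_mem a ω hβ σ (mem_TT.1 hz σ)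
      have hY : (β + s * Zt (tS (fun i => (ω i : K)) s') z) ∈ intS α := ⟨H, hH, h0⟩
      have e1 : (⟨β + s * Zt (tS (fun i => (ω i : K)) s') z, hY⟩ : intS α) =
          ⟨β, hβ⟩ + s * ∑ σ, (∑ i : Fin n, (s' : intS α) ^ (i : ℕ) * σO σ (ω i)) * ⟨z σ, hzm σ⟩ := by
        apply Subtype.ext
        rw [AddMemClass.coe_add, MulMemClass.coe_mul, AddSubmonoidClass.coe_finsetSum]
        have e2 : ((s : intS α) : Ω) = s := map_natCast (intS α).subtype s
        rw [e2]
        show β + s * Zt (tS (fun i => (ω i : K)) s') z = _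
        congr 2
        unfold Zt
        apply Finset.sum_congr rfl
        intro σ _
        rw [MulMemClass.coe_mul, AddSubmonoidClass.coe_finsetSum]
        congr 1
        unfold tS
        rw [map_sum]
        apply Finset.sum_congr rfl
        intro i _
        rw [map_mul, map_pow, map_natCast, MulMemClass.coe_mul, SubmonoidClass.coe_pow, hσO]
        have e3 : ((s' : intS α) : Ω) = s' := map_natCast (intS α).subtype s'
        rw [e3]
      have e4 := hφ2 hY
      rw [e1, map_add, map_mul, map_natCast, map_sum] at e4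
      have e5 : ∀ σ, φ ((∑ i : Fin n, (s' : intS α) ^ (i : ℕ) * σO σ (ω i)) * ⟨z σ, hzm σ⟩) =
          (∑ i : Fin n, (s' : ℂ) ^ (i : ℕ) * φ (σO σ (ω i))) * φ ⟨z σ, hzm σ⟩ := by
        intro σ
        rw [map_mul, map_sum]
        congr 1
        apply Finset.sum_congr rfl
        intro i _
        rw [map_mul, map_pow, map_natCast]
      rw [Finset.sum_congr rfl fun σ _ => e5 σ] at e4
      rw [← e4]
      have hxy : ev x (φ ⟨β, hβ⟩) F = 0 := by
        have h1 := map_ev φ (⟨α, self_mem_intS α⟩ : intS α) ⟨β, hβ⟩ F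
        rw [hφ1] at h1
        rw [← h1]
        have h2 : ev (⟨α, self_mem_intS α⟩ : intS α) ⟨β, hβ⟩ F = 0 := by
          apply Subtype.ext
          have := map_ev (intS α).subtype (⟨α, self_mem_intS α⟩ : intS α) ⟨β, hβ⟩ F
          refine Eq.trans this ?_
          exact hev
        rw [h2, map_zero]
      refine size_Y (J := K →+* Ω) (by rw [NumberField.Embeddings.card K Ω, hK])
        (W := W) (by exact_mod_cast hW1) hT hF hFX hFT a haD haX haT x (φ ⟨β, hβ⟩) hxy
        (fun σ i => φ (σO σ (ω i))) ?_ (fun σ => φ ⟨z σ, hzm σ⟩) ?_ s s' S hs hs' hS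
      · intro σ i
        exact hW i (φ.comp (σO σ))
      · intro σ
        have h1 := mem_TT.1 hz σ
        rw [PP_eval] at h1
        have h2 : (⟨z σ, hzm σ⟩ : intS α) ^ m + ∑ j : Fin m,
            (∑ i, ev (⟨α, self_mem_intS α⟩ : intS α) ⟨β, hβ⟩ (a j i) * σO σ (ω i)) *
              (⟨z σ, hzm σ⟩ : intS α) ^ (j : ℕ) = 0 := by
          apply Subtype.ext
          rw [AddMemClass.coe_add, SubmonoidClass.coe_pow, AddSubmonoidClass.coe_finsetSum]
          refine Eq.trans ?_ h1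
          congr 1
          apply Finset.sum_congr rfl
          intro j _
          rw [MulMemClass.coe_mul, SubmonoidClass.coe_pow, AddSubmonoidClass.coe_finsetSum]
          congr 1
          apply Finset.sum_congr rfl
          intro i _
          rw [MulMemClass.coe_mul, hσO]
          congr 1
          exact map_ev (intS α).subtype (⟨α, self_mem_intS α⟩ : intS α) ⟨β, hβ⟩ (a j i)
        have h3 := congrArg φ h2
        rw [map_zero, map_add, map_pow, map_sum] at h3
        rw [← h3]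
        congr 1
        apply Finset.sum_congr rfl
        intro j _
        rw [map_mul, map_pow, map_sum]
        congr 1
        apply Finset.sum_congr rfl
        intro i _
        rw [map_mul, map_ev, hφ1])
  exact_mod_cast key

end

end Pool.Agent.H90GC
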