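import Mathlib

set_option autoImplicit false

/-!
Elements whose ideal is almost a `p`-th power.
-/

open NumberField Ideal UniqueFactorizationMonoid

namespace Pool.Agent.H90GC

section

variable {K : Type} [Field K] [NumberField K]

lemma units_mod_finite (p : ℕ) (hp : p ≠ 0) :
    Finite ((𝓞 K)ˣ ⧸ (powMonoidHom p : (𝓞 K)ˣ →* (𝓞 K)ˣ).range) := by
  have h1 : Group.FG (𝓞 K)ˣ := Group.fg_iff_monoid_fg.2 inferInstance
  apply CommGroup.finite_of_fg_isMulTorsion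
  intro g
  obtain ⟨u, rfl⟩ := QuotientGroup.mk_surjective g
  rw [isOfFinOrder_iff_pow_eq_one]
  refine ⟨p, Nat.pos_of_ne_zero hp, ?_⟩
  rw [← QuotientGroup.mk_pow, QuotientGroup.eq_one_iff]
  exact ⟨u, rfl⟩

lemma unit_rep (p : ℕ) (hp : p ≠ 0) : ∃ (n : ℕ) (u : Fin n → (𝓞 K)ˣ), ∀ ε : (𝓞 K)ˣ, ∃ i η,
    ε = u i * η ^ p := by
  have h1 := units_mod_finite (K := K) p hp
  obtain ⟨n, ⟨e⟩⟩ := Finite.exists_equiv_fin
    ((𝓞 K)ˣ ⧸ (powMonoidHom p : (𝓞 K)ˣ →* (𝓞 K)ˣ).range)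
  refine ⟨n, fun i => Quotient.out (e.symm i), fun ε => ⟨e (QuotientGroup.mk ε), ?_⟩⟩
  have h2 : (QuotientGroup.mk (Quotient.out (e.symm (e (QuotientGroup.mk ε)))) :
      (𝓞 K)ˣ ⧸ (powMonoidHom p : (𝓞 K)ˣ →* (𝓞 K)ˣ).range) = QuotientGroup.mk ε := by
    rw [Equiv.symm_apply_apply]
    exact Quotient.out_eq' _
  rw [QuotientGroup.eq] at h2
  obtain ⟨η, hη⟩ := h2
  refine ⟨η, ?_⟩
  have h3 : η ^ p = (Quotient.out (e.symm (e (QuotientGroup.mk ε))))⁻¹ * ε := hη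
  rw [h3, mul_inv_cancel_left]

omit [NumberField K] in
lemma int_of_pow {p : ℕ} (hp : p ≠ 0) {x : K} {a : 𝓞 K} (h : x ^ p = a) : ∃ z : 𝓞 K, (z : K) = x := by
  have h1 : IsIntegral ℤ (x ^ p) := by
    rw [h]; exact RingOfIntegers.isIntegral_coe a
  have h2 : IsIntegral ℤ x := IsIntegral.of_pow (Nat.pos_of_ne_zero hp) h1
  exact ⟨⟨x, h2⟩, rfl⟩

/-- finitely many classes modulo `p`-th powers -/
theorem selmer (p : ℕ) (hp : p ≠ 0) (I0 : Ideal (𝓞 K)) (hI0 : I0 ≠ 0) :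
    ∃ Θ : Finset (𝓞 K), (∀ θ ∈ Θ, θ ≠ 0) ∧ ∀ A : 𝓞 K,
      (∃ 𝔟 𝔡 : Ideal (𝓞 K), 𝔡 ∣ I0 ∧ span {A} = 𝔡 * 𝔟 ^ p) → ∃ θ ∈ Θ, ∃ ζ : 𝓞 K, θ * A = ζ ^ p := by
  classical
  obtain ⟨n, u, hu⟩ := unit_rep (K := K) p hp
  let fD : Fintype {x : Ideal (𝓞 K) // x ∣ I0} := fintypeSubtypeDvd I0 hI0
  obtain ⟨Has, hHas⟩ : ∃ Has : 𝓞 K → {x : Ideal (𝓞 K) // x ∣ I0} → ClassGroup (𝓞 K) → Prop,
    Has = fun A (𝔡 : {x : Ideal (𝓞 K) // x ∣ I0}) c => A ≠ 0 ∧ ∃ 𝔟 : nonZeroDivisors (Ideal (𝓞 K)),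
      span {A} = (𝔡 : Ideal (𝓞 K)) * (𝔟 : Ideal (𝓞 K)) ^ p ∧ ClassGroup.mk0 𝔟 = c := ⟨_, rfl⟩
  have hHas0 : ∀ A 𝔡 c, Has A 𝔡 c → A ≠ 0 := by
    intro A 𝔡 c h
    rw [hHas] at h
    exact h.1
  obtain ⟨base, hbase⟩ : ∃ base : {x : Ideal (𝓞 K) // x ∣ I0} → ClassGroup (𝓞 K) → 𝓞 K,
    (∀ 𝔡 c, base 𝔡 c ≠ 0) ∧ ∀ 𝔡 c, (∃ A, Has A 𝔡 c) → Has (base 𝔡 c) 𝔡 c := by
    refine ⟨fun 𝔡 c => if h : ∃ A, Has A 𝔡 c then h.choose else 1, ?_, ?_⟩
    · intro 𝔡 c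
      by_cases h : ∃ A, Has A 𝔡 c
      · simp only [dif_pos h]
        exact hHas0 _ _ _ h.choose_spec
      · simp only [dif_neg h]
        exact one_ne_zero
    · intro 𝔡 c h
      simp only [dif_pos h]
      exact h.choose_spec
  obtain ⟨hbase0, hbase1⟩ := hbase
  obtain ⟨f, hf⟩ : ∃ f : {x : Ideal (𝓞 K) // x ∣ I0} × ClassGroup (𝓞 K) × Fin n → 𝓞 K,
    f = fun j => ((u j.2.2 : 𝓞 K) * base j.1 j.2.1) ^ (p - 1) := ⟨_, rfl⟩
  refine ⟨insert 1 (Finset.univ.image f), ?_, ?_⟩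
  · intro θ hθ
    rw [Finset.mem_insert, Finset.mem_image] at hθ
    rcases hθ with rfl | ⟨j, -, rfl⟩
    · exact one_ne_zero
    · rw [hf]
      exact pow_ne_zero _ (mul_ne_zero (Units.ne_zero _) (hbase0 _ _))
  · rintro A ⟨𝔟, 𝔡, h𝔡, hA⟩
    by_cases hA0 : A = 0
    · refine ⟨1, Finset.mem_insert_self _ _, 0, ?_⟩
      rw [hA0, mul_zero, zero_pow hp]
    have h𝔟0 : 𝔟 ≠ 0 := by
      rintro rfl
      rw [zero_pow hp, mul_zero] at hA
      exact hA0 (Ideal.span_singleton_eq_bot.1 hA)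
    have h𝔡0 : 𝔡 ≠ 0 := by
      rintro rfl
      rw [zero_mul] at hA
      exact hA0 (Ideal.span_singleton_eq_bot.1 hA)
    obtain ⟨𝔟', h𝔟'⟩ : ∃ 𝔟' : nonZeroDivisors (Ideal (𝓞 K)), (𝔟' : Ideal (𝓞 K)) = 𝔟 :=
      ⟨⟨𝔟, mem_nonZeroDivisors_of_ne_zero h𝔟0⟩, rfl⟩
    have hHasA : Has A ⟨𝔡, h𝔡⟩ (ClassGroup.mk0 𝔟') := by
      rw [hHas]
      exact ⟨hA0, 𝔟', by rw [h𝔟']; exact hA, rfl⟩
    have hB := hbase1 _ _ ⟨A, hHasA⟩
    obtain ⟨A0, hA0'⟩ : ∃ A0, A0 = base ⟨𝔡, h𝔡⟩ (ClassGroup.mk0 𝔟') := ⟨_, rfl⟩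
    rw [← hA0', hHas] at hB
    obtain ⟨hA00, 𝔟₀, hA01, hcl⟩ := hB
    obtain ⟨x, y, hx, hy, hxy⟩ := ClassGroup.mk0_eq_mk0_iff.1 hcl
    rw [h𝔟'] at hxy
    -- ideals
    have e1 : span {A * y ^ p} = span {A0 * x ^ p} := by
      have h1 : span {A * y ^ p} = 𝔡 * (span {y} * 𝔟) ^ p := by
        rw [← span_singleton_mul_span_singleton, hA, ← span_singleton_pow, mul_pow]
        ring
      have h2 : span {A0 * x ^ p} = 𝔡 * (span {x} * (𝔟₀ : Ideal (𝓞 K))) ^ p := by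
        rw [← span_singleton_mul_span_singleton, hA01, ← span_singleton_pow, mul_pow]
        ring
      rw [h1, h2, hxy]
    rw [span_singleton_eq_span_singleton] at e1
    obtain ⟨ε, hε⟩ := e1.symm
    obtain ⟨i, η, hη⟩ := hu ε
    refine ⟨f (⟨𝔡, h𝔡⟩, ClassGroup.mk0 𝔟', i), ?_, ?_⟩
    · exact Finset.mem_insert_of_mem (Finset.mem_image_of_mem _ (Finset.mem_univ _))
    · have hxK : (x : K) ≠ 0 := by
        intro h; exact hx (by exact_mod_cast h)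
      have hyK : (y : K) ≠ 0 := by
        intro h; exact hy (by exact_mod_cast h)
      obtain ⟨ζ, hζ⟩ : ∃ ζ : K, ζ = (u i : 𝓞 K) * A0 * (η : 𝓞 K) * x / y := ⟨_, rfl⟩
      have hAK : (A : K) * y ^ p = A0 * x ^ p * ((u i : 𝓞 K) * (η : 𝓞 K) ^ p) := by
        have h1 : A * y ^ p = A0 * x ^ p * ((u i : 𝓞 K) * (η : 𝓞 K) ^ p) := by
          rw [← hε, hη]
          push_cast
          ring
        have h2 := congrArg (fun r : 𝓞 K => (r : K)) h1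
        push_cast at h2
        exact h2
      have hf' : f (⟨𝔡, h𝔡⟩, ClassGroup.mk0 𝔟', i) = ((u i : 𝓞 K) * A0) ^ (p - 1) := by
        rw [hf, hA0']
      have hζp : ζ ^ p = ((f (⟨𝔡, h𝔡⟩, ClassGroup.mk0 𝔟', i) * A : 𝓞 K) : K) := by
        rw [hf', hζ]
        push_cast
        have hyp : (y : K) ^ p ≠ 0 := pow_ne_zero _ hyK
        rw [div_pow, div_eq_iff hyp, mul_assoc _ (A : K), hAK]
        have hpp : ((u i : 𝓞 K) * A0 : K) ^ p = ((u i : 𝓞 K) * A0 : K) ^ (p - 1) *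
            ((u i : 𝓞 K) * A0 : K) := by
          rw [← pow_succ]; congr 1; omega
        rw [mul_pow, mul_pow, hpp]
        ring
      obtain ⟨z, hz⟩ := int_of_pow hp hζp
      refine ⟨z, ?_⟩
      have h3 : ((z ^ p : 𝓞 K) : K) = ((f (⟨𝔡, h𝔡⟩, ClassGroup.mk0 𝔟', i) * A : 𝓞 K) : K) := by
        rw [← hζp, ← hz]; push_cast; rfl
      exact_mod_cast h3.symm

/-- the part free of `p`-th powers -/
lemma pfree (p : ℕ) (hp : 2 ≤ p) : ∀ (k : ℕ) (I : Ideal (𝓞 K)), I ≠ 0 →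
    Multiset.card (normalizedFactors I) ≤ k →
    ∃ 𝔡 𝔟 : Ideal (𝓞 K), I = 𝔡 * 𝔟 ^ p ∧ ∀ 𝔮, Irreducible 𝔮 → ¬ 𝔮 ^ p ∣ 𝔡 := by
  intro k
  induction k with
  | zero =>
    intro I hI hk
    refine ⟨I, 1, by rw [one_pow, mul_one], ?_⟩
    intro 𝔮 h𝔮 hd
    obtain ⟨J, hJ⟩ := hd
    have hJ0 : J ≠ 0 := by rintro rfl; rw [mul_zero] at hJ; exact hI hJ
    rw [hJ, normalizedFactors_mul (pow_ne_zero _ h𝔮.ne_zero) hJ0, normalizedFactors_pow,
      normalizedFactors_irreducible h𝔮, Multiset.card_add, Multiset.card_nsmul,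
      Multiset.card_singleton] at hk
    simp at hk
    omega
  | succ k ih =>
    intro I hI hk
    by_cases h : ∃ 𝔮, Irreducible 𝔮 ∧ 𝔮 ^ p ∣ I
    · obtain ⟨𝔮, h𝔮, J, hJ⟩ := h
      have hJ0 : J ≠ 0 := by rintro rfl; rw [mul_zero] at hJ; exact hI hJ
      have hc : Multiset.card (normalizedFactors J) ≤ k := by
        rw [hJ, normalizedFactors_mul (pow_ne_zero _ h𝔮.ne_zero) hJ0, normalizedFactors_pow,
          normalizedFactors_irreducible h𝔮, Multiset.card_add, Multiset.card_nsmul,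
          Multiset.card_singleton] at hk
        simp at hk
        omega
      obtain ⟨𝔡, 𝔟, h1, h2⟩ := ih J hJ0 hc
      refine ⟨𝔡, 𝔮 * 𝔟, ?_, h2⟩
      rw [hJ, h1, mul_pow]; ring
    · push Not at h
      exact ⟨I, 1, by rw [one_pow, mul_one], h⟩

theorem almost_power {p : ℕ} (hp : p.Prime) {R : Ideal (𝓞 K)} (hR : R ≠ 0) {I J E 𝔢 𝔯 : Ideal (𝓞 K)}
    (hI : I ≠ 0) (h1 : I * J = E ^ p) (h2 : I ⊔ J = 𝔢 ^ p * 𝔯) (h3 : 𝔯 ∣ R) :
    ∃ 𝔟 𝔡 : Ideal (𝓞 K), 𝔡 ∣ R ^ (p - 1) ∧ I = 𝔡 * 𝔟 ^ p := by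
  classical
  have hp2 := hp.two_le
  by_cases hJ : J = 0
  · refine ⟨𝔢, 𝔯, h3.trans (dvd_pow_self _ (by omega)), ?_⟩
    rw [hJ] at h2
    have : I ⊔ (0 : Ideal (𝓞 K)) = I := sup_bot_eq I
    rw [this] at h2
    rw [h2, mul_comm]
  obtain ⟨𝔡, 𝔟, e1, e2⟩ := pfree (K := K) p hp2 _ I hI le_rfl
  refine ⟨𝔟, 𝔡, ?_, e1⟩
  have h𝔡 : 𝔡 ≠ 0 := by rintro rfl; rw [zero_mul] at e1; exact hI e1
  have h𝔟 : 𝔟 ≠ 0 := by
    rintro rfl
    rw [zero_pow (by omega), mul_zero] at e1; exact hI e1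
  have hS : I ⊔ J ≠ 0 := fun h => hI (by
    have : I ≤ I ⊔ J := le_sup_left
    rw [h] at this
    exact le_bot_iff.1 this)
  have h𝔢 : 𝔢 ≠ 0 := by
    rintro rfl
    rw [zero_pow (by omega), zero_mul] at h2; exact hS h2
  have h𝔯 : 𝔯 ≠ 0 := by rintro rfl; rw [mul_zero] at h2; exact hS h2
  have hE : E ≠ 0 := by
    rintro rfl
    rw [zero_pow (by omega)] at h1
    rcases mul_eq_zero.1 h1 with h | h
    · exact hI h
    · exact hJ h
  rw [dvd_iff_normalizedFactors_le_normalizedFactors h𝔡 (pow_ne_zero _ hR), Multiset.le_iff_count]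
  intro 𝔮
  by_cases h𝔮 : 𝔮 ∈ normalizedFactors 𝔡
  swap
  · rw [Multiset.count_eq_zero_of_notMem h𝔮]; exact Nat.zero_le _
  have h𝔮i : Irreducible 𝔮 := irreducible_of_normalized_factor 𝔮 h𝔮
  obtain ⟨δ, hδ⟩ : ∃ δ, δ = Multiset.count 𝔮 (normalizedFactors 𝔡) := ⟨_, rfl⟩
  have hδ1 : 1 ≤ δ := by rw [hδ]; exact Multiset.one_le_count_iff_mem.2 h𝔮
  have hδp : δ < p := by
    by_contra hcon
    push Not at hcon
    apply e2 𝔮 h𝔮i
    rw [dvd_iff_normalizedFactors_le_normalizedFactors (pow_ne_zero _ h𝔮i.ne_zero) h𝔡,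
      normalizedFactors_pow, normalizedFactors_irreducible h𝔮i, Multiset.nsmul_singleton,
      normalize_eq, ← Multiset.le_count_iff_replicate_le]
    omega
  rw [normalizedFactors_pow, Multiset.count_nsmul, ← hδ]
  obtain ⟨ρ, hρ⟩ : ∃ ρ, ρ = Multiset.count 𝔮 (normalizedFactors R) := ⟨_, rfl⟩
  rw [← hρ]
  have hρ1 : 1 ≤ ρ := by
    by_contra hcon
    have hρ0 : ρ = 0 := by omega
    have hr0 : Multiset.count 𝔮 (normalizedFactors 𝔯) = 0 := by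
      have := (Multiset.le_iff_count.1 ((dvd_iff_normalizedFactors_le_normalizedFactors h𝔯 hR).1 h3)) 𝔮
      omega
    have hmin : min (Multiset.count 𝔮 (normalizedFactors I)) (Multiset.count 𝔮 (normalizedFactors J)) =
        p * Multiset.count 𝔮 (normalizedFactors 𝔢) := by
      have e3 : Multiset.count 𝔮 (normalizedFactors (I ⊔ J)) =
          min (Multiset.count 𝔮 (normalizedFactors I)) (Multiset.count 𝔮 (normalizedFactors J)) := by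
        rw [Ideal.sup_eq_prod_inf_factors hI hJ, normalizedFactors_prod_inter_eq_inter,
          Multiset.count_inter]
      rw [← e3, h2, normalizedFactors_mul (pow_ne_zero _ h𝔢) h𝔯, Multiset.count_add,
        normalizedFactors_pow, Multiset.count_nsmul, hr0, add_zero]
    have hsum : Multiset.count 𝔮 (normalizedFactors I) + Multiset.count 𝔮 (normalizedFactors J) =
        p * Multiset.count 𝔮 (normalizedFactors E) := by
      rw [← Multiset.count_add, ← normalizedFactors_mul hI hJ, h1, normalizedFactors_pow,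
        Multiset.count_nsmul]
    have hIa : Multiset.count 𝔮 (normalizedFactors I) =
        δ + p * Multiset.count 𝔮 (normalizedFactors 𝔟) := by
      rw [e1, normalizedFactors_mul h𝔡 (pow_ne_zero _ h𝔟), Multiset.count_add,
        normalizedFactors_pow, Multiset.count_nsmul, hδ]
    have hdvd : p ∣ Multiset.count 𝔮 (normalizedFactors I) := by
      rcases le_total (Multiset.count 𝔮 (normalizedFactors I))
        (Multiset.count 𝔮 (normalizedFactors J)) with h | h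
      · rw [min_eq_left h] at hmin
        exact ⟨_, hmin⟩
      · rw [min_eq_right h] at hmin
        have h4 : p ∣ Multiset.count 𝔮 (normalizedFactors I) +
          Multiset.count 𝔮 (normalizedFactors J) := ⟨_, hsum⟩
        exact (Nat.dvd_add_left ⟨_, hmin⟩).1 h4
    rw [hIa] at hdvd
    have h5 : p ∣ δ := (Nat.dvd_add_left ⟨_, rfl⟩).1 hdvd
    have := Nat.le_of_dvd (by omega) h5
    omega
  calc δ ≤ (p - 1) * 1 := by omega
    _ ≤ (p - 1) * ρ := Nat.mul_le_mul_left _ hρ1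

end

end Pool.Agent.H90GC
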