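import Pool.Agent.H90GC.H6

set_option autoImplicit false

/-!
Integer points on curves with a function whose divisor is a multiple.
-/

open Polynomial Finset NumberField

namespace Pool.Agent.H90GC

open Pool.Agent.H322R2 Pool.Agent.H90TL Pool.Agent.Y910.G

/-- the real vector of the twisted cover -/
noncomputable def tv {K : Type} [Field K] [NumberField K] {n : ℕ}
    (ω : Module.Basis (Fin n) ℤ (𝓞 K)) (p : ℕ) (θ : 𝓞 K) (ℓ : Fin n → ℝ) : Fin p → Fin n → ℝ :=
  fun j i => if (j : ℕ) = 0 then -∑ j', ((ω.repr (θ * ω j') i : ℤ) : ℝ) * ℓ j' else 0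

theorem torsion (m n d : ℕ) (hm : 3 ≤ m) (hn : 1 ≤ n) : ∃ E : ℕ,
    ∀ (K : Type) [Field K] [NumberField K] (ω : Module.Basis (Fin n) ℤ (𝓞 K)) (R : 𝓞 K), R ≠ 0 →
    ∃ (c0 : ℕ) (c : (Fin n → ℝ) → ℕ),
    ∀ (F : MvPolynomial (Fin 2) ℤ) (A : Fin n → MvPolynomial (Fin 2) ℤ)
      (J : Ideal (MvPolynomial (Fin 2) (𝓞 K))) (k : ℕ),
    F.totalDegree ≤ d → (∀ j, (A j).totalDegree ≤ d) →
    Irreducible (MvPolynomial.map (Int.castRingHom ℚ) F) →
    J ^ m ≤ Ideal.span {asm (fun j => ω j) A, MvPolynomial.map (Int.castRingHom (𝓞 K)) F} →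
    MvPolynomial.C R ^ k * asm (fun j => ω j) A ∈
      J ^ m ⊔ Ideal.span {MvPolynomial.map (Int.castRingHom (𝓞 K)) F} →
    ∀ (L : Type) [Field L] [Algebra ℚ L] (π : MvPolynomial (Fin 2) ℚ →ₐ[ℚ] L),
    (∀ w, π w = 0 ↔ MvPolynomial.map (Int.castRingHom ℚ) F ∣ w) →
    (∀ z : L, ∃ w1 w2, π w2 ≠ 0 ∧ π w2 * z = π w1) →
    (∀ (Ω : Type) [Field Ω] (i : L →+* Ω) (σ : K →+* Ω) (q : ℕ) (κ : K) (w : Ω), q.Prime → q ∣ m →
      κ ≠ 0 → w ∈ Subfield.closure (Set.range i ∪ Set.range σ) →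
      w ^ q ≠ σ κ * ∑ j, i (π (MvPolynomial.map (Int.castRingHom ℚ) (A j))) * σ (ω j)) →
    ∀ (V : ValuationSubring L) (υ : L),
    (∀ V' : ValuationSubring L, (∀ q : ℚ, algebraMap ℚ L q ∈ V') →
      ¬ (π (MvPolynomial.X 0) ∈ V' ∧ π (MvPolynomial.X 1) ∈ V') → V' = V) →
    υ ≠ 0 →
    ∀ h : ∀ j, π (MvPolynomial.map (Int.castRingHom ℚ) (A j)) / υ ^ m ∈ V,
    (∀ (ψ : IsLocalRing.ResidueField V →+* ℝ) (τ : K →+* ℂ),
      ∑ j, ((ψ (IsLocalRing.residue V ⟨_, h j⟩) : ℝ) : ℂ) * τ (ω j) ≠ 0) →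
    ∀ x y : ℤ, MvPolynomial.eval ![x, y] F = 0 →
      (x.natAbs ≤ (c0 * (len F + ∑ j, len (A j))) ^ E ∧
        y.natAbs ≤ (c0 * (len F + ∑ j, len (A j))) ^ E) ∨
      ∃ ψ : IsLocalRing.ResidueField V →+* ℝ,
        x.natAbs ≤ (c (fun j => ψ (IsLocalRing.residue V ⟨_, h j⟩)) *
          (len F + ∑ j, len (A j))) ^ E ∧
        y.natAbs ≤ (c (fun j => ψ (IsLocalRing.residue V ⟨_, h j⟩)) *
          (len F + ∑ j, len (A j))) ^ E := by
  obtain ⟨p, hp3, hpm, hpp⟩ := exists_order hm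
  obtain ⟨E, hE⟩ := gen d p n hp3 hn
  refine ⟨E, ?_⟩
  intro K _ _ ω R hR
  have hK : Module.finrank ℚ K = n := by
    rw [Module.finrank_eq_card_basis (ω.localizationLocalization ℚ (nonZeroDivisors ℤ) K),
      Fintype.card_fin]
  have hω : ∀ k : K, ∃ q : Fin n → ℚ, k = ∑ i, (q i : K) * ((ω i : 𝓞 K) : K) := by
    intro k
    refine ⟨fun i => (ω.localizationLocalization ℚ (nonZeroDivisors ℤ) K).repr k i, ?_⟩
    conv_lhs => rw [← (ω.localizationLocalization ℚ (nonZeroDivisors ℤ) K).sum_repr k]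
    apply Finset.sum_congr rfl
    intro i _
    rw [Module.Basis.localizationLocalization_apply, Algebra.smul_def]
    rfl
  obtain ⟨cg, cg0, hcg0, hcg, hgen⟩ := hE K (fun i => ω i) hK hω
  have hI0 : Ideal.span {R} ^ (p - 1) ≠ 0 := by
    apply pow_ne_zero
    rw [Ne, Ideal.zero_eq_bot, Ideal.span_singleton_eq_bot]
    exact hR
  obtain ⟨Θ, hΘ0, hΘ⟩ := selmer (K := K) p (by omega) (Ideal.span {R} ^ (p - 1)) hI0
  refine ⟨∑ θ ∈ Θ, cg0 * (mu ω θ + 1), fun ℓ => ∑ θ ∈ Θ, cg (tv ω p θ ℓ) * (mu ω θ + 1), ?_⟩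
  intro F A J k hFd hAd hirr hJ1 hJ2 L _ _ π hker hsurj hnt V υ hV hυ h hne x y hxy
  have hchL : CharZero L := charZero_of_injective_algebraMap (algebraMap ℚ L).injective
  obtain ⟨N, hN⟩ : ∃ N, N = len F + ∑ j, len (A j) := ⟨_, rfl⟩
  rw [← hN]
  obtain ⟨θ, hθ, ζ, hζ⟩ := hΘ _ (value_power (p := p) (by omega) hpm hR hJ1 hJ2 hxy)
  have hθ0 := hΘ0 θ hθ
  have hp0 : 0 < p := by omega
  obtain ⟨m1, hm1⟩ := hpm
  -- the coefficients of the cover
  obtain ⟨a, ha⟩ : ∃ a : Fin p → Fin n → MvPolynomial (Fin 2) ℤ,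
    a = fun (j : Fin p) (i : Fin n) => if (j : ℕ) = 0 then tw ω θ A i else 0 := ⟨_, rfl⟩
  have hsum : ∀ {S : Type} [CommRing S] (b : Fin p → Fin n → S) (b0 : Fin n → S),
      (∀ j i, b j i = if (j : ℕ) = 0 then b0 i else 0) → ∀ (v : Fin n → S) (r : S),
      ∑ j : Fin p, (∑ i, b j i * v i) * r ^ (j : ℕ) = ∑ i, b0 i * v i := by
    intro S _ b b0 hb v r
    rw [Finset.sum_eq_single (⟨0, hp0⟩ : Fin p)]
    · rw [pow_zero, mul_one]
      apply Finset.sum_congr rfl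
      intro i _
      rw [hb, if_pos rfl]
    · intro j _ hj
      have hj0 : (j : ℕ) ≠ 0 := fun h0 => hj (Fin.ext h0)
      rw [Finset.sum_eq_zero, zero_mul]
      intro i _
      rw [hb, if_neg hj0, zero_mul]
    · intro hcon
      exact absurd (Finset.mem_univ _) hcon
  have haA : ∀ {S : Type} [CommRing S] (g : MvPolynomial (Fin 2) ℤ →+* S) (j : Fin p) (i : Fin n),
      g (a j i) = if (j : ℕ) = 0 then -∑ j', ((ω.repr (θ * ω j') i : ℤ) : S) * g (A j') else 0 := by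
    intro S _ g j i
    rw [ha]
    by_cases hj : (j : ℕ) = 0
    · rw [if_pos hj]
      show g (if (j : ℕ) = 0 then tw ω θ A i else 0) = _
      rw [if_pos hj, map_tw]
    · rw [if_neg hj]
      show g (if (j : ℕ) = 0 then tw ω θ A i else 0) = _
      rw [if_neg hj, map_zero]
  have haπ : ∀ (j : Fin p) (i : Fin n), π (MvPolynomial.map (Int.castRingHom ℚ) (a j i)) =
      if (j : ℕ) = 0 then -∑ j', ((ω.repr (θ * ω j') i : ℤ) : L) *
        π (MvPolynomial.map (Int.castRingHom ℚ) (A j')) else 0 := by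
    intro j i
    exact haA ((π : MvPolynomial (Fin 2) ℚ →+* L).comp (MvPolynomial.map (Int.castRingHom ℚ))) j i
  have hυm : (υ ^ m1) ^ p = υ ^ m := by rw [hm1, ← pow_mul, mul_comm]
  have had : ∀ j i, (a j i).totalDegree ≤ d := by
    intro j i
    rw [ha]
    show (if (j : ℕ) = 0 then tw ω θ A i else 0 : MvPolynomial (Fin 2) ℤ).totalDegree ≤ d
    split_ifs
    · exact tw_deg ω θ hAd i
    · rw [MvPolynomial.totalDegree_zero]; exact Nat.zero_le _
  have haT : ∀ j i, len (a j i) ≤ (mu ω θ + 1) * N := by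
    intro j i
    rw [ha]
    show len (if (j : ℕ) = 0 then tw ω θ A i else 0 : MvPolynomial (Fin 2) ℤ) ≤ _
    split_ifs
    · refine (len_tw ω θ A i).trans (Nat.mul_le_mul (by omega) (by omega))
    · simp [len]
  have hFT : len F ≤ (mu ω θ + 1) * N := by
    calc len F ≤ 1 * N := by omega
      _ ≤ _ := Nat.mul_le_mul_right _ (by omega)
  -- the residues
  have hquot : ∀ (j : Fin p) (i : Fin n), π (MvPolynomial.map (Int.castRingHom ℚ) (a j i)) /
      (υ ^ m1) ^ (p - (j : ℕ)) = if (j : ℕ) = 0 then -∑ j', ((ω.repr (θ * ω j') i : ℤ) : L) *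
        (π (MvPolynomial.map (Int.castRingHom ℚ) (A j')) / υ ^ m) else 0 := by
    intro j i
    rw [haπ]
    split_ifs with hj
    · rw [hj, Nat.sub_zero, hυm, neg_div, Finset.sum_div]
      congr 1
      apply Finset.sum_congr rfl
      intro j' _
      rw [mul_div_assoc]
    · rw [zero_div]
  have hres : ∀ (ψ : IsLocalRing.ResidueField V →+* ℝ)
      (h' : ∀ j i, π (MvPolynomial.map (Int.castRingHom ℚ) (a j i)) /
        (υ ^ m1) ^ (p - (j : ℕ)) ∈ V) (j : Fin p) (i : Fin n),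
      ψ (IsLocalRing.residue V ⟨_, h' j i⟩) =
        tv ω p θ (fun j => ψ (IsLocalRing.residue V ⟨_, h j⟩)) j i := by
    intro ψ h' j i
    rw [tv]
    have h1 : (⟨_, h' j i⟩ : V) = if (j : ℕ) = 0 then
        -∑ j', ((ω.repr (θ * ω j') i : ℤ) : V) * ⟨_, h j'⟩ else 0 := by
      apply Subtype.ext
      show π (MvPolynomial.map (Int.castRingHom ℚ) (a j i)) / (υ ^ m1) ^ (p - (j : ℕ)) = _
      rw [hquot]
      split_ifs with hj
      · push_cast
        rfl
      · rfl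
    rw [h1]
    split_ifs with hj
    · rw [map_neg, map_neg, map_sum, map_sum]
      congr 1
      apply Finset.sum_congr rfl
      intro j' _
      rw [map_mul, map_mul, map_intCast, map_intCast]
    · rw [map_zero, map_zero]
  have happ := hgen ((mu ω θ + 1) * N) F a hFd had hFT haT hirr L π hker hsurj (by
      -- transitivity
      have halg : Algebra.IsAlgebraic ℚ K := inferInstance
      obtain ⟨σ₀⟩ : Nonempty (K →+* AlgebraicClosure L) := by
        let _ : Algebra ℚ (AlgebraicClosure L) :=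
          ((algebraMap L (AlgebraicClosure L)).comp (algebraMap ℚ L)).toAlgebra
        exact ⟨(IsAlgClosed.lift : K →ₐ[ℚ] AlgebraicClosure L).toRingHom⟩
      refine ⟨σ₀, fun r₀ hr₀ => ?_⟩
      obtain ⟨v, hv⟩ : ∃ v : Fin n → AlgebraicClosure L, v = fun j =>
        algebraMap L (AlgebraicClosure L) (π (MvPolynomial.map (Int.castRingHom ℚ) (A j))) :=
        ⟨_, rfl⟩
      obtain ⟨b, hb⟩ : ∃ b, b = σ₀ θ * ∑ j, v j * σ₀ (ω j) := ⟨_, rfl⟩
      have h1 : ∑ j : Fin p, (∑ i, algebraMap L (AlgebraicClosure L)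
          (π (MvPolynomial.map (Int.castRingHom ℚ) (a j i))) * σ₀ (ω i)) * r₀ ^ (j : ℕ) = -b := by
        rw [hsum (fun j i => algebraMap L (AlgebraicClosure L)
          (π (MvPolynomial.map (Int.castRingHom ℚ) (a j i))))
          (fun i => -∑ j', ((ω.repr (θ * ω j') i : ℤ) : AlgebraicClosure L) * v j')
          (fun j i => ?_) (fun i => σ₀ (ω i)) r₀, hb]
        · exact tw_sum ω θ (σ₀.comp (algebraMap (𝓞 K) K)) v
        · rw [hv]
          exact haA ((algebraMap L (AlgebraicClosure L)).comp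
            ((π : MvPolynomial (Fin 2) ℚ →+* L).comp (MvPolynomial.map (Int.castRingHom ℚ)))) j i
      rw [h1] at hr₀
      have hb0 : b ∈ IntermediateField.adjoin L (Set.range σ₀) := by
        rw [hb]
        have hσ : ∀ k, σ₀ k ∈ IntermediateField.adjoin L (Set.range σ₀) := fun k =>
          IntermediateField.subset_adjoin L _ ⟨k, rfl⟩
        refine mul_mem (hσ _) (sum_mem fun j _ => mul_mem ?_ (hσ _))
        rw [hv]
        exact IntermediateField.algebraMap_mem _ _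
      refine order_trans hpp σ₀ hb0 (fun q hq hqp w hw => ?_) (by linear_combination hr₀)
      have hqm : q ∣ m := hqp.trans ⟨m1, hm1⟩
      have hθK : (θ : K) ≠ 0 := RingOfIntegers.coe_ne_zero_iff.2 hθ0
      have h2 := hnt (AlgebraicClosure L) (algebraMap L (AlgebraicClosure L)) σ₀ q (θ : K) w hq hqm
        hθK hw
      have h3 := hnt (AlgebraicClosure L) (algebraMap L (AlgebraicClosure L)) σ₀ q (-(θ : K)) w hq
        hqm (neg_ne_zero.2 hθK) hw
      rw [hb, hv]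
      refine ⟨h2, ?_⟩
      rw [map_neg, neg_mul] at h3
      exact h3)
    (fun V' υ' => V' = V ∧ υ' = υ ^ m1)
    (by
      intro V' h1 h2
      obtain rfl := hV V' h1 h2
      refine ⟨υ ^ m1, pow_ne_zero _ hυ, ⟨rfl, rfl⟩, fun j i => ?_⟩
      rw [hquot]
      split_ifs
      · refine neg_mem (sum_mem fun j' _ => mul_mem (intCast_mem _ _) (h j'))
      · exact zero_mem _)
    (by
      intro V' υ' ψ h' hG τ
      obtain ⟨rfl, rfl⟩ := hG
      have h1 : (∑ j : Fin p, C (∑ i, ((ψ (IsLocalRing.residue V' ⟨_, h' j i⟩) : ℝ) : ℂ) *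
          τ (ω i : K)) * X ^ (j : ℕ) : ℂ[X]) =
          -C (τ θ * ∑ j, ((ψ (IsLocalRing.residue V' ⟨_, h j⟩) : ℝ) : ℂ) * τ (ω j)) := by
        have h2 : (∑ j : Fin p, C (∑ i, ((ψ (IsLocalRing.residue V' ⟨_, h' j i⟩) : ℝ) : ℂ) *
            τ (ω i : K)) * X ^ (j : ℕ) : ℂ[X]) =
            ∑ j : Fin p, (∑ i, C ((ψ (IsLocalRing.residue V' ⟨_, h' j i⟩) : ℝ) : ℂ) *
              C (τ (ω i : K))) * X ^ (j : ℕ) := by
          apply Finset.sum_congr rfl
          intro j _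
          rw [map_sum]
          congr 1
          apply Finset.sum_congr rfl
          intro i _
          rw [C_mul]
        rw [h2, hsum (fun j i => C ((ψ (IsLocalRing.residue V' ⟨_, h' j i⟩) : ℝ) : ℂ))
          (fun i => -∑ j', ((ω.repr (θ * ω j') i : ℤ) : ℂ[X]) *
            C ((ψ (IsLocalRing.residue V' ⟨_, h j'⟩) : ℝ) : ℂ))
          (fun j i => ?_) (fun i => C (τ (ω i : K))) X]
        · have h3 := tw_sum ω θ ((C : ℂ →+* ℂ[X]).comp (τ.comp (algebraMap (𝓞 K) K)))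
            (fun j => C ((ψ (IsLocalRing.residue V' ⟨_, h j⟩) : ℝ) : ℂ))
          refine h3.trans ?_
          rw [C_mul, map_sum]
          simp only [C_mul]
          rfl
        · rw [hres ψ h' j i, tv]
          split_ifs
          · push_cast
            rw [map_neg, map_sum]
            congr 1
            apply Finset.sum_congr rfl
            intro j' _
            rw [C_mul]
            simp
          · simp
      rw [h1, ← sub_eq_add_neg]
      apply separable_X_pow_sub_C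
      · exact_mod_cast hp0.ne'
      · refine mul_ne_zero ?_ (hne ψ τ)
        rw [Ne, map_eq_zero]
        exact RingOfIntegers.coe_ne_zero_iff.2 hθ0)
    x y ζ hxy (by
      rw [hsum (fun j i => ((MvPolynomial.eval ![x, y] (a j i) : ℤ) : 𝓞 K))
        (fun i => -∑ j', ((ω.repr (θ * ω j') i : ℤ) : 𝓞 K) *
          ((MvPolynomial.eval ![x, y] (A j') : ℤ) : 𝓞 K)) (fun j i => ?_) (fun i => ω i) ζ]
      · rw [← hζ]
        have h3 := tw_sum ω θ (RingHom.id (𝓞 K))
          (fun j => ((MvPolynomial.eval ![x, y] (A j) : ℤ) : 𝓞 K))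
        simp only [RingHom.id_apply] at h3
        rw [h3]
        exact add_neg_cancel _
      · exact haA ((Int.castRingHom (𝓞 K)).comp (MvPolynomial.eval ![x, y])) j i)
  have hmono : ∀ (s t v : ℕ), s * (mu ω θ + 1) ≤ t → v ≤ (s * ((mu ω θ + 1) * N)) ^ E →
      v ≤ (t * N) ^ E := by
    intro s t v h1 h2
    refine h2.trans (Nat.pow_le_pow_left ?_ _)
    rw [← mul_assoc]
    exact Nat.mul_le_mul_right _ h1
  rcases happ with h1 | ⟨V', υ', ψ, h', -, -, -, hG, h1, h2⟩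
  · left
    have h3 : cg0 * (mu ω θ + 1) ≤ ∑ θ ∈ Θ, cg0 * (mu ω θ + 1) :=
      Finset.single_le_sum (f := fun θ => cg0 * (mu ω θ + 1)) (fun _ _ => Nat.zero_le _) hθ
    exact ⟨hmono _ _ _ h3 h1.1, hmono _ _ _ h3 h1.2⟩
  · right
    obtain ⟨rfl, rfl⟩ := hG
    refine ⟨ψ, ?_⟩
    have h4 : (fun j i => ψ (IsLocalRing.residue V' ⟨_, h' j i⟩)) =
        tv ω p θ (fun j => ψ (IsLocalRing.residue V' ⟨_, h j⟩)) := by
      funext j i
      exact hres ψ h' j i
    rw [h4] at h1 h2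
    have h3 : cg (tv ω p θ (fun j => ψ (IsLocalRing.residue V' ⟨_, h j⟩))) * (mu ω θ + 1) ≤
        ∑ θ ∈ Θ, cg (tv ω p θ (fun j => ψ (IsLocalRing.residue V' ⟨_, h j⟩))) * (mu ω θ + 1) :=
      Finset.single_le_sum (f := fun θ => cg (tv ω p θ
        (fun j => ψ (IsLocalRing.residue V' ⟨_, h j⟩))) * (mu ω θ + 1))
        (fun _ _ => Nat.zero_le _) hθ
    exact ⟨hmono _ _ _ h3 h1, hmono _ _ _ h3 h2⟩

end Pool.Agent.H90GC
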