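import Pool.Agent.H90GC.H9
import Pool.Agent.H90GC.H7

set_option autoImplicit false

/-!
Integer points on curves with a function whose divisor is a multiple: one constant for each real
number field.
-/

open Polynomial Finset NumberField IntermediateField

namespace Pool.Agent.H90GC

open Pool.Agent.H322R2 Pool.Agent.H90TL Pool.Agent.Y910.G

theorem torsionCore (m n : ℕ) (hm : 3 ≤ m) (hn : 1 ≤ n) :
    ∃ (E κ : ℕ → ℕ) (ck : ℕ → IntermediateField ℚ ℝ → ℕ) (p : ℕ), (∀ d, 1 ≤ κ d) ∧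
    (∀ d M, κ d ≤ ck d M) ∧ 3 ≤ p ∧ p ∣ m ∧ ∀ (K : Type) [Field K] [NumberField K]
      (ω : Module.Basis (Fin n) ℤ (𝓞 K)),
    ∀ d W : ℕ, 1 ≤ W → (∀ (i : Fin n) (f : 𝓞 K →+* ℂ), ‖f (ω i)‖ ≤ W) →
    ∀ (F : MvPolynomial (Fin 2) ℤ) (A : Fin n → MvPolynomial (Fin 2) ℤ),
    F.totalDegree ≤ d → (∀ j, (A j).totalDegree ≤ d) →
    Irreducible (MvPolynomial.map (Int.castRingHom ℚ) F) →
    ∀ (L : Type) [Field L] [Algebra ℚ L] (π : MvPolynomial (Fin 2) ℚ →ₐ[ℚ] L),
    (∀ w, π w = 0 ↔ MvPolynomial.map (Int.castRingHom ℚ) F ∣ w) →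
    (∀ z : L, ∃ w1 w2, π w2 ≠ 0 ∧ π w2 * z = π w1) →
    (∀ (Ω : Type) [Field Ω] (i : L →+* Ω) (σ : K →+* Ω) (q : ℕ) (κ : K) (w : Ω), q.Prime → q ∣ m →
      κ ≠ 0 → w ∈ Subfield.closure (Set.range i ∪ Set.range σ) →
      w ^ q ≠ σ κ * ∑ j, i (π (MvPolynomial.map (Int.castRingHom ℚ) (A j))) * σ (ω j)) →
    ∀ (θ ζ : 𝓞 K) (x y : ℤ), θ ≠ 0 → MvPolynomial.eval ![x, y] F = 0 →
    θ * ∑ j, ((MvPolynomial.eval ![x, y] (A j) : ℤ) : 𝓞 K) * ω j = ζ ^ p →
    ∀ (V : ValuationSubring L) (υ : L),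
    (∀ V' : ValuationSubring L, (∀ q : ℚ, algebraMap ℚ L q ∈ V') →
      ¬ (π (MvPolynomial.X 0) ∈ V' ∧ π (MvPolynomial.X 1) ∈ V') → V' = V) →
    υ ≠ 0 →
    ∀ h : ∀ j, π (MvPolynomial.map (Int.castRingHom ℚ) (A j)) / υ ^ m ∈ V,
    (∀ (ψ : IsLocalRing.ResidueField V →+* ℝ) (τ : K →+* ℂ),
      ∑ j, ((ψ (IsLocalRing.residue V ⟨_, h j⟩) : ℝ) : ℂ) * τ (ω j) ≠ 0) →
      (x.natAbs ≤ (κ d * (W * ((mu ω θ + 1) * (len F + ∑ j, len (A j))))) ^ E d ∧
        y.natAbs ≤ (κ d * (W * ((mu ω θ + 1) * (len F + ∑ j, len (A j))))) ^ E d) ∨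
      ∃ (ψ : IsLocalRing.ResidueField V →+* ℝ) (s : ℕ) (ϖ : ℝ) (w : (K →+* ℂ) → ℂ), s ≤ κ d ∧
        3 ≤ Module.finrank ℚ ℚ⟮ϖ⟯ ∧
        (∀ τ : K →+* ℂ, w τ ^ p = τ θ *
          ∑ j, ((ψ (IsLocalRing.residue V ⟨_, h j⟩) : ℝ) : ℂ) * τ (ω j)) ∧
        (ϖ : ℂ) = ∑ τ : K →+* ℂ, τ (∑ i : Fin n, (s : K) ^ (i : ℕ) * ω i) * w τ ∧
        x.natAbs ≤ (ck d ℚ⟮ϖ⟯ * (W * ((mu ω θ + 1) * (len F + ∑ j, len (A j))))) ^ E d ∧
        y.natAbs ≤ (ck d ℚ⟮ϖ⟯ * (W * ((mu ω θ + 1) * (len F + ∑ j, len (A j))))) ^ E d := by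
  obtain ⟨p, hp3, hpm, hpp⟩ := exists_order hm
  choose E κ ck hκ1 hκck hE using fun d => genU d p n hp3 hn
  refine ⟨E, κ, ck, p, hκ1, hκck, hp3, hpm, ?_⟩
  intro K _ _ ω
  have hK : Module.finrank ℚ K = n := by
    rw [Module.finrank_eq_card_basis (ω.localizationLocalization ℚ (nonZeroDivisors ℤ) K),
      Fintype.card_fin]
  have hω : ∀ k : K, ∃ q : Fin n → ℚ, k = ∑ i, (q i : K) * ((ω i : 𝓞 K) : K) := by
    intro k
    refine ⟨fun i => (ω.localizationLocalization ℚ (nonZeroDivisors ℤ) K).repr k i, ?_⟩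
    conv_lhs => rw [← (ω.localizationLocalization ℚ (nonZeroDivisors ℤ) K).sum_repr k]
    apply Finset.sum_congr rfl
    intro i _
    rw [Module.Basis.localizationLocalization_apply, Algebra.smul_def]
    rfl
  intro d W hW1 hW F A hFd hAd hirr L _ _ π hker hsurj hnt θ ζ x y hθ0 hxy hζ V υ hV hυ h hne
  have hgen := hE d K (fun i => ω i) hK hω W hW1 hW
  have hchL : CharZero L := charZero_of_injective_algebraMap (algebraMap ℚ L).injective
  obtain ⟨N, hN⟩ : ∃ N, N = len F + ∑ j, len (A j) := ⟨_, rfl⟩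
  rw [← hN]
  have hp0 : 0 < p := by omega
  obtain ⟨m1, hm1⟩ := hpm
  -- the coefficients of the cover
  obtain ⟨a, ha⟩ : ∃ a : Fin p → Fin n → MvPolynomial (Fin 2) ℤ,
    a = fun (j : Fin p) (i : Fin n) => if (j : ℕ) = 0 then tw ω θ A i else 0 := ⟨_, rfl⟩
  have hsum : ∀ {S : Type} [CommRing S] (b : Fin p → Fin n → S) (b0 : Fin n → S),
      (∀ j i, b j i = if (j : ℕ) = 0 then b0 i else 0) → ∀ (v : Fin n → S) (r : S),
      ∑ j : Fin p, (∑ i, b j i * v i) * r ^ (j : ℕ) = ∑ i, b0 i * v i := by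
    intro S _ b b0 hb v r
    rw [Finset.sum_eq_single (⟨0, hp0⟩ : Fin p)]
    · rw [pow_zero, mul_one]
      apply Finset.sum_congr rfl
      intro i _
      rw [hb, if_pos rfl]
    · intro j _ hj
      have hj0 : (j : ℕ) ≠ 0 := fun h0 => hj (Fin.ext h0)
      rw [Finset.sum_eq_zero, zero_mul]
      intro i _
      rw [hb, if_neg hj0, zero_mul]
    · intro hcon
      exact absurd (Finset.mem_univ _) hcon
  have haA : ∀ {S : Type} [CommRing S] (g : MvPolynomial (Fin 2) ℤ →+* S) (j : Fin p) (i : Fin n),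
      g (a j i) = if (j : ℕ) = 0 then -∑ j', ((ω.repr (θ * ω j') i : ℤ) : S) * g (A j') else 0 := by
    intro S _ g j i
    rw [ha]
    by_cases hj : (j : ℕ) = 0
    · rw [if_pos hj]
      show g (if (j : ℕ) = 0 then tw ω θ A i else 0) = _
      rw [if_pos hj, map_tw]
    · rw [if_neg hj]
      show g (if (j : ℕ) = 0 then tw ω θ A i else 0) = _
      rw [if_neg hj, map_zero]
  have haπ : ∀ (j : Fin p) (i : Fin n), π (MvPolynomial.map (Int.castRingHom ℚ) (a j i)) =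
      if (j : ℕ) = 0 then -∑ j', ((ω.repr (θ * ω j') i : ℤ) : L) *
        π (MvPolynomial.map (Int.castRingHom ℚ) (A j')) else 0 := by
    intro j i
    exact haA ((π : MvPolynomial (Fin 2) ℚ →+* L).comp (MvPolynomial.map (Int.castRingHom ℚ))) j i
  have hυm : (υ ^ m1) ^ p = υ ^ m := by rw [hm1, ← pow_mul, mul_comm]
  have had : ∀ j i, (a j i).totalDegree ≤ d := by
    intro j i
    rw [ha]
    show (if (j : ℕ) = 0 then tw ω θ A i else 0 : MvPolynomial (Fin 2) ℤ).totalDegree ≤ d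
    split_ifs
    · exact tw_deg ω θ hAd i
    · rw [MvPolynomial.totalDegree_zero]; exact Nat.zero_le _
  have haT : ∀ j i, len (a j i) ≤ (mu ω θ + 1) * N := by
    intro j i
    rw [ha]
    show len (if (j : ℕ) = 0 then tw ω θ A i else 0 : MvPolynomial (Fin 2) ℤ) ≤ _
    split_ifs
    · refine (len_tw ω θ A i).trans (Nat.mul_le_mul (by omega) (by omega))
    · simp [len]
  have hFT : len F ≤ (mu ω θ + 1) * N := by
    calc len F ≤ 1 * N := by omega
      _ ≤ _ := Nat.mul_le_mul_right _ (by omega)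
  -- the residues
  have hquot : ∀ (j : Fin p) (i : Fin n), π (MvPolynomial.map (Int.castRingHom ℚ) (a j i)) /
      (υ ^ m1) ^ (p - (j : ℕ)) = if (j : ℕ) = 0 then -∑ j', ((ω.repr (θ * ω j') i : ℤ) : L) *
        (π (MvPolynomial.map (Int.castRingHom ℚ) (A j')) / υ ^ m) else 0 := by
    intro j i
    rw [haπ]
    split_ifs with hj
    · rw [hj, Nat.sub_zero, hυm, neg_div, Finset.sum_div]
      congr 1
      apply Finset.sum_congr rfl
      intro j' _
      rw [mul_div_assoc]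
    · rw [zero_div]
  have hres : ∀ (ψ : IsLocalRing.ResidueField V →+* ℝ)
      (h' : ∀ j i, π (MvPolynomial.map (Int.castRingHom ℚ) (a j i)) /
        (υ ^ m1) ^ (p - (j : ℕ)) ∈ V) (j : Fin p) (i : Fin n),
      ψ (IsLocalRing.residue V ⟨_, h' j i⟩) =
        tv ω p θ (fun j => ψ (IsLocalRing.residue V ⟨_, h j⟩)) j i := by
    intro ψ h' j i
    rw [tv]
    have h1 : (⟨_, h' j i⟩ : V) = if (j : ℕ) = 0 then
        -∑ j', ((ω.repr (θ * ω j') i : ℤ) : V) * ⟨_, h j'⟩ else 0 := by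
      apply Subtype.ext
      show π (MvPolynomial.map (Int.castRingHom ℚ) (a j i)) / (υ ^ m1) ^ (p - (j : ℕ)) = _
      rw [hquot]
      split_ifs with hj
      · push_cast
        rfl
      · rfl
    rw [h1]
    split_ifs with hj
    · rw [map_neg, map_neg, map_sum, map_sum]
      congr 1
      apply Finset.sum_congr rfl
      intro j' _
      rw [map_mul, map_mul, map_intCast, map_intCast]
    · rw [map_zero, map_zero]
  have happ := hgen ((mu ω θ + 1) * N) F a hFd had hFT haT hirr L π hker hsurj (by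
      -- transitivity
      have halg : Algebra.IsAlgebraic ℚ K := inferInstance
      obtain ⟨σ₀⟩ : Nonempty (K →+* AlgebraicClosure L) := by
        let _ : Algebra ℚ (AlgebraicClosure L) :=
          ((algebraMap L (AlgebraicClosure L)).comp (algebraMap ℚ L)).toAlgebra
        exact ⟨(IsAlgClosed.lift : K →ₐ[ℚ] AlgebraicClosure L).toRingHom⟩
      refine ⟨σ₀, fun r₀ hr₀ => ?_⟩
      obtain ⟨v, hv⟩ : ∃ v : Fin n → AlgebraicClosure L, v = fun j =>
        algebraMap L (AlgebraicClosure L) (π (MvPolynomial.map (Int.castRingHom ℚ) (A j))) :=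
        ⟨_, rfl⟩
      obtain ⟨b, hb⟩ : ∃ b, b = σ₀ θ * ∑ j, v j * σ₀ (ω j) := ⟨_, rfl⟩
      have h1 : ∑ j : Fin p, (∑ i, algebraMap L (AlgebraicClosure L)
          (π (MvPolynomial.map (Int.castRingHom ℚ) (a j i))) * σ₀ (ω i)) * r₀ ^ (j : ℕ) = -b := by
        rw [hsum (fun j i => algebraMap L (AlgebraicClosure L)
          (π (MvPolynomial.map (Int.castRingHom ℚ) (a j i))))
          (fun i => -∑ j', ((ω.repr (θ * ω j') i : ℤ) : AlgebraicClosure L) * v j')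
          (fun j i => ?_) (fun i => σ₀ (ω i)) r₀, hb]
        · exact tw_sum ω θ (σ₀.comp (algebraMap (𝓞 K) K)) v
        · rw [hv]
          exact haA ((algebraMap L (AlgebraicClosure L)).comp
            ((π : MvPolynomial (Fin 2) ℚ →+* L).comp (MvPolynomial.map (Int.castRingHom ℚ)))) j i
      rw [h1] at hr₀
      have hb0 : b ∈ IntermediateField.adjoin L (Set.range σ₀) := by
        rw [hb]
        have hσ : ∀ k, σ₀ k ∈ IntermediateField.adjoin L (Set.range σ₀) := fun k =>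
          IntermediateField.subset_adjoin L _ ⟨k, rfl⟩
        refine mul_mem (hσ _) (sum_mem fun j _ => mul_mem ?_ (hσ _))
        rw [hv]
        exact IntermediateField.algebraMap_mem _ _
      refine order_trans hpp σ₀ hb0 (fun q hq hqp w hw => ?_) (by linear_combination hr₀)
      have hqm : q ∣ m := hqp.trans ⟨m1, hm1⟩
      have hθK : (θ : K) ≠ 0 := RingOfIntegers.coe_ne_zero_iff.2 hθ0
      have h2 := hnt (AlgebraicClosure L) (algebraMap L (AlgebraicClosure L)) σ₀ q (θ : K) w hq hqm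
        hθK hw
      have h3 := hnt (AlgebraicClosure L) (algebraMap L (AlgebraicClosure L)) σ₀ q (-(θ : K)) w hq
        hqm (neg_ne_zero.2 hθK) hw
      rw [hb, hv]
      refine ⟨h2, ?_⟩
      rw [map_neg, neg_mul] at h3
      exact h3)
    (fun V' υ' => V' = V ∧ υ' = υ ^ m1)
    (by
      intro V' h1 h2
      obtain rfl := hV V' h1 h2
      refine ⟨υ ^ m1, pow_ne_zero _ hυ, ⟨rfl, rfl⟩, fun j i => ?_⟩
      rw [hquot]
      split_ifs
      · refine neg_mem (sum_mem fun j' _ => mul_mem (intCast_mem _ _) (h j'))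
      · exact zero_mem _)
    (by
      intro V' υ' ψ h' hG τ
      obtain ⟨rfl, rfl⟩ := hG
      have h1 : (∑ j : Fin p, C (∑ i, ((ψ (IsLocalRing.residue V' ⟨_, h' j i⟩) : ℝ) : ℂ) *
          τ (ω i : K)) * X ^ (j : ℕ) : ℂ[X]) =
          -C (τ θ * ∑ j, ((ψ (IsLocalRing.residue V' ⟨_, h j⟩) : ℝ) : ℂ) * τ (ω j)) := by
        have h2 : (∑ j : Fin p, C (∑ i, ((ψ (IsLocalRing.residue V' ⟨_, h' j i⟩) : ℝ) : ℂ) *
            τ (ω i : K)) * X ^ (j : ℕ) : ℂ[X]) =
            ∑ j : Fin p, (∑ i, C ((ψ (IsLocalRing.residue V' ⟨_, h' j i⟩) : ℝ) : ℂ) *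
              C (τ (ω i : K))) * X ^ (j : ℕ) := by
          apply Finset.sum_congr rfl
          intro j _
          rw [map_sum]
          congr 1
          apply Finset.sum_congr rfl
          intro i _
          rw [C_mul]
        rw [h2, hsum (fun j i => C ((ψ (IsLocalRing.residue V' ⟨_, h' j i⟩) : ℝ) : ℂ))
          (fun i => -∑ j', ((ω.repr (θ * ω j') i : ℤ) : ℂ[X]) *
            C ((ψ (IsLocalRing.residue V' ⟨_, h j'⟩) : ℝ) : ℂ))
          (fun j i => ?_) (fun i => C (τ (ω i : K))) X]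
        · have h3 := tw_sum ω θ ((C : ℂ →+* ℂ[X]).comp (τ.comp (algebraMap (𝓞 K) K)))
            (fun j => C ((ψ (IsLocalRing.residue V' ⟨_, h j⟩) : ℝ) : ℂ))
          refine h3.trans ?_
          rw [C_mul, map_sum]
          simp only [C_mul]
          rfl
        · rw [hres ψ h' j i, tv]
          split_ifs
          · push_cast
            rw [map_neg, map_sum]
            congr 1
            apply Finset.sum_congr rfl
            intro j' _
            rw [C_mul]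
            simp
          · simp
      rw [h1, ← sub_eq_add_neg]
      apply separable_X_pow_sub_C
      · exact_mod_cast hp0.ne'
      · refine mul_ne_zero ?_ (hne ψ τ)
        rw [Ne, map_eq_zero]
        exact RingOfIntegers.coe_ne_zero_iff.2 hθ0)
    x y ζ hxy (by
      rw [hsum (fun j i => ((MvPolynomial.eval ![x, y] (a j i) : ℤ) : 𝓞 K))
        (fun i => -∑ j', ((ω.repr (θ * ω j') i : ℤ) : 𝓞 K) *
          ((MvPolynomial.eval ![x, y] (A j') : ℤ) : 𝓞 K)) (fun j i => ?_) (fun i => ω i) ζ]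
      · rw [← hζ]
        have h3 := tw_sum ω θ (RingHom.id (𝓞 K))
          (fun j => ((MvPolynomial.eval ![x, y] (A j) : ℤ) : 𝓞 K))
        simp only [RingHom.id_apply] at h3
        rw [h3]
        exact add_neg_cancel _
      · exact haA ((Int.castRingHom (𝓞 K)).comp (MvPolynomial.eval ![x, y])) j i)
  rcases happ with h1 | ⟨V', υ', ψ, h', s, ϖ, -, -, -, hG, hsκ, hϖ, hfr, h1, h2⟩
  · left
    exact h1
  · right
    obtain ⟨rfl, rfl⟩ := hG
    obtain ⟨w, hw1, hw2⟩ := hϖ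
    refine ⟨ψ, s, ϖ, w, hsκ, hfr, ?_, hw2, h1, h2⟩
    intro τ
    have h3 := hw1 τ
    rw [hsum (fun j i => ((ψ (IsLocalRing.residue V' ⟨_, h' j i⟩) : ℝ) : ℂ))
      (fun i => -∑ j', ((ω.repr (θ * ω j') i : ℤ) : ℂ) *
        ((ψ (IsLocalRing.residue V' ⟨_, h j'⟩) : ℝ) : ℂ)) (fun j i => ?_)
      (fun i => τ (ω i : K)) (w τ)] at h3
    · have h4 := tw_sum ω θ (τ.comp (algebraMap (𝓞 K) K))
        (fun j => ((ψ (IsLocalRing.residue V' ⟨_, h j⟩) : ℝ) : ℂ))
      have h5 : ∑ i, (-∑ j', ((ω.repr (θ * ω j') i : ℤ) : ℂ) *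
          ((ψ (IsLocalRing.residue V' ⟨_, h j'⟩) : ℝ) : ℂ)) * τ (ω i : K) =
          -(τ θ * ∑ j, ((ψ (IsLocalRing.residue V' ⟨_, h j⟩) : ℝ) : ℂ) * τ (ω j)) := h4
      rw [h5] at h3
      linear_combination h3
    · rw [hres ψ h' j i, tv]
      split_ifs
      · push_cast
        rfl
      · simp

end Pool.Agent.H90GC
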