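import Pool.Agent.H90GC.H1

set_option autoImplicit false

/-!
Elements whose ideal is almost a `p`-th power: small representatives.
-/

open NumberField Ideal UniqueFactorizationMonoid

namespace Pool.Agent.H90GC

section

variable {K : Type} [Field K] [NumberField K]

lemma ext_emb (τ : 𝓞 K →+* ℂ) : ∃ σ : K →+* ℂ, ∀ z : 𝓞 K, σ z = τ z := by
  have h1 : Function.Injective τ := by
    rw [RingHom.injective_iff_ker_eq_bot, ← absNorm_eq_zero_iff]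
    have h2 := absNorm_mem (RingHom.ker τ)
    rw [RingHom.mem_ker, map_natCast] at h2
    exact_mod_cast h2
  refine ⟨IsFractionRing.lift h1, fun z => ?_⟩
  exact IsFractionRing.lift_algebraMap h1 z

open mixedEmbedding mixedEmbedding.fundamentalCone in
lemma unit_balance : ∃ c : ℝ, 1 ≤ c ∧ ∀ α : 𝓞 K, α ≠ 0 → ∃ η : (𝓞 K)ˣ, ∀ τ : 𝓞 K →+* ℂ,
    ‖τ (η * α)‖ ≤ c * (absNorm (span {α}) : ℝ) := by
  classical
  have hbd := isBounded_normLeOne K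
  obtain ⟨B, hB⟩ := (isBounded_iff_forall_norm_le (E := mixedSpace K)).1 hbd
  refine ⟨max B 1, le_max_right _ _, ?_⟩
  intro α hα
  have hN : mixedEmbedding.norm (mixedEmbedding K (α : K)) = (absNorm (span {α}) : ℝ) := by
    rw [mixedEmbedding.norm_eq_norm, absNorm_span_singleton]
    have h1 : Algebra.norm ℚ (α : K) = ((Algebra.norm ℤ α : ℤ) : ℚ) :=
      (Algebra.coe_norm_int α).symm
    rw [h1]
    push_cast
    rw [Nat.cast_natAbs]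
    push_cast
    rfl
  have hN1 : 1 ≤ absNorm (span {α}) := by
    rw [Nat.one_le_iff_ne_zero, Ne, absNorm_eq_zero_iff, span_singleton_eq_bot]
    exact hα
  have hN0 : (0 : ℝ) < (absNorm (span {α}) : ℝ) := by exact_mod_cast hN1
  obtain ⟨u, hu⟩ := exists_unit_smul_mem (K := K) (x := mixedEmbedding K (α : K)) (by
    rw [hN]; exact hN0.ne')
  refine ⟨u, ?_⟩
  have hz : u • mixedEmbedding K (α : K) = mixedEmbedding K (((u : 𝓞 K) * α : 𝓞 K) : K) := by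
    rw [unitSMul_smul, ← map_mul]
    simp
  obtain ⟨t, ht⟩ : ∃ t : ℝ, t = (absNorm (span {α}) : ℝ)⁻¹ := ⟨_, rfl⟩
  have ht0 : 0 < t := by rw [ht]; exact inv_pos.2 hN0
  have ht1 : t ≤ 1 := by
    rw [ht]
    apply inv_le_one_of_one_le₀
    exact_mod_cast hN1
  have hmem : t • (u • mixedEmbedding K (α : K)) ∈ normLeOne K := by
    rw [mem_normLeOne]
    refine ⟨smul_mem_of_mem hu ht0.ne', ?_⟩
    rw [mixedEmbedding.norm_smul, unitSMul_smul, map_mul, norm_unit, one_mul, hN,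
      abs_of_pos ht0]
    calc t ^ Module.finrank ℚ K * (absNorm (span {α}) : ℝ) ≤ t ^ 1 * (absNorm (span {α}) : ℝ) := by
          apply mul_le_mul_of_nonneg_right _ hN0.le
          exact pow_le_pow_of_le_one ht0.le ht1 Module.finrank_pos
      _ = 1 := by rw [pow_one, ht, inv_mul_cancel₀ hN0.ne']
  have hb := hB _ hmem
  intro τ
  obtain ⟨σ, hσ⟩ := ext_emb τ
  have h1 : ‖τ ((u : 𝓞 K) * α)‖ = InfinitePlace.mk σ (((u : 𝓞 K) * α : 𝓞 K) : K) := by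
    rw [InfinitePlace.apply, hσ]
  have h2 : normAtPlace (InfinitePlace.mk σ) (t • (u • mixedEmbedding K (α : K))) ≤ B := by
    refine le_trans ?_ hb
    rw [norm_eq_sup'_normAtPlace]
    exact Finset.le_sup' (fun w => normAtPlace w (t • (u • mixedEmbedding K (α : K))))
      (Finset.mem_univ _)
  rw [normAtPlace_smul, hz, normAtPlace_apply, ← h1, abs_of_pos ht0, ht] at h2
  have h3 : ‖τ ((u : 𝓞 K) * α)‖ ≤ B * (absNorm (span {α}) : ℝ) := by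
    rw [inv_mul_le_iff₀ hN0] at h2
    linarith
  refine h3.trans ?_
  exact mul_le_mul_of_nonneg_right (le_max_left _ _) hN0.le

/-- small representatives of the classes modulo `p`-th powers -/
theorem selmerQ (p : ℕ) (hp : p ≠ 0) : ∃ c : ℝ, 1 ≤ c ∧ ∀ (A : 𝓞 K) (𝔟 𝔡 : Ideal (𝓞 K)),
    A ≠ 0 → span {A} = 𝔡 * 𝔟 ^ p → ∃ θ ζ : 𝓞 K, θ ≠ 0 ∧ θ * A = ζ ^ p ∧
      ∀ τ : 𝓞 K →+* ℂ, ‖τ θ‖ ≤ (c * (absNorm 𝔡 : ℝ)) ^ (p - 1) := by
  classical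
  obtain ⟨n, u, hu⟩ := unit_rep (K := K) p hp
  obtain ⟨c1, hc1, hbal⟩ := unit_balance (K := K)
  obtain ⟨r, hr⟩ : ∃ r : ClassGroup (𝓞 K) → nonZeroDivisors (Ideal (𝓞 K)),
      ∀ c, ClassGroup.mk0 (r c) = c := by
    choose r hr using ClassGroup.mk0_surjective (R := 𝓞 K)
    exact ⟨r, hr⟩
  obtain ⟨M, hM⟩ : ∃ M : ℝ, M = 1 + ∑ c, ((absNorm (r c : Ideal (𝓞 K)) ^ p : ℕ) : ℝ) := ⟨_, rfl⟩
  obtain ⟨U, hU⟩ : ∃ U : ℝ, U = 1 + ∑ i, ∑ σ : K →+* ℂ, ‖σ (((u i)⁻¹ : (𝓞 K)ˣ) : 𝓞 K)‖ :=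
    ⟨_, rfl⟩
  have hM1 : 1 ≤ M := by
    rw [hM]
    have : 0 ≤ ∑ c, ((absNorm (r c : Ideal (𝓞 K)) ^ p : ℕ) : ℝ) :=
      Finset.sum_nonneg fun _ _ => Nat.cast_nonneg _
    linarith
  have hU1 : 1 ≤ U := by
    rw [hU]
    have : 0 ≤ ∑ i, ∑ σ : K →+* ℂ, ‖σ (((u i)⁻¹ : (𝓞 K)ˣ) : 𝓞 K)‖ :=
      Finset.sum_nonneg fun _ _ => Finset.sum_nonneg fun _ _ => norm_nonneg _
    linarith
  have hMc : ∀ c, (absNorm (r c : Ideal (𝓞 K)) : ℝ) ^ p ≤ M := by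
    intro c
    have h1 : ((absNorm (r c : Ideal (𝓞 K)) ^ p : ℕ) : ℝ) ≤
        ∑ c, ((absNorm (r c : Ideal (𝓞 K)) ^ p : ℕ) : ℝ) :=
      Finset.single_le_sum (f := fun c => ((absNorm (r c : Ideal (𝓞 K)) ^ p : ℕ) : ℝ))
        (fun _ _ => Nat.cast_nonneg _) (Finset.mem_univ c)
    rw [Nat.cast_pow] at h1
    rw [hM]
    linarith
  have hUi : ∀ i (τ : 𝓞 K →+* ℂ), ‖τ (((u i)⁻¹ : (𝓞 K)ˣ) : 𝓞 K)‖ ≤ U := by
    intro i τ
    obtain ⟨σ, hσ⟩ := ext_emb τ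
    have h1 : ‖σ (((u i)⁻¹ : (𝓞 K)ˣ) : 𝓞 K)‖ ≤ ∑ σ : K →+* ℂ, ‖σ (((u i)⁻¹ : (𝓞 K)ˣ) : 𝓞 K)‖ :=
      Finset.single_le_sum (f := fun σ : K →+* ℂ => ‖σ (((u i)⁻¹ : (𝓞 K)ˣ) : 𝓞 K)‖)
        (fun _ _ => norm_nonneg _) (Finset.mem_univ σ)
    have h2 : ∑ σ : K →+* ℂ, ‖σ (((u i)⁻¹ : (𝓞 K)ˣ) : 𝓞 K)‖ ≤
        ∑ i, ∑ σ : K →+* ℂ, ‖σ (((u i)⁻¹ : (𝓞 K)ˣ) : 𝓞 K)‖ :=
      Finset.single_le_sum (f := fun i => ∑ σ : K →+* ℂ, ‖σ (((u i)⁻¹ : (𝓞 K)ˣ) : 𝓞 K)‖)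
        (fun _ _ => Finset.sum_nonneg fun _ _ => norm_nonneg _) (Finset.mem_univ i)
    rw [← hσ, hU]
    linarith
  refine ⟨U * (c1 * M), ?_, ?_⟩
  · nlinarith [mul_le_mul hc1 hM1 zero_le_one (by linarith : (0 : ℝ) ≤ c1)]
  intro A 𝔟 𝔡 hA0 hA
  have h𝔟0 : 𝔟 ≠ 0 := by
    rintro rfl
    rw [zero_pow hp, mul_zero] at hA
    exact hA0 (Ideal.span_singleton_eq_bot.1 hA)
  have h𝔡0 : 𝔡 ≠ 0 := by
    rintro rfl
    rw [zero_mul] at hA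
    exact hA0 (Ideal.span_singleton_eq_bot.1 hA)
  obtain ⟨𝔟', h𝔟'⟩ : ∃ 𝔟' : nonZeroDivisors (Ideal (𝓞 K)), (𝔟' : Ideal (𝓞 K)) = 𝔟 :=
    ⟨⟨𝔟, mem_nonZeroDivisors_of_ne_zero h𝔟0⟩, rfl⟩
  obtain ⟨𝔠, h𝔠⟩ : ∃ 𝔠 : nonZeroDivisors (Ideal (𝓞 K)), 𝔠 = r (ClassGroup.mk0 𝔟') := ⟨_, rfl⟩
  have hcl : ClassGroup.mk0 𝔟' = ClassGroup.mk0 𝔠 := by rw [h𝔠, hr]
  obtain ⟨x, y, hx, hy, hxy⟩ := ClassGroup.mk0_eq_mk0_iff.1 hcl
  rw [h𝔟'] at hxy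
  -- the element `A0`
  have e1 : span {A * x ^ p} = 𝔡 * (span {y} * (𝔠 : Ideal (𝓞 K))) ^ p := by
    rw [← span_singleton_mul_span_singleton, hA, ← span_singleton_pow, ← hxy, mul_pow]
    ring
  have e2 : span {y ^ p} ∣ span {A * x ^ p} := by
    rw [e1, mul_pow, span_singleton_pow]
    exact Dvd.intro_left _ (by ring : 𝔡 * (𝔠 : Ideal (𝓞 K)) ^ p * span {y ^ p} = _)
  rw [Ideal.dvd_iff_le, span_singleton_le_span_singleton] at e2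
  obtain ⟨A0, hA0'⟩ := e2
  have hyp : y ^ p ≠ 0 := pow_ne_zero _ hy
  have hA00 : A0 ≠ 0 := by
    rintro rfl
    rw [mul_zero] at hA0'
    exact (mul_ne_zero hA0 (pow_ne_zero _ hx)) hA0'
  have e3 : span {A0} = 𝔡 * (𝔠 : Ideal (𝓞 K)) ^ p := by
    rw [hA0', ← span_singleton_mul_span_singleton, mul_pow, span_singleton_pow] at e1
    have h1 : span {y ^ p} ≠ 0 := by
      rw [Ne, zero_eq_bot, span_singleton_eq_bot]; exact hyp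
    apply mul_left_cancel₀ h1
    rw [e1]
    ring
  have e4 : (absNorm (span {A0}) : ℝ) ≤ M * (absNorm 𝔡 : ℝ) := by
    rw [e3, map_mul, map_pow]
    push_cast
    rw [mul_comm]
    exact mul_le_mul_of_nonneg_right (by rw [h𝔠]; exact hMc _) (Nat.cast_nonneg _)
  obtain ⟨η0, hη0⟩ := hbal A0 hA00
  obtain ⟨i, η, hη⟩ := hu η0
  obtain ⟨A1, hA1⟩ : ∃ A1 : 𝓞 K, A1 = (η : 𝓞 K) ^ p * A0 := ⟨_, rfl⟩
  have hA1' : A1 = (((u i)⁻¹ : (𝓞 K)ˣ) : 𝓞 K) * ((η0 : 𝓞 K) * A0) := by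
    rw [hA1, hη]
    push_cast
    rw [← mul_assoc, ← mul_assoc, Units.inv_mul, one_mul]
  have hA10 : A1 ≠ 0 := by
    rw [hA1]
    exact mul_ne_zero (pow_ne_zero _ (Units.ne_zero _)) hA00
  have hb1 : ∀ τ : 𝓞 K →+* ℂ, ‖τ A1‖ ≤ U * (c1 * M) * (absNorm 𝔡 : ℝ) := by
    intro τ
    rw [hA1', map_mul, norm_mul]
    calc _ ≤ U * (c1 * (M * (absNorm 𝔡 : ℝ))) := by
          apply mul_le_mul (hUi i τ) _ (norm_nonneg _) (by linarith)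
          refine (hη0 τ).trans ?_
          exact mul_le_mul_of_nonneg_left e4 (by linarith)
      _ = _ := by ring
  have hxK : (x : K) ≠ 0 := by
    intro h; exact hx (by exact_mod_cast h)
  have hηK : ((η : 𝓞 K) : K) ≠ 0 := by
    intro h; exact (Units.ne_zero η) (by exact_mod_cast h)
  obtain ⟨ζ, hζ⟩ : ∃ ζ : K, ζ = (A1 : K) * y / (x * (η : 𝓞 K)) := ⟨_, rfl⟩
  have hζp : ζ ^ p = ((A1 ^ (p - 1) * A : 𝓞 K) : K) := by
    have h1 := congrArg (fun r : 𝓞 K => (r : K)) hA0'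
    push_cast at h1
    have h2 : (A1 : K) = ((η : 𝓞 K) : K) ^ p * A0 := by rw [hA1]; push_cast; rfl
    have h3 : ((x : K) * (η : 𝓞 K)) ^ p ≠ 0 := pow_ne_zero _ (mul_ne_zero hxK hηK)
    rw [hζ, div_pow, div_eq_iff h3]
    push_cast
    have h4 : (A1 : K) ^ p = (A1 : K) ^ (p - 1) * A1 := by
      rw [← pow_succ]; congr 1; omega
    rw [mul_pow, mul_pow, h4, h2]
    calc _ = (((η : 𝓞 K) : K) ^ p * A0) ^ (p - 1) * (((η : 𝓞 K) : K) ^ p) * (y ^ p * A0) := by ring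
      _ = (((η : 𝓞 K) : K) ^ p * A0) ^ (p - 1) * (((η : 𝓞 K) : K) ^ p) * (A * x ^ p) := by rw [h1]
      _ = _ := by rw [← h2]; ring
  obtain ⟨z, hz⟩ := int_of_pow hp hζp
  refine ⟨A1 ^ (p - 1), z, pow_ne_zero _ hA10, ?_, ?_⟩
  · have h3 : ((z ^ p : 𝓞 K) : K) = ((A1 ^ (p - 1) * A : 𝓞 K) : K) := by
      rw [← hζp, ← hz]; push_cast; rfl
    exact_mod_cast h3.symm
  · intro τ
    rw [map_pow, norm_pow]
    exact pow_le_pow_left₀ (norm_nonneg _) (hb1 τ) _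

/-- the coordinates of an algebraic integer are bounded by its conjugates -/
theorem repr_bound {n : ℕ} (ω : Module.Basis (Fin n) ℤ (𝓞 K)) : ∃ c : ℝ, 1 ≤ c ∧
    ∀ (z : 𝓞 K) (B : ℝ), (∀ τ : 𝓞 K →+* ℂ, ‖τ z‖ ≤ B) → ∀ i, |((ω.repr z i : ℤ) : ℝ)| ≤ c * B := by
  classical
  obtain ⟨b, hb⟩ : ∃ b, b = ω.localizationLocalization ℚ (nonZeroDivisors ℤ) K := ⟨_, rfl⟩
  have hbi : ∀ i, b i = ((ω i : 𝓞 K) : K) := by
    intro i
    rw [hb, Module.Basis.localizationLocalization_apply]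
  obtain ⟨δ, hδ⟩ : ∃ δ, δ = (Algebra.traceForm ℚ K).dualBasis (traceForm_nondegenerate ℚ K) b :=
    ⟨_, rfl⟩
  have hdual : ∀ (z : 𝓞 K) i, ((ω.repr z i : ℤ) : ℚ) = Algebra.trace ℚ K (δ i * z) := by
    intro z i
    have h1 : (z : K) = ∑ j, ((ω.repr z j : ℤ) : ℚ) • b j := by
      conv_lhs => rw [← ω.sum_repr z]
      push_cast
      apply Finset.sum_congr rfl
      intro j _
      rw [hbi, Rat.smul_def]
      simp
    rw [h1, Finset.mul_sum, map_sum, Finset.sum_eq_single i]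
    · rw [mul_smul_comm, map_smul]
      have h2 := LinearMap.BilinForm.apply_dualBasis_left (B := Algebra.traceForm ℚ K)
        (traceForm_nondegenerate ℚ K) b i i
      rw [← hδ, if_pos rfl, Algebra.traceForm_apply] at h2
      rw [h2]
      simp
    · intro j _ hj
      rw [mul_smul_comm, map_smul]
      have h2 := LinearMap.BilinForm.apply_dualBasis_left (B := Algebra.traceForm ℚ K)
        (traceForm_nondegenerate ℚ K) b i j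
      rw [← hδ, if_neg hj, Algebra.traceForm_apply] at h2
      rw [h2]
      simp
    · intro h
      exact absurd (Finset.mem_univ _) h
  refine ⟨1 + ∑ i, ∑ σ : K →+* ℂ, ‖σ (δ i)‖, ?_, ?_⟩
  · have : 0 ≤ ∑ i, ∑ σ : K →+* ℂ, ‖σ (δ i)‖ :=
      Finset.sum_nonneg fun _ _ => Finset.sum_nonneg fun _ _ => norm_nonneg _
    linarith
  · intro z B hB i
    have h1 : (((ω.repr z i : ℤ) : ℝ) : ℂ) = ∑ σ : K →ₐ[ℚ] ℂ, σ (δ i * z) := by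
      have h2 := trace_eq_sum_embeddings ℂ (K := ℚ) (L := K) (x := δ i * z)
      rw [← h2, ← hdual]
      simp
    have hB0 : ∀ σ : K →+* ℂ, ‖σ z‖ ≤ B := fun σ => hB (σ.comp (algebraMap (𝓞 K) K))
    have hBn : 0 ≤ B := by
      obtain ⟨σ⟩ : Nonempty (K →+* ℂ) := inferInstance
      exact (norm_nonneg _).trans (hB0 σ)
    have h3 : |((ω.repr z i : ℤ) : ℝ)| = ‖(((ω.repr z i : ℤ) : ℝ) : ℂ)‖ := by
      rw [Complex.norm_real, Real.norm_eq_abs]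
    rw [h3, h1]
    calc ‖∑ σ : K →ₐ[ℚ] ℂ, σ (δ i * z)‖ ≤ ∑ σ : K →ₐ[ℚ] ℂ, ‖σ (δ i * z)‖ := norm_sum_le _ _
      _ ≤ ∑ σ : K →ₐ[ℚ] ℂ, ‖σ (δ i)‖ * B := by
        apply Finset.sum_le_sum
        intro σ _
        rw [map_mul, norm_mul]
        exact mul_le_mul_of_nonneg_left (hB0 σ.toRingHom) (norm_nonneg _)
      _ = (∑ σ : K →ₐ[ℚ] ℂ, ‖σ (δ i)‖) * B := by rw [Finset.sum_mul]
      _ = (∑ σ : K →+* ℂ, ‖σ (δ i)‖) * B := by
        congr 1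
        exact (Fintype.sum_equiv (RingHom.equivRatAlgHom K ℂ) _ _ (fun σ => rfl)).symm
      _ ≤ _ := by
        apply mul_le_mul_of_nonneg_right _ hBn
        have h4 : ∑ σ : K →+* ℂ, ‖σ (δ i)‖ ≤ ∑ i, ∑ σ : K →+* ℂ, ‖σ (δ i)‖ :=
          Finset.single_le_sum (f := fun i => ∑ σ : K →+* ℂ, ‖σ (δ i)‖)
            (fun _ _ => Finset.sum_nonneg fun _ _ => norm_nonneg _) (Finset.mem_univ i)
        linarith

end

end Pool.Agent.H90GC
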