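import Pool.Agent.H90GC.H10
import Pool.Agent.H90GC.H11

set_option autoImplicit false

/-!
Twists of bounded size.
-/

open NumberField Ideal

namespace Pool.Agent.H90GC

section

variable {K : Type} [Field K] [NumberField K] {n : ℕ}

lemma mu_bound (ω : Module.Basis (Fin n) ℤ (𝓞 K)) : ∃ c : ℝ, 1 ≤ c ∧ ∀ (θ : 𝓞 K) (B : ℝ),
    (∀ τ : 𝓞 K →+* ℂ, ‖τ θ‖ ≤ B) → (mu ω θ : ℝ) ≤ c * B := by
  classical
  obtain ⟨c2, hc2, hc⟩ := repr_bound ω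
  obtain ⟨W, hW⟩ : ∃ W : ℝ, W = 1 + ∑ j, ∑ σ : K →+* ℂ, ‖σ (ω j)‖ := ⟨_, rfl⟩
  have hW1 : 1 ≤ W := by
    rw [hW]
    have : 0 ≤ ∑ j, ∑ σ : K →+* ℂ, ‖σ (ω j)‖ :=
      Finset.sum_nonneg fun _ _ => Finset.sum_nonneg fun _ _ => norm_nonneg _
    linarith
  have hWj : ∀ j (τ : 𝓞 K →+* ℂ), ‖τ (ω j)‖ ≤ W := by
    intro j τ
    obtain ⟨σ, hσ⟩ := ext_emb τ
    have h1 : ‖σ (ω j)‖ ≤ ∑ σ : K →+* ℂ, ‖σ (ω j)‖ :=
      Finset.single_le_sum (f := fun σ : K →+* ℂ => ‖σ (ω j)‖)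
        (fun _ _ => norm_nonneg _) (Finset.mem_univ σ)
    have h2 : ∑ σ : K →+* ℂ, ‖σ (ω j)‖ ≤ ∑ j, ∑ σ : K →+* ℂ, ‖σ (ω j)‖ :=
      Finset.single_le_sum (f := fun j => ∑ σ : K →+* ℂ, ‖σ (ω j)‖)
        (fun _ _ => Finset.sum_nonneg fun _ _ => norm_nonneg _) (Finset.mem_univ j)
    rw [← hσ, hW]
    linarith
  refine ⟨1 + n * (n * (c2 * W)), ?_, ?_⟩
  · have : 0 ≤ (n : ℝ) * (n * (c2 * W)) := by positivity
    linarith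
  · intro θ B hB
    have hB0 : 0 ≤ B := by
      obtain ⟨σ⟩ : Nonempty (K →+* ℂ) := inferInstance
      exact (norm_nonneg _).trans (hB (σ.comp (algebraMap (𝓞 K) K)))
    have h1 : ∀ i j, (((ω.repr (θ * ω j) i).natAbs : ℕ) : ℝ) ≤ c2 * (W * B) := by
      intro i j
      rw [Nat.cast_natAbs, Int.cast_abs]
      refine hc _ _ (fun τ => ?_) i
      rw [map_mul, norm_mul, mul_comm W B]
      exact mul_le_mul (hB τ) (hWj j τ) (norm_nonneg _) hB0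
    rw [mu]
    push_cast
    calc ∑ i : Fin n, ∑ j : Fin n, (((ω.repr (θ * ω j) i).natAbs : ℕ) : ℝ)
        ≤ ∑ i : Fin n, ∑ j : Fin n, c2 * (W * B) :=
          Finset.sum_le_sum fun i _ => Finset.sum_le_sum fun j _ => h1 i j
      _ = n * (n * (c2 * W)) * B := by
        simp
        ring
      _ ≤ _ := by
        apply mul_le_mul_of_nonneg_right _ hB0
        linarith

/-- a twist of bounded size -/
theorem twist (p : ℕ) (hp : 2 ≤ p) (ω : Module.Basis (Fin n) ℤ (𝓞 K)) : ∃ B : ℕ, 1 ≤ B ∧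
    ∀ (R A : 𝓞 K), R ≠ 0 →
    (∃ 𝔟 𝔡 : Ideal (𝓞 K), 𝔡 ∣ span {R} ^ (p - 1) ∧ span {A} = 𝔡 * 𝔟 ^ p) →
    ∃ θ ζ : 𝓞 K, θ ≠ 0 ∧ θ * A = ζ ^ p ∧
      (∀ τ : 𝓞 K →+* ℂ, ‖τ θ‖ ≤ (B * (Algebra.norm ℤ R).natAbs : ℕ) ^ p ^ 2) ∧
      mu ω θ + 1 ≤ (B * (Algebra.norm ℤ R).natAbs) ^ p ^ 2 := by
  obtain ⟨c, hc1, hc⟩ := selmerQ (K := K) p (by omega)
  obtain ⟨c3, hc3, hmu⟩ := mu_bound ω
  obtain ⟨b1, hb1⟩ := exists_nat_ge c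
  obtain ⟨b2, hb2⟩ := exists_nat_ge c3
  have hb11 : 1 ≤ b1 := by exact_mod_cast hc1.trans hb1
  refine ⟨b1 * (b2 + 1), Nat.mul_pos (by omega) (by omega), ?_⟩
  intro R A hR hA
  obtain ⟨N, hN⟩ : ∃ N, N = (Algebra.norm ℤ R).natAbs := ⟨_, rfl⟩
  have hN1 : 1 ≤ N := by
    rw [hN, Nat.one_le_iff_ne_zero, Int.natAbs_ne_zero]
    exact (Algebra.norm_ne_zero_iff).2 hR
  have hNR : (1 : ℝ) ≤ N := by exact_mod_cast hN1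
  have hbR : (1 : ℝ) ≤ b1 := by exact_mod_cast hb11
  rw [← hN]
  obtain ⟨θ, ζ, hθ0, hζ, hθ⟩ : ∃ θ ζ : 𝓞 K, θ ≠ 0 ∧ θ * A = ζ ^ p ∧
      (∀ τ : 𝓞 K →+* ℂ, ‖τ θ‖ ≤ ((b1 : ℝ) * N) ^ (p - 1) ^ 2) := by
    by_cases hA0 : A = 0
    · refine ⟨1, 0, one_ne_zero, ?_, ?_⟩
      · rw [hA0, mul_zero, zero_pow (by omega)]
      · intro τ
        rw [map_one, norm_one]
        exact one_le_pow₀ (by nlinarith)
    obtain ⟨𝔟, 𝔡, h𝔡, hspan⟩ := hA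
    obtain ⟨θ, ζ, hθ0, hζ, hθ⟩ := hc A 𝔟 𝔡 hA0 hspan
    refine ⟨θ, ζ, hθ0, hζ, fun τ => (hθ τ).trans ?_⟩
    have h1 : absNorm 𝔡 ≤ N ^ (p - 1) := by
      have h2 : absNorm 𝔡 ∣ N ^ (p - 1) := by
        have h3 := absNorm_dvd_absNorm_of_le (Ideal.dvd_iff_le.1 h𝔡)
        rwa [map_pow, absNorm_span_singleton, ← hN] at h3
      exact Nat.le_of_dvd (Nat.pow_pos hN1) h2
    have h2 : (absNorm 𝔡 : ℝ) ≤ (N : ℝ) ^ (p - 1) := by exact_mod_cast h1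
    have h4 : c * (absNorm 𝔡 : ℝ) ≤ ((b1 : ℝ) * N) ^ (p - 1) := by
      calc c * (absNorm 𝔡 : ℝ) ≤ b1 * (N : ℝ) ^ (p - 1) :=
            mul_le_mul hb1 h2 (Nat.cast_nonneg _) (by linarith)
        _ ≤ (b1 : ℝ) ^ (p - 1) * (N : ℝ) ^ (p - 1) := by
            apply mul_le_mul_of_nonneg_right _ (by positivity)
            exact le_self_pow₀ hbR (by omega)
        _ = _ := by rw [mul_pow]
    calc (c * (absNorm 𝔡 : ℝ)) ^ (p - 1) ≤ (((b1 : ℝ) * N) ^ (p - 1)) ^ (p - 1) :=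
          pow_le_pow_left₀ (by positivity) h4 _
      _ = _ := by rw [← pow_mul, pow_two]
  have hexp : (p - 1) ^ 2 + 1 ≤ p ^ 2 := by
    obtain ⟨q, rfl⟩ : ∃ q, p = q + 1 := ⟨p - 1, by omega⟩
    simp only [Nat.add_sub_cancel]
    nlinarith
  have hb2R : (0 : ℝ) ≤ b2 := Nat.cast_nonneg _
  have hbig : ((b2 : ℝ) + 1) * ((b1 : ℝ) * N) ^ (p - 1) ^ 2 ≤
      (((b1 * (b2 + 1) * N : ℕ) : ℝ)) ^ p ^ 2 := by
    have e1 : ((b1 * (b2 + 1) * N : ℕ) : ℝ) = ((b2 : ℝ) + 1) * ((b1 : ℝ) * N) := by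
      push_cast; ring
    have e2 : (1 : ℝ) ≤ (b1 : ℝ) * N := by nlinarith
    rw [e1]
    calc ((b2 : ℝ) + 1) * ((b1 : ℝ) * N) ^ (p - 1) ^ 2
        ≤ (((b2 : ℝ) + 1) * ((b1 : ℝ) * N)) * (((b2 : ℝ) + 1) * ((b1 : ℝ) * N)) ^ (p - 1) ^ 2 := by
          apply mul_le_mul
          · nlinarith
          · apply pow_le_pow_left₀ (by positivity)
            nlinarith
          · positivity
          · positivity
      _ = (((b2 : ℝ) + 1) * ((b1 : ℝ) * N)) ^ ((p - 1) ^ 2 + 1) := by rw [pow_succ]; ring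
      _ ≤ _ := pow_le_pow_right₀ (by nlinarith) hexp
  have hpos : (0 : ℝ) ≤ ((b1 : ℝ) * N) ^ (p - 1) ^ 2 := by positivity
  have hone : (1 : ℝ) ≤ ((b1 : ℝ) * N) ^ (p - 1) ^ 2 := one_le_pow₀ (by nlinarith)
  refine ⟨θ, ζ, hθ0, hζ, ?_, ?_⟩
  · intro τ
    refine (hθ τ).trans (le_trans ?_ hbig)
    nlinarith
  · have h1 : (mu ω θ : ℝ) + 1 ≤ (((b1 * (b2 + 1) * N : ℕ) : ℝ)) ^ p ^ 2 := by
      refine le_trans ?_ hbig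
      have h2 := hmu θ _ hθ
      have h3 : c3 * ((b1 : ℝ) * N) ^ (p - 1) ^ 2 ≤ b2 * ((b1 : ℝ) * N) ^ (p - 1) ^ 2 :=
        mul_le_mul_of_nonneg_right hb2 hpos
      nlinarith
    exact_mod_cast h1

end

end Pool.Agent.H90GC
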