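import Mathlib

set_option autoImplicit false

/-!
Conjugates of a `p`-th root over a compositum.
-/

open Polynomial IntermediateField

namespace Pool.Agent.H90GC

lemma kummer_trans {K L Ω : Type} [Field K] [Field L] [CharZero L] [Field Ω] [Algebra L Ω]
    [IsAlgClosed Ω] [Algebra.IsAlgebraic L Ω] {p : ℕ} (hp : p.Prime) (σ₀ : K →+* Ω) {b : Ω}
    (hb : b ∈ IntermediateField.adjoin L (Set.range σ₀))
    (hnp : ∀ w ∈ IntermediateField.adjoin L (Set.range σ₀), w ^ p ≠ b) {r₀ : Ω} (hr₀ : r₀ ^ p = b) :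
    ∃ R : Finset Ω, p ≤ R.card ∧ ∀ r ∈ R,
      ∃ τ : Ω ≃ₐ[L] Ω, (∀ k, τ (σ₀ k) = σ₀ k) ∧ τ r₀ = r := by
  classical
  obtain ⟨L0, hL0⟩ : ∃ L0, L0 = IntermediateField.adjoin L (Set.range σ₀) := ⟨_, rfl⟩
  rw [← hL0] at hb hnp
  obtain ⟨P, hP⟩ : ∃ P : L0[X], P = X ^ p - C ⟨b, hb⟩ := ⟨_, rfl⟩
  have hPi : Irreducible P := by
    rw [hP]
    apply X_pow_sub_C_irreducible_of_prime hp
    intro w hw
    apply hnp (w : Ω) w.2
    have := congrArg (fun u : L0 => (u : Ω)) hw
    simpa using this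
  have hPm : P.Monic := by rw [hP]; exact monic_X_pow_sub_C _ hp.ne_zero
  have hP0 : aeval r₀ P = 0 := by
    rw [hP, map_sub, map_pow, aeval_X, aeval_C, hr₀]
    exact sub_self _
  have halg0 : Algebra.IsAlgebraic L0 Ω := Algebra.IsAlgebraic.tower_top (K := L) L0
  have hnorm : Normal L0 Ω :=
    { toIsAlgebraic := inferInstance
      splits' := fun _ => IsAlgClosed.splits _ }
  have hmin : minpoly L0 r₀ = P := (minpoly.eq_of_irreducible_of_monic hPi hP0 hPm).symm
  have hch : CharZero L0 := charZero_of_injective_algebraMap (algebraMap L L0).injective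
  have hsep : P.Separable := hPi.separable
  have hcard := card_rootSet_eq_natDegree (K := Ω) hsep (IsAlgClosed.splits _)
  have hPd : P.natDegree = p := by rw [hP]; exact natDegree_X_pow_sub_C
  refine ⟨(P.rootSet Ω).toFinset, ?_, ?_⟩
  · rw [Set.toFinset_card, hcard, hPd]
  · intro r hr
    rw [Set.mem_toFinset] at hr
    have h1 := aeval_eq_zero_of_mem_rootSet hr
    obtain ⟨τ, hτ⟩ := minpoly.exists_algEquiv_of_root' (K := L0) (L := Ω) (x := r) (y := r₀)
      (Algebra.IsAlgebraic.isAlgebraic _) (by rw [hmin]; exact h1)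
    refine ⟨τ.restrictScalars L, fun k => ?_, hτ⟩
    have hk : σ₀ k ∈ L0 := by
      rw [hL0]
      exact IntermediateField.subset_adjoin L _ ⟨k, rfl⟩
    have h2 := τ.commutes ⟨σ₀ k, hk⟩
    exact h2

end Pool.Agent.H90GC
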