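import Pool.Agent.H90GC.G5
import Pool.Agent.Y910.A.A9

set_option autoImplicit false

/-!
Passage to the monic model: the coefficients of the cover.
-/

open Polynomial Finset

namespace Pool.Agent.H90GC

open Pool.Agent.H322R2 Pool.Agent.H90TL

/-- a polynomial in the coordinates of the monic model -/
noncomputable def Af (l u : ℤ) (k : ℕ) (A : MvPolynomial (Fin 2) ℤ) : ℤ[X][X] :=
  ∑ m ∈ A.support, C (C (A.coeff m * l ^ (k - m 0 - m 1))) *
    (X ^ (m 0) * (C (C l * X) + C (C u) * X) ^ (m 1))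

lemma deg_supp {A : MvPolynomial (Fin 2) ℤ} {m : Fin 2 →₀ ℕ} (hm : m ∈ A.support) :
    m 0 + m 1 ≤ A.totalDegree := by
  have h1 := MvPolynomial.le_totalDegree hm
  have h2 : (m.sum fun _ e => e) = m 0 + m 1 := by
    rw [← degree_fin2]; rfl
  omega

lemma ev_Af {S : Type*} [CommRing S] (l u : ℤ) {k : ℕ} {A : MvPolynomial (Fin 2) ℤ}
    (hk : A.totalDegree ≤ k) (x y : S) :
    ev (y - (u : S) * x) ((l : S) * x) (Af l u k A) =
      (l : S) ^ k * MvPolynomial.eval₂ (Int.castRingHom S) ![x, y] A := by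
  unfold Af
  rw [map_sum, MvPolynomial.eval₂_eq', Finset.mul_sum]
  apply Finset.sum_congr rfl
  intro m hm
  have h1 := deg_supp hm
  simp only [map_mul, map_pow, map_add, ev_X, ev_C, evf_X, Fin.prod_univ_two, map_intCast,
    Matrix.cons_val_zero, Matrix.cons_val_one, eq_intCast]
  have h2 : (l : S) * (y - (u : S) * x) + (u : S) * ((l : S) * x) = (l : S) * y := by ring
  rw [h2, mul_pow, mul_pow]
  have h3 : (l : S) ^ k = (l : S) ^ (k - m 0 - m 1) * (l : S) ^ (m 0) * (l : S) ^ (m 1) := by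
    rw [← pow_add, ← pow_add]; congr 1; omega
  rw [h3]
  ring

lemma natDegree_Af (l u : ℤ) (k : ℕ) {A : MvPolynomial (Fin 2) ℤ} (hk : A.totalDegree ≤ k) :
    (Af l u k A).natDegree ≤ k := by
  unfold Af
  apply natDegree_sum_le_of_forall_le
  intro m hm
  have h1 := deg_supp hm
  refine (natDegree_C_mul_le _ _).trans ?_
  refine natDegree_mul_le.trans ?_
  have h2 : (C (C l * X) + C (C u) * X : ℤ[X][X]).natDegree ≤ 1 := by
    refine (natDegree_add_le _ _).trans (max_le (by rw [natDegree_C]; omega) ?_)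
    exact (natDegree_C_mul_le _ _).trans natDegree_X_le
  have h3 : ((C (C l * X) + C (C u) * X : ℤ[X][X]) ^ (m 1)).natDegree ≤ m 1 * 1 :=
    natDegree_pow_le.trans (Nat.mul_le_mul_left _ h2)
  rw [natDegree_X_pow]
  omega

lemma XD_Af (l u : ℤ) (k : ℕ) {A : MvPolynomial (Fin 2) ℤ} (hk : A.totalDegree ≤ k) :
    XD k (Af l u k A) := by
  unfold Af
  apply XD.sum
  intro m hm
  have h1 := deg_supp hm
  have h2 : XD 1 (C (C l * X) + C (C u) * X : ℤ[X][X]) := by
    apply XD.add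
    · apply XD.C
      exact (natDegree_C_mul_le _ _).trans natDegree_X_le
    · exact ((XD.C (D := 1) (by rw [natDegree_C]; omega)).mul XD.X).mono (by omega)
  have h3 : ∀ j, XD j ((C (C l * X) + C (C u) * X : ℤ[X][X]) ^ j) := by
    intro j
    induction j with
    | zero => rw [pow_zero]; exact XD.one
    | succ j ih => rw [pow_succ]; exact (ih.mul h2)
  exact ((XD.C (D := 0) (by rw [natDegree_C])).mul ((XD.X_pow _).mul (h3 _))).mono (by omega)

lemma pn_Af (l u : ℤ) (k : ℕ) {A : MvPolynomial (Fin 2) ℤ} (hk : A.totalDegree ≤ k) {Q : ℝ}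
    (hl : 1 ≤ |(l : ℝ)|) (hQ : |(l : ℝ)| + |(u : ℝ)| ≤ Q) :
    pn (pn zn) (Af l u k A) ≤ len A * Q ^ k := by
  have hQ1 : 1 ≤ Q := by linarith [abs_nonneg (u : ℝ)]
  unfold Af
  refine (seminorm_sum_le _ _ _).trans ?_
  rw [len]
  push_cast
  rw [Finset.sum_mul]
  apply Finset.sum_le_sum
  intro m hm
  have h1 := deg_supp hm
  refine (map_mul_le_mul _ _ _).trans ?_
  have e1 : pn (pn zn) (C (C (A.coeff m * l ^ (k - m 0 - m 1)))) =
      |((A.coeff m : ℤ) : ℝ)| * |(l : ℝ)| ^ (k - m 0 - m 1) := by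
    rw [pn_C, pn_C, zn_apply]
    push_cast
    rw [abs_mul, abs_pow]
  have h2 : pn (pn zn) (C (C l * X) + C (C u) * X : ℤ[X][X]) ≤ Q := by
    refine (map_add_le_add _ _ _).trans ?_
    refine le_trans (add_le_add ?_ ?_) hQ
    · rw [pn_C]
      refine (map_mul_le_mul _ _ _).trans ?_
      rw [pn_C, zn_apply]
      apply mul_le_of_le_one_right (abs_nonneg _)
      rw [pn_X]; simp
    · refine (map_mul_le_mul _ _ _).trans ?_
      rw [pn_C, pn_C, zn_apply]
      apply mul_le_of_le_one_right (abs_nonneg _)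
      rw [pn_X]; exact pn1_le_one
  have h3 : pn (pn zn) ((X : ℤ[X][X]) ^ (m 0) * (C (C l * X) + C (C u) * X) ^ (m 1)) ≤ Q ^ (m 1) := by
    refine (map_mul_le_mul _ _ _).trans ?_
    have e2 : pn (pn zn) ((X : ℤ[X][X]) ^ (m 0)) ≤ 1 := by
      rw [X_pow_eq_monomial, pn_monomial]; exact pn1_le_one
    have e3 : pn (pn zn) ((C (C l * X) + C (C u) * X : ℤ[X][X]) ^ (m 1)) ≤ Q ^ (m 1) := by
      refine (seminorm_pow_le (pn (pn zn)) pn2_le_one _ _).trans ?_
      exact pow_le_pow_left₀ (apply_nonneg _ _) h2 _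
    calc _ ≤ 1 * Q ^ (m 1) := mul_le_mul e2 e3 (apply_nonneg _ _) zero_le_one
      _ = _ := one_mul _
  rw [e1]
  have h4 : |(l : ℝ)| ^ (k - m 0 - m 1) ≤ Q ^ (k - m 0 - m 1) :=
    pow_le_pow_left₀ (abs_nonneg _) (by linarith [abs_nonneg (u : ℝ)]) _
  have h5 : Q ^ (k - m 0 - m 1) * Q ^ (m 1) ≤ Q ^ k := by
    rw [← pow_add]
    exact pow_le_pow_right₀ hQ1 (by omega)
  calc _ ≤ |((A.coeff m : ℤ) : ℝ)| * Q ^ (k - m 0 - m 1) * Q ^ (m 1) := by
        apply mul_le_mul _ h3 (apply_nonneg _ _) (by positivity)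
        exact mul_le_mul_of_nonneg_left h4 (abs_nonneg _)
    _ = |((A.coeff m : ℤ) : ℝ)| * (Q ^ (k - m 0 - m 1) * Q ^ (m 1)) := by ring
    _ ≤ |((A.coeff m : ℤ) : ℝ)| * Q ^ k := mul_le_mul_of_nonneg_left h5 (abs_nonneg _)
    _ = _ := by
        rw [Nat.cast_natAbs, Int.cast_abs]

lemma irr_Q {H : ℤ[X][X]} (hH : H.Monic) (hi : Irreducible H) :
    Irreducible (H.map (mapRingHom (Int.castRingHom ℚ))) := by
  let algZK : Algebra ℤ[X] (FractionRing ℚ[X]) :=
    ((algebraMap ℚ[X] (FractionRing ℚ[X])).comp (mapRingHom (Int.castRingHom ℚ))).toAlgebra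
  have hfr : IsFractionRing ℤ[X] (FractionRing ℚ[X]) := isFrac (fun q => rfl)
  have h1 := (Monic.irreducible_iff_irreducible_map_fraction_map (K := FractionRing ℚ[X]) hH).1 hi
  have h2 : (H.map (mapRingHom (Int.castRingHom ℚ))).Monic := hH.map _
  rw [Monic.irreducible_iff_irreducible_map_fraction_map (K := FractionRing ℚ[X]) h2,
    Polynomial.map_map]
  exact h1

end Pool.Agent.H90GC
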