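import Pool.Agent.H90GC.G11
import Pool.Agent.H90GC.H3

set_option autoImplicit false

/-!
Integer points on a plane curve that lift to integral points over a number field of a cover.
-/

open Polynomial Finset IntermediateField

namespace Pool.Agent.H90GC

open Pool.Agent.H322R2 Pool.Agent.H90TL Pool.Agent.Y910.G

lemma pi_map {L : Type} [Field L] [Algebra ℚ L] (π : MvPolynomial (Fin 2) ℚ →ₐ[ℚ] L)
    (A : MvPolynomial (Fin 2) ℤ) : π (MvPolynomial.map (Int.castRingHom ℚ) A) =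
      MvPolynomial.eval₂ (Int.castRingHom L) ![π (MvPolynomial.X 0), π (MvPolynomial.X 1)] A := by
  have h : (π : MvPolynomial (Fin 2) ℚ →+* L).comp (MvPolynomial.map (Int.castRingHom ℚ)) =
      MvPolynomial.eval₂Hom (Int.castRingHom L) ![π (MvPolynomial.X 0), π (MvPolynomial.X 1)] := by
    apply MvPolynomial.ringHom_ext
    · intro r
      simp
    · intro i
      fin_cases i <;> simp
  exact congrArg (fun g : MvPolynomial (Fin 2) ℤ →+* L => g A) h

theorem gen (d m n : ℕ) (hm : 3 ≤ m) (hn : 1 ≤ n) : ∃ E : ℕ,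
    ∀ (K : Type) [Field K] [NumberField K] (ω : Fin n → NumberField.RingOfIntegers K),
    Module.finrank ℚ K = n → (∀ k : K, ∃ q : Fin n → ℚ, k = ∑ i, (q i : K) * ω i) →
    ∃ (c : (Fin m → Fin n → ℝ) → ℕ) (c0 : ℕ), 1 ≤ c0 ∧ (∀ ℓ, c0 ≤ c ℓ) ∧
    ∀ (T : ℕ) (F : MvPolynomial (Fin 2) ℤ) (a : Fin m → Fin n → MvPolynomial (Fin 2) ℤ),
    F.totalDegree ≤ d → (∀ j i, (a j i).totalDegree ≤ d) → len F ≤ T → (∀ j i, len (a j i) ≤ T) →
    Irreducible (MvPolynomial.map (Int.castRingHom ℚ) F) →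
    ∀ (L : Type) [Field L] [Algebra ℚ L] (π : MvPolynomial (Fin 2) ℚ →ₐ[ℚ] L),
    (∀ w, π w = 0 ↔ MvPolynomial.map (Int.castRingHom ℚ) F ∣ w) →
    (∀ z : L, ∃ w1 w2, π w2 ≠ 0 ∧ π w2 * z = π w1) →
    (∃ σ₀ : K →+* AlgebraicClosure L, ∀ r₀ : AlgebraicClosure L,
      r₀ ^ m + ∑ j : Fin m, (∑ i, algebraMap L (AlgebraicClosure L)
        (π (MvPolynomial.map (Int.castRingHom ℚ) (a j i))) * σ₀ (ω i)) * r₀ ^ (j : ℕ) = 0 →
      ∃ R : Finset (AlgebraicClosure L), m ≤ R.card ∧ ∀ r ∈ R,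
        ∃ τ : AlgebraicClosure L ≃ₐ[L] AlgebraicClosure L, (∀ k, τ (σ₀ k) = σ₀ k) ∧ τ r₀ = r) →
    ∀ G : ValuationSubring L → L → Prop,
    (∀ V : ValuationSubring L, (∀ q : ℚ, algebraMap ℚ L q ∈ V) →
      ¬ (π (MvPolynomial.X 0) ∈ V ∧ π (MvPolynomial.X 1) ∈ V) →
      ∃ υ : L, υ ≠ 0 ∧ G V υ ∧
        ∀ j i, π (MvPolynomial.map (Int.castRingHom ℚ) (a j i)) / υ ^ (m - (j : ℕ)) ∈ V) →
    (∀ (V : ValuationSubring L) (υ : L) (ψ : IsLocalRing.ResidueField V →+* ℝ)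
      (h : ∀ j i, π (MvPolynomial.map (Int.castRingHom ℚ) (a j i)) / υ ^ (m - (j : ℕ)) ∈ V),
      G V υ → ∀ τ : K →+* ℂ,
      (X ^ m + ∑ j : Fin m, C (∑ i, ((ψ (IsLocalRing.residue V ⟨_, h j i⟩) : ℝ) : ℂ) *
        τ (ω i : K)) * X ^ (j : ℕ) : ℂ[X]).Separable) →
    ∀ (x y : ℤ) (ζ : NumberField.RingOfIntegers K), MvPolynomial.eval ![x, y] F = 0 →
      ζ ^ m + ∑ j : Fin m, (∑ i, ((MvPolynomial.eval ![x, y] (a j i) : ℤ) :
        NumberField.RingOfIntegers K) * ω i) * ζ ^ (j : ℕ) = 0 →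
      (x.natAbs ≤ (c0 * T) ^ E ∧ y.natAbs ≤ (c0 * T) ^ E) ∨
      ∃ (V : ValuationSubring L) (υ : L) (ψ : IsLocalRing.ResidueField V →+* ℝ)
        (h : ∀ j i, π (MvPolynomial.map (Int.castRingHom ℚ) (a j i)) / υ ^ (m - (j : ℕ)) ∈ V),
        (∀ q : ℚ, algebraMap ℚ L q ∈ V) ∧
        ¬ (π (MvPolynomial.X 0) ∈ V ∧ π (MvPolynomial.X 1) ∈ V) ∧ υ ≠ 0 ∧ G V υ ∧
        x.natAbs ≤ (c (fun j i => ψ (IsLocalRing.residue V ⟨_, h j i⟩)) * T) ^ E ∧
        y.natAbs ≤ (c (fun j i => ψ (IsLocalRing.residue V ⟨_, h j i⟩)) * T) ^ E := by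
  obtain ⟨D, hD⟩ : ∃ D, D = d * m := ⟨_, rfl⟩
  obtain ⟨E0, hE0⟩ := core D m n hm hn
  obtain ⟨k, hk⟩ : ∃ k, k = D + 1 + d := ⟨_, rfl⟩
  refine ⟨k * (E0 + 1) + 1, ?_⟩
  intro K _ _ ω hK hω
  obtain ⟨c, c0, hc0, hcc, hcore⟩ := hE0 K ω hK hω
  obtain ⟨B, hB⟩ : ∃ B, B = (2 + d) ^ (d + 1) := ⟨_, rfl⟩
  have hB1 : 2 ≤ B := by
    rw [hB]
    calc 2 ≤ (2 + d) ^ 1 := by rw [pow_one]; omega
      _ ≤ (2 + d) ^ (d + 1) := Nat.pow_le_pow_right (by omega) (by omega)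
  have hBd : (1 + d) ^ d + d ≤ B := by
    rw [hB, pow_succ]
    have h1 : (1 + d) ^ d ≤ (2 + d) ^ d := Nat.pow_le_pow_left (by omega) _
    have h2 : 1 ≤ (2 + d) ^ d := Nat.one_le_pow _ _ (by omega)
    nlinarith
  have hB0 : 0 < B := by omega
  refine ⟨fun ℓ => c ℓ * B, c0 * B, Nat.mul_pos hc0 hB0,
    fun ℓ => Nat.mul_le_mul_right _ (hcc ℓ), ?_⟩
  intro T F a hFd had hFT haT hirr L _ _ π hker hsurj hirrΩ G hinf hsepψ x y ζ hxy hζ
  have hchL : CharZero L := charZero_of_injective_algebraMap (algebraMap ℚ L).injective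
  have hF0 : F ≠ 0 := by
    rintro rfl
    rw [map_zero] at hirr
    exact hirr.ne_zero rfl
  obtain ⟨u, hu, hcu⟩ := exists_u F hF0
  have hcl : lc F u ≠ 0 := hcu
  have hFd1 : 1 ≤ F.totalDegree := totalDegree_pos F hirr
  have hd1 : 1 ≤ d := hFd1.trans hFd
  have hlen1 : 1 ≤ len F := len_pos hF0
  have hT1 : 1 ≤ T := hlen1.trans hFT
  have hTR : (1 : ℝ) ≤ T := by exact_mod_cast hT1
  have hud : u ≤ d := hu.trans hFd
  obtain ⟨Q, hQ⟩ : ∃ Q, Q = B * T := ⟨_, rfl⟩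
  have hQ2 : 2 ≤ Q := by
    rw [hQ]
    calc 2 ≤ B * 1 := by omega
      _ ≤ B * T := Nat.mul_le_mul_left _ hT1
  have hQR : (2 : ℝ) ≤ Q := by exact_mod_cast hQ2
  -- sizes
  have hpn2 : pn (pn zn) (F2 F u) ≤ Q := by
    refine (pn_toB_le u F).trans ?_
    have h1 : ((1 : ℝ) + u) ^ F.totalDegree ≤ ((1 + d : ℕ) : ℝ) ^ d := by
      push_cast
      have huR : (u : ℝ) ≤ d := by exact_mod_cast hud
      have hu0 : (0 : ℝ) ≤ u := Nat.cast_nonneg _
      calc ((1 : ℝ) + u) ^ F.totalDegree ≤ (1 + d) ^ F.totalDegree :=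
            pow_le_pow_left₀ (by linarith) (by linarith) _
        _ ≤ (1 + d) ^ d := pow_le_pow_right₀ (by linarith [(Nat.cast_nonneg d : (0 : ℝ) ≤ d)]) hFd
    have h2 : (((1 + d) ^ d : ℕ) : ℝ) ≤ B := by exact_mod_cast (by omega : (1 + d) ^ d ≤ B)
    have h3 : (len F : ℝ) ≤ T := by exact_mod_cast hFT
    calc (len F : ℝ) * (1 + u) ^ F.totalDegree ≤ T * B := by
          apply mul_le_mul h3 (h1.trans (by push_cast at h2 ⊢; exact h2)) (by positivity) (by linarith)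
      _ = Q := by rw [hQ]; push_cast; ring
  have hlcQ : |((lc F u : ℤ) : ℝ)| + |((u : ℤ) : ℝ)| ≤ Q := by
    have h1 : |((lc F u : ℤ) : ℝ)| ≤ T * (((1 + d) ^ d : ℕ) : ℝ) := by
      have h2 := coeff_le_pn (pn zn) (F2 F u) F.totalDegree
      rw [F2_coeff hcl, pn_C] at h2
      have h3 : zn (lc F u) = |((lc F u : ℤ) : ℝ)| := rfl
      rw [h3] at h2
      refine h2.trans ((pn_toB_le u F).trans ?_)
      have h4 : (len F : ℝ) ≤ T := by exact_mod_cast hFT
      apply mul_le_mul h4 _ (by positivity) (by linarith)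
      push_cast
      have huR : (u : ℝ) ≤ d := by exact_mod_cast hud
      have hu0 : (0 : ℝ) ≤ u := Nat.cast_nonneg _
      calc ((1 : ℝ) + u) ^ F.totalDegree ≤ (1 + d) ^ F.totalDegree :=
            pow_le_pow_left₀ (by linarith) (by linarith) _
        _ ≤ (1 + d) ^ d := pow_le_pow_right₀ (by linarith [(Nat.cast_nonneg d : (0 : ℝ) ≤ d)]) hFd
    have h2 : |((u : ℤ) : ℝ)| ≤ d := by
      rw [Int.cast_natCast, Nat.abs_cast]
      exact_mod_cast hud
    have h3 : (((1 + d) ^ d + d : ℕ) : ℝ) ≤ B := by exact_mod_cast hBd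
    have h4 : (d : ℝ) ≤ T * d := le_mul_of_one_le_left (Nat.cast_nonneg _) hTR
    calc _ ≤ T * (((1 + d) ^ d : ℕ) : ℝ) + T * d := by linarith
      _ = T * (((1 + d) ^ d + d : ℕ) : ℝ) := by push_cast; ring
      _ ≤ T * B := mul_le_mul_of_nonneg_left h3 (by linarith)
      _ = Q := by rw [hQ]; push_cast; ring
  obtain ⟨T', hT'⟩ : ∃ T', T' = Q ^ k := ⟨_, rfl⟩
  have hT'2 : 2 ≤ T' := by
    rw [hT']
    exact hQ2.trans (Nat.le_self_pow (by omega) _)
  have hT'R : (1 : ℝ) ≤ T' := by exact_mod_cast (by omega : 1 ≤ T')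
  have hpnG : pn (pn zn) (GG F u) ≤ T' := by
    refine (pn_GG hcl (by linarith : (1 : ℝ) ≤ Q) hpn2 hFd1).trans ?_
    rw [hT']
    push_cast
    exact pow_le_pow_right₀ (by linarith) (by omega)
  have hlc1 : 1 ≤ |((lc F u : ℤ) : ℝ)| := by
    have : 1 ≤ |lc F u| := Int.one_le_abs hcl
    exact_mod_cast this
  -- the new coefficients
  obtain ⟨a', ha'⟩ : ∃ a' : Fin m → Fin n → ℤ[X][X],
    a' = fun (j : Fin m) (i : Fin n) => Af (lc F u) u (d * (m - (j : ℕ))) (a j i) := ⟨_, rfl⟩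
  have hdm : ∀ j : Fin m, d ≤ d * (m - (j : ℕ)) := fun j => by
    have := j.2
    exact Nat.le_mul_of_pos_right _ (by omega)
  have hdD : ∀ j : Fin m, d * (m - (j : ℕ)) ≤ D := fun j => by
    rw [hD]
    exact Nat.mul_le_mul_left _ (Nat.sub_le _ _)
  have haD' : ∀ j i, (a' j i).natDegree ≤ D := by
    intro j i
    rw [ha']
    exact (natDegree_Af _ _ _ ((had j i).trans (hdm j))).trans (hdD j)
  have haX' : ∀ j i, XD D (a' j i) := by
    intro j i
    rw [ha']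
    exact (XD_Af _ _ _ ((had j i).trans (hdm j))).mono (hdD j)
  have haT' : ∀ j i, pn (pn zn) (a' j i) ≤ T' := by
    intro j i
    rw [ha']
    refine (pn_Af _ _ _ ((had j i).trans (hdm j)) hlc1 hlcQ).trans ?_
    have h1 : (len (a j i) : ℝ) ≤ Q := by
      have h2 : len (a j i) ≤ Q := by
        rw [hQ]
        calc len (a j i) ≤ 1 * T := by rw [one_mul]; exact haT j i
          _ ≤ B * T := Nat.mul_le_mul_right _ (by omega)
      exact_mod_cast h2
    rw [hT']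
    push_cast
    calc (len (a j i) : ℝ) * Q ^ (d * (m - (j : ℕ))) ≤ Q * Q ^ (d * (m - (j : ℕ))) :=
          mul_le_mul_of_nonneg_right h1 (by positivity)
      _ = (Q : ℝ) ^ (d * (m - (j : ℕ)) + 1) := by rw [pow_succ]; ring
      _ ≤ _ := pow_le_pow_right₀ (by linarith) (by have := hdD j; omega)
  -- the function field
  obtain ⟨α, hα⟩ : ∃ α : L, α = π (MvPolynomial.X 1) - (u : L) * π (MvPolynomial.X 0) := ⟨_, rfl⟩
  obtain ⟨β, hβ⟩ : ∃ β : L, β = ((lc F u : ℤ) : L) * π (MvPolynomial.X 0) := ⟨_, rfl⟩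
  obtain ⟨hev, htr, hgen, hpl⟩ := Y852.FFRed.ff_reduce F hirr u hcl hFd1 π hker hsurj α β hα hβ
  have hlL : ((lc F u : ℤ) : L) ≠ 0 := by exact_mod_cast hcl
  obtain ⟨l, hl⟩ : ∃ l : L, l = ((lc F u : ℤ) : L) ^ d := ⟨_, rfl⟩
  have hl0 : l ≠ 0 := by rw [hl]; exact pow_ne_zero _ hlL
  obtain ⟨b, hb⟩ : ∃ b : Fin m → Fin n → L,
    b = fun j i => π (MvPolynomial.map (Int.castRingHom ℚ) (a j i)) := ⟨_, rfl⟩
  have hevL : ∀ (j : Fin m) (i : Fin n), ev α β (a' j i) = l ^ (m - (j : ℕ)) * b j i := by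
    intro j i
    rw [ha', hα, hβ, hb]
    have h1 := ev_Af (S := L) (lc F u) u ((had j i).trans (hdm j)) (π (MvPolynomial.X 0))
      (π (MvPolynomial.X 1))
    rw [Int.cast_natCast] at h1
    show ev _ _ (Af (lc F u) (u : ℤ) (d * (m - (j : ℕ))) (a j i)) = _
    rw [h1, hl, ← pow_mul]
    show _ = _ * π (MvPolynomial.map (Int.castRingHom ℚ) (a j i))
    rw [pi_map]
  -- roots
  obtain ⟨lΩ, hlΩ⟩ : ∃ lΩ, lΩ = algebraMap L (AlgebraicClosure L) l := ⟨_, rfl⟩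
  have hlΩ0 : lΩ ≠ 0 := by rw [hlΩ, Ne, map_eq_zero]; exact hl0
  have hroot : ∀ (σ : K →+* AlgebraicClosure L) (r : AlgebraicClosure L),
      (PP a' (fun i => (ω i : K)) (algebraMap L (AlgebraicClosure L) α)
        (algebraMap L (AlgebraicClosure L) β) σ).eval (lΩ * r) =
      lΩ ^ m * (r ^ m + ∑ j : Fin m, (∑ i, algebraMap L (AlgebraicClosure L) (b j i) * σ (ω i)) *
        r ^ (j : ℕ)) := by
    intro σ r
    rw [PP_eval, mul_add, Finset.mul_sum, mul_pow]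
    congr 1
    apply Finset.sum_congr rfl
    intro j _
    rw [Finset.sum_mul, Finset.sum_mul, Finset.mul_sum]
    apply Finset.sum_congr rfl
    intro i _
    rw [← map_ev, hevL, map_mul, map_pow, ← hlΩ, mul_pow]
    have h1 : lΩ ^ m = lΩ ^ (m - (j : ℕ)) * lΩ ^ (j : ℕ) := by
      rw [← pow_add]; congr 1; have := j.2; omega
    rw [h1]
    ring
  -- the transitivity
  have hirrΩ' : ∃ σ₀ : K →+* AlgebraicClosure L, ∀ r₀ : AlgebraicClosure L,
      (PP a' (fun i => (ω i : K)) (algebraMap L (AlgebraicClosure L) α)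
        (algebraMap L (AlgebraicClosure L) β) σ₀).eval r₀ = 0 →
      ∃ R : Finset (AlgebraicClosure L), m ≤ R.card ∧ ∀ r ∈ R,
        ∃ τ : AlgebraicClosure L ≃ₐ[L] AlgebraicClosure L, (∀ k, τ (σ₀ k) = σ₀ k) ∧ τ r₀ = r := by
    classical
    obtain ⟨σ₀, hσ₀⟩ := hirrΩ
    refine ⟨σ₀, fun r₀ hr₀ => ?_⟩
    have h1 := hroot σ₀ (r₀ / lΩ)
    rw [mul_div_cancel₀ _ hlΩ0, hr₀] at h1
    have h2 := (mul_eq_zero.1 h1.symm).resolve_left (pow_ne_zero _ hlΩ0)
    rw [hb] at h2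
    obtain ⟨R, hR1, hR2⟩ := hσ₀ _ h2
    refine ⟨R.image (fun r => lΩ * r), ?_, ?_⟩
    · rw [Finset.card_image_of_injective _ (mul_right_injective₀ hlΩ0)]
      exact hR1
    · intro r hr
      rw [Finset.mem_image] at hr
      obtain ⟨r', hr', rfl⟩ := hr
      obtain ⟨τ, hτ1, hτ2⟩ := hR2 r' hr'
      refine ⟨τ, hτ1, ?_⟩
      have h3 : r₀ = lΩ * (r₀ / lΩ) := by rw [mul_div_cancel₀ _ hlΩ0]
      rw [h3, map_mul, hτ2]
      congr 1
      rw [hlΩ]
      exact τ.commutes l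
  have hquot : ∀ (υ : L) (j : Fin m) (i : Fin n), ev α β (a' j i) / υ ^ (m - (j : ℕ)) =
      b j i / (υ / l) ^ (m - (j : ℕ)) := by
    intro υ j i
    rw [hevL, div_pow]
    have : l ^ (m - (j : ℕ)) ≠ 0 := pow_ne_zero _ hl0
    by_cases hυ : υ ^ (m - (j : ℕ)) = 0
    · rw [hυ, zero_div, div_zero, div_zero]
    · field_simp
  -- the point
  obtain ⟨x', hx'⟩ : ∃ x' : ℤ, x' = y - u * x := ⟨_, rfl⟩
  have hzero : ev x' (lc F u * x) (GG F u) = 0 := by
    rw [ev_GG hcl hFd1]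
    have h1 := ev_toB (S := ℤ) x x' (shE ℤ u F)
    have h2 : MvPolynomial.eval₂ (Int.castRingHom ℤ) ![x, x'] (shE ℤ u F)
        = MvPolynomial.eval ![x, x'] (shE ℤ u F) := by
      rw [MvPolynomial.eval, MvPolynomial.coe_eval₂Hom]
      congr 1
    rw [h2, eval_shE] at h1
    have h3 : (![(![x, x'] : Fin 2 → ℤ) 0, (![x, x'] : Fin 2 → ℤ) 1 + u * (![x, x'] : Fin 2 → ℤ) 0]
        : Fin 2 → ℤ) = ![x, y] := by
      ext i
      fin_cases i
      · simp
      · simp [hx']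
    rw [h3, hxy] at h1
    rw [F2, h1, mul_zero]
  obtain ⟨lO, hlO⟩ : ∃ lO : ℤ, lO = (lc F u) ^ d := ⟨_, rfl⟩
  have hevP : ∀ (j : Fin m) (i : Fin n), ev x' (lc F u * x) (a' j i) =
      lO ^ (m - (j : ℕ)) * MvPolynomial.eval ![x, y] (a j i) := by
    intro j i
    rw [ha', hx']
    have h1 := ev_Af (S := ℤ) (lc F u) u ((had j i).trans (hdm j)) x y
    simp only [Int.cast_id] at h1
    show ev _ _ (Af (lc F u) (u : ℤ) (d * (m - (j : ℕ))) (a j i)) = _
    rw [h1, hlO, ← pow_mul]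
    congr 1
  have hζ' : ((lO : NumberField.RingOfIntegers K) * ζ) ^ m + ∑ j : Fin m,
      (∑ i, ((ev x' (lc F u * x) (a' j i) : ℤ) : NumberField.RingOfIntegers K) * ω i) *
        ((lO : NumberField.RingOfIntegers K) * ζ) ^ (j : ℕ) = 0 := by
    have h1 : ((lO : NumberField.RingOfIntegers K) * ζ) ^ m + ∑ j : Fin m,
        (∑ i, ((ev x' (lc F u * x) (a' j i) : ℤ) : NumberField.RingOfIntegers K) * ω i) *
          ((lO : NumberField.RingOfIntegers K) * ζ) ^ (j : ℕ) =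
        (lO : NumberField.RingOfIntegers K) ^ m * (ζ ^ m + ∑ j : Fin m,
          (∑ i, ((MvPolynomial.eval ![x, y] (a j i) : ℤ) :
            NumberField.RingOfIntegers K) * ω i) * ζ ^ (j : ℕ)) := by
      rw [mul_add, Finset.mul_sum, mul_pow]
      congr 1
      apply Finset.sum_congr rfl
      intro j _
      rw [Finset.sum_mul, Finset.sum_mul, Finset.mul_sum]
      apply Finset.sum_congr rfl
      intro i _
      rw [hevP, mul_pow]
      have h2 : (lO : NumberField.RingOfIntegers K) ^ m =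
          (lO : NumberField.RingOfIntegers K) ^ (m - (j : ℕ)) *
          (lO : NumberField.RingOfIntegers K) ^ (j : ℕ) := by
        rw [← pow_add]; congr 1; have := j.2; omega
      rw [h2]
      push_cast
      ring
    rw [h1, hζ, mul_zero]
  -- bounds for the coordinates
  have hbb := abs_b_le (GG_monic hcl) (GG_natDegree hcl) (GG_TD hcl) hT'R hpnG x' (lc F u * x) hzero
  have hxb : |(x : ℝ)| ≤ T' * max 1 |(x' : ℝ)| := by
    refine le_trans ?_ hbb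
    push_cast
    rw [abs_mul]
    exact le_mul_of_one_le_left (abs_nonneg _) hlc1
  have key : ∀ s : ℕ, 1 ≤ s → |x'| ≤ ((s * T' : ℕ) : ℤ) ^ E0 →
      x.natAbs ≤ (s * B * T) ^ (k * (E0 + 1) + 1) ∧ y.natAbs ≤ (s * B * T) ^ (k * (E0 + 1) + 1) := by
    intro s hs hle
    obtain ⟨W, hW⟩ : ∃ W : ℝ, W = ((s * T' : ℕ) : ℝ) := ⟨_, rfl⟩
    have hsT : 1 ≤ s * T' := Nat.mul_pos hs (by omega)
    have hW1 : 1 ≤ W := by rw [hW]; exact_mod_cast hsT
    have hT'W : (T' : ℝ) ≤ W := by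
      rw [hW]
      exact_mod_cast Nat.le_mul_of_pos_left _ hs
    have hxW : |(x' : ℝ)| ≤ W ^ E0 := by
      have h1 : ((|x'| : ℤ) : ℝ) ≤ ((((s * T' : ℕ) : ℤ) ^ E0 : ℤ) : ℝ) := by exact_mod_cast hle
      rw [Int.cast_abs] at h1
      refine h1.trans ?_
      rw [hW]
      push_cast
      exact le_rfl
    have hmax : max 1 |(x' : ℝ)| ≤ W ^ E0 := max_le (one_le_pow₀ hW1) hxW
    have hx1 : |(x : ℝ)| ≤ W ^ (E0 + 1) := by
      refine hxb.trans ?_
      rw [pow_succ']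
      exact mul_le_mul hT'W hmax (by positivity) (by linarith)
    have hy1 : |(y : ℝ)| ≤ (1 + d) * W ^ (E0 + 1) := by
      have h1 : (y : ℝ) = x' + u * x := by rw [hx']; push_cast; ring
      rw [h1]
      refine (abs_add_le _ _).trans ?_
      rw [abs_mul, Nat.abs_cast]
      have huR : (u : ℝ) ≤ d := by exact_mod_cast hud
      have h3 : (u : ℝ) * |(x : ℝ)| ≤ d * W ^ (E0 + 1) :=
        mul_le_mul huR hx1 (abs_nonneg _) (Nat.cast_nonneg _)
      have h4 : W ^ E0 ≤ W ^ (E0 + 1) := pow_le_pow_right₀ hW1 (by omega)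
      linarith
    obtain ⟨Z, hZ⟩ : ∃ Z : ℝ, Z = ((s * B * T : ℕ) : ℝ) := ⟨_, rfl⟩
    have hQZ : (Q : ℝ) ≤ Z := by
      rw [hZ]
      have h1 : Q ≤ s * B * T := by
        rw [hQ, mul_assoc]
        exact Nat.le_mul_of_pos_left _ hs
      exact_mod_cast h1
    have hZ1 : 1 ≤ Z := by linarith
    have hdZ : (1 : ℝ) + d ≤ Z := by
      have h1 : 1 + d ≤ B := by
        have := Nat.one_le_pow d (1 + d) (by omega)
        omega
      have h2 : ((1 + d : ℕ) : ℝ) ≤ Q := by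
        rw [hQ]
        exact_mod_cast h1.trans (Nat.le_mul_of_pos_right _ hT1)
      push_cast at h2
      linarith
    have hWZ : W ≤ Z ^ k := by
      rw [hW, hZ, hT', hQ]
      have h1 : s * (B * T) ^ k ≤ (s * B * T) ^ k := by
        rw [mul_assoc, mul_pow s]
        exact Nat.mul_le_mul_right _ (Nat.le_self_pow (by omega) _)
      exact_mod_cast h1
    have hWE : W ^ (E0 + 1) ≤ Z ^ (k * (E0 + 1)) := by
      rw [pow_mul]
      exact pow_le_pow_left₀ (by linarith) hWZ _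
    have hWE0 : 0 ≤ W ^ (E0 + 1) := by positivity
    have hfin : ∀ v : ℤ, |(v : ℝ)| ≤ (1 + d) * W ^ (E0 + 1) →
        v.natAbs ≤ (s * B * T) ^ (k * (E0 + 1) + 1) := by
      intro v hv
      have h1 : (v.natAbs : ℝ) ≤ (((s * B * T) ^ (k * (E0 + 1) + 1) : ℕ) : ℝ) := by
        rw [Nat.cast_natAbs, Int.cast_abs, Nat.cast_pow, ← hZ]
        refine hv.trans ?_
        rw [pow_succ' Z (k * (E0 + 1))]
        exact mul_le_mul hdZ hWE hWE0 (by linarith)
      exact_mod_cast h1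
    refine ⟨hfin x (hx1.trans ?_), hfin y hy1⟩
    apply le_mul_of_one_le_left hWE0
    linarith [(Nat.cast_nonneg d : (0 : ℝ) ≤ d)]
  -- the application
  have happ := hcore T' hT'2 (GG F u) a' (GG_monic hcl) (by rw [GG_natDegree hcl]; exact hFd1)
    (by rw [GG_natDegree hcl, hD]
        exact hFd.trans (Nat.le_mul_of_pos_right _ (by omega)))
    (fun j => ((GG_TD hcl).2 j).trans ((Nat.sub_le _ _).trans (by
      rw [hD]; exact hFd.trans (Nat.le_mul_of_pos_right _ (by omega))))) haD' haX' hpnG haT'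
    (irr_Q (GG_monic hcl) (GG_prime hcl hFd1 hirr).irreducible) L α β hev htr hgen hirrΩ'
    (fun V υ => G V (υ / l)) (by
      intro 𝒱 h𝒱Q h𝒱α
      obtain ⟨V, hV⟩ : ∃ V : ValuationSubring L, V = 𝒱.comap (algebraMap L (AlgebraicClosure L)) :=
        ⟨_, rfl⟩
      have hmemV : ∀ v, v ∈ V ↔ algebraMap L (AlgebraicClosure L) v ∈ 𝒱 := by
        intro v
        rw [hV, ValuationSubring.mem_comap]
      have hVQ : ∀ q : ℚ, algebraMap ℚ L q ∈ V := by
        intro q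
        rw [hmemV, eq_ratCast, map_ratCast]
        exact h𝒱Q q
      obtain ⟨υ, hυ0, hGυ, hυc⟩ := hinf V hVQ (by
        rintro ⟨h1, h2⟩
        apply h𝒱α
        rw [← hmemV, hα]
        exact V.sub_mem h2 (V.mul_mem _ _ (_root_.natCast_mem _ _) h1))
      have hυl : l * υ / l = υ := mul_div_cancel_left₀ _ hl0
      refine ⟨l * υ, mul_ne_zero hl0 hυ0, ?_, ?_⟩
      · rw [← hV]
        show G V (l * υ / l)
        rw [hυl]
        exact hGυ
      · intro j i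
        rw [hquot, hυl, ← hmemV, hb]
        exact hυc j i) (by
      intro V υ ψ h hG τ
      have h' : ∀ j i, π (MvPolynomial.map (Int.castRingHom ℚ) (a j i)) / (υ / l) ^ (m - (j : ℕ)) ∈ V := by
        intro j i
        have := h j i
        rw [hquot, hb] at this
        exact this
      have h1 := hsepψ V (υ / l) ψ h' hG τ
      have h2 : ∀ j i, (⟨_, h j i⟩ : V) = ⟨_, h' j i⟩ := by
        intro j i
        apply Subtype.ext
        show ev α β (a' j i) / υ ^ (m - (j : ℕ)) = _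
        rw [hquot, hb]
      simp only [h2]
      exact h1) x' (lc F u * x) ((lO : NumberField.RingOfIntegers K) * ζ) hzero hζ'
  rcases happ with h | ⟨V, υ, ψ, h, hVQ, hαV, hυ0, hG, hle⟩
  · left
    exact key c0 hc0 h
  · right
    have h' : ∀ j i, π (MvPolynomial.map (Int.castRingHom ℚ) (a j i)) / (υ / l) ^ (m - (j : ℕ)) ∈ V := by
      intro j i
      have := h j i
      rw [hquot, hb] at this
      exact this
    have h2 : ∀ j i, (⟨_, h j i⟩ : V) = ⟨_, h' j i⟩ := by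
      intro j i
      apply Subtype.ext
      show ev α β (a' j i) / υ ^ (m - (j : ℕ)) = _
      rw [hquot, hb]
    refine ⟨V, υ / l, ψ, h', hVQ, ?_, div_ne_zero hυ0 hl0, hG, ?_⟩
    · rintro ⟨e1, e2⟩
      apply hαV
      rw [hα]
      exact V.sub_mem e2 (V.mul_mem _ _ (_root_.natCast_mem _ _) e1)
    · simp only [h2] at hle
      exact key _ (hc0.trans (hcc _)) hle

end Pool.Agent.H90GC
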