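import Pool.Agent.H90GC.H1
import Pool.Agent.H90GC.H2

set_option autoImplicit false

/-!
Roots of order four, and elements whose ideal is almost a power.
-/

open Polynomial IntermediateField

namespace Pool.Agent.H90GC

lemma quartic_irr {M : Type} [Field M] [CharZero M] {a : M} (h1 : ∀ w : M, w ^ 2 ≠ a)
    (h2 : ∀ w : M, w ^ 2 ≠ -a) : Irreducible (X ^ 4 - C a : M[X]) := by
  have hmon : (X ^ 4 - C a : M[X]).Monic := monic_X_pow_sub_C _ (by norm_num)
  have hdeg : (X ^ 4 - C a : M[X]).natDegree = 4 := natDegree_X_pow_sub_C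
  rw [hmon.irreducible_iff_natDegree']
  refine ⟨fun h => ?_, ?_⟩
  · rw [h, natDegree_one] at hdeg
    omega
  · intro f g hf hg hfg hmem
    rw [hdeg, Finset.mem_Ioc] at hmem
    have hsum : f.natDegree + g.natDegree = 4 := by
      rw [← hf.natDegree_mul hg, hfg, hdeg]
    by_cases hg1 : g.natDegree = 1
    · have h3 := hg.eq_X_add_C hg1
      have h4 : eval (-(g.coeff 0)) (f * g) = 0 := by
        rw [eval_mul]
        conv_lhs => rw [h3]
        simp
      rw [hfg] at h4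
      simp only [eval_sub, eval_pow, eval_X, eval_C] at h4
      apply h1 ((g.coeff 0) ^ 2)
      linear_combination h4
    · have hg2 : g.natDegree = 2 := by omega
      have hf2 : f.natDegree = 2 := by omega
      have hg3 := hg.as_sum
      have hf3 := hf.as_sum
      rw [hg2, Finset.sum_range_succ, Finset.sum_range_one, pow_zero, mul_one, pow_one] at hg3
      rw [hf2, Finset.sum_range_succ, Finset.sum_range_one, pow_zero, mul_one, pow_one] at hf3
      obtain ⟨b, hb⟩ : ∃ b, b = g.coeff 1 := ⟨_, rfl⟩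
      obtain ⟨c, hc⟩ : ∃ c, c = g.coeff 0 := ⟨_, rfl⟩
      obtain ⟨b', hb'⟩ : ∃ b', b' = f.coeff 1 := ⟨_, rfl⟩
      obtain ⟨c', hc'⟩ : ∃ c', c' = f.coeff 0 := ⟨_, rfl⟩
      rw [← hb, ← hc] at hg3
      rw [← hb', ← hc'] at hf3
      have key : (X ^ 4 - C a : M[X]) = X ^ 4 + C (b + b') * X ^ 3 + C (c + c' + b * b') * X ^ 2 +
          C (b * c' + b' * c) * X + C (c * c') := by
        rw [← hfg, hf3, hg3]
        simp only [C_add, C_mul]
        ring
      have k3 := congrArg (fun P : M[X] => P.coeff 3) key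
      have k2 := congrArg (fun P : M[X] => P.coeff 2) key
      have k1 := congrArg (fun P : M[X] => P.coeff 1) key
      have k0 := congrArg (fun P : M[X] => P.coeff 0) key
      obtain ⟨t3, ht3⟩ : ∃ t, t = b + b' := ⟨_, rfl⟩
      obtain ⟨t2, ht2⟩ : ∃ t, t = c + c' + b * b' := ⟨_, rfl⟩
      obtain ⟨t1, ht1⟩ : ∃ t, t = b * c' + b' * c := ⟨_, rfl⟩
      obtain ⟨t0, ht0⟩ : ∃ t, t = c * c' := ⟨_, rfl⟩
      rw [← ht3, ← ht2, ← ht1, ← ht0] at k3 k2 k1 k0
      simp [coeff_X, coeff_C] at k3 k2 k1 k0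
      rw [ht3] at k3
      rw [ht2] at k2
      rw [ht1] at k1
      rw [ht0] at k0
      have e1 : b' = -b := by linear_combination -k3
      subst e1
      have e2 : b * (c' - c) = 0 := by linear_combination -k1
      rcases mul_eq_zero.1 e2 with h | h
      · apply h1 c
        rw [h] at k2
        linear_combination -c * k2 + k0
      · apply h2 c
        linear_combination -k0 - c * h

/-- the order of the cover -/
lemma exists_order {m : ℕ} (hm : 3 ≤ m) : ∃ p, 3 ≤ p ∧ p ∣ m ∧ (p.Prime ∨ p = 4) := by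
  by_cases h : ∃ p, p.Prime ∧ p ≠ 2 ∧ p ∣ m
  · obtain ⟨p, h1, h2, h3⟩ := h
    have := h1.two_le
    exact ⟨p, by omega, h3, Or.inl h1⟩
  · push Not at h
    have h1 : ∃ k, m = 2 ^ k := by
      refine ⟨m.primeFactorsList.length, ?_⟩
      apply Nat.eq_prime_pow_of_unique_prime_dvd (by omega)
      intro d hd hdm
      by_contra hcon
      exact h d hd hcon hdm
    obtain ⟨k, rfl⟩ := h1
    have hk : 2 ≤ k := by
      by_contra hcon
      have : k = 0 ∨ k = 1 := by omega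
      rcases this with rfl | rfl <;> norm_num at hm
    refine ⟨4, by norm_num, ?_, Or.inr rfl⟩
    have : (4 : ℕ) = 2 ^ 2 := by norm_num
    rw [this]
    exact pow_dvd_pow _ hk

lemma trans_of_irr {K L Ω : Type} [Field K] [Field L] [CharZero L] [Field Ω] [Algebra L Ω]
    [IsAlgClosed Ω] [Algebra.IsAlgebraic L Ω] {p : ℕ} (hp0 : p ≠ 0) (σ₀ : K →+* Ω) {b : Ω}
    (hb : b ∈ IntermediateField.adjoin L (Set.range σ₀))
    (hPi : Irreducible (X ^ p - C (⟨b, hb⟩ : IntermediateField.adjoin L (Set.range σ₀)) :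
      (IntermediateField.adjoin L (Set.range σ₀))[X])) {r₀ : Ω} (hr₀ : r₀ ^ p = b) :
    ∃ R : Finset Ω, p ≤ R.card ∧ ∀ r ∈ R,
      ∃ τ : Ω ≃ₐ[L] Ω, (∀ k, τ (σ₀ k) = σ₀ k) ∧ τ r₀ = r := by
  classical
  obtain ⟨P, hP⟩ : ∃ P, P = (X ^ p - C (⟨b, hb⟩ : IntermediateField.adjoin L (Set.range σ₀)) :
    (IntermediateField.adjoin L (Set.range σ₀))[X]) := ⟨_, rfl⟩
  rw [← hP] at hPi
  have hPm : P.Monic := by rw [hP]; exact monic_X_pow_sub_C _ hp0
  have hP0 : aeval r₀ P = 0 := by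
    rw [hP, map_sub, map_pow, aeval_X, aeval_C, hr₀]
    exact sub_self _
  have halg0 : Algebra.IsAlgebraic (IntermediateField.adjoin L (Set.range σ₀)) Ω :=
    Algebra.IsAlgebraic.tower_top (K := L) (IntermediateField.adjoin L (Set.range σ₀))
  have hnorm : Normal (IntermediateField.adjoin L (Set.range σ₀)) Ω :=
    { toIsAlgebraic := inferInstance
      splits' := fun _ => IsAlgClosed.splits _ }
  have hmin : minpoly (IntermediateField.adjoin L (Set.range σ₀)) r₀ = P :=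
    (minpoly.eq_of_irreducible_of_monic hPi hP0 hPm).symm
  have hch : CharZero (IntermediateField.adjoin L (Set.range σ₀)) :=
    charZero_of_injective_algebraMap
      (algebraMap L (IntermediateField.adjoin L (Set.range σ₀))).injective
  have hsep : P.Separable := hPi.separable
  have hcard := card_rootSet_eq_natDegree (K := Ω) hsep (IsAlgClosed.splits _)
  have hPd : P.natDegree = p := by rw [hP]; exact natDegree_X_pow_sub_C
  refine ⟨(P.rootSet Ω).toFinset, ?_, ?_⟩
  · rw [Set.toFinset_card, hcard, hPd]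
  · intro r hr
    rw [Set.mem_toFinset] at hr
    have h1 := aeval_eq_zero_of_mem_rootSet hr
    obtain ⟨τ, hτ⟩ := minpoly.exists_algEquiv_of_root'
      (K := IntermediateField.adjoin L (Set.range σ₀)) (L := Ω) (x := r) (y := r₀)
      (Algebra.IsAlgebraic.isAlgebraic _) (by rw [hmin]; exact h1)
    refine ⟨τ.restrictScalars L, fun k => ?_, hτ⟩
    have h2 := τ.commutes ⟨σ₀ k, IntermediateField.subset_adjoin L _ ⟨k, rfl⟩⟩
    exact h2

/-- the conjugates of a root of order `p` over a compositum, `p` prime or four -/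
lemma order_trans {K L Ω : Type} [Field K] [Field L] [CharZero L] [Field Ω] [Algebra L Ω]
    [IsAlgClosed Ω] [Algebra.IsAlgebraic L Ω] {p : ℕ} (hp : p.Prime ∨ p = 4) (σ₀ : K →+* Ω) {b : Ω}
    (hb : b ∈ IntermediateField.adjoin L (Set.range σ₀))
    (hnp : ∀ q : ℕ, q.Prime → q ∣ p → ∀ w ∈ IntermediateField.adjoin L (Set.range σ₀),
      w ^ q ≠ b ∧ w ^ q ≠ -b) {r₀ : Ω} (hr₀ : r₀ ^ p = b) :
    ∃ R : Finset Ω, p ≤ R.card ∧ ∀ r ∈ R,
      ∃ τ : Ω ≃ₐ[L] Ω, (∀ k, τ (σ₀ k) = σ₀ k) ∧ τ r₀ = r := by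
  have hp0 : p ≠ 0 := by
    rcases hp with h | h
    · exact h.ne_zero
    · omega
  refine trans_of_irr hp0 σ₀ hb ?_ hr₀
  have hch : CharZero (IntermediateField.adjoin L (Set.range σ₀)) :=
    charZero_of_injective_algebraMap
      (algebraMap L (IntermediateField.adjoin L (Set.range σ₀))).injective
  rcases hp with h | rfl
  · apply X_pow_sub_C_irreducible_of_prime h
    intro w hw
    apply (hnp p h dvd_rfl (w : Ω) w.2).1
    exact congrArg (fun u : IntermediateField.adjoin L (Set.range σ₀) => (u : Ω)) hw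
  · apply quartic_irr
    · intro w hw
      apply (hnp 2 Nat.prime_two (by norm_num) (w : Ω) w.2).1
      exact congrArg (fun u : IntermediateField.adjoin L (Set.range σ₀) => (u : Ω)) hw
    · intro w hw
      apply (hnp 2 Nat.prime_two (by norm_num) (w : Ω) w.2).2
      exact congrArg (fun u : IntermediateField.adjoin L (Set.range σ₀) => (u : Ω)) hw

section

open NumberField Ideal UniqueFactorizationMonoid

variable {K : Type} [Field K] [NumberField K]

theorem almost_power2 {p : ℕ} (hp : 2 ≤ p) {R a : 𝓞 K} (hR : R ≠ 0) (J : Ideal (𝓞 K))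
    (h1 : J ^ p ≤ span {a}) {k : ℕ} (h2 : R ^ k * a ∈ J ^ p) :
    ∃ 𝔟 𝔡 : Ideal (𝓞 K), 𝔡 ∣ span {R} ^ (p - 1) ∧ span {a} = 𝔡 * 𝔟 ^ p := by
  classical
  by_cases ha : a = 0
  · refine ⟨0, 1, one_dvd _, ?_⟩
    rw [ha, zero_pow (by omega), mul_zero]
    exact span_singleton_eq_bot.2 rfl
  have hI : span {a} ≠ 0 := by
    rw [Ne, zero_eq_bot, span_singleton_eq_bot]; exact ha
  have hRI : span {R} ≠ 0 := by
    rw [Ne, zero_eq_bot, span_singleton_eq_bot]; exact hR
  obtain ⟨𝔡, 𝔟, e1, e2⟩ := pfree (K := K) p hp _ (span {a}) hI le_rfl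
  refine ⟨𝔟, 𝔡, ?_, e1⟩
  have h𝔡 : 𝔡 ≠ 0 := by rintro rfl; rw [zero_mul] at e1; exact hI e1
  have h𝔟 : 𝔟 ≠ 0 := by
    rintro rfl
    rw [zero_pow (by omega), mul_zero] at e1; exact hI e1
  obtain ⟨𝔠, h𝔠⟩ := Ideal.dvd_iff_le.2 h1
  have hdvd : 𝔠 ∣ span {R} ^ k := by
    have h3 : J ^ p ∣ span {R ^ k * a} := by
      rw [Ideal.dvd_iff_le, span_singleton_le_iff_mem]
      exact h2
    rw [h𝔠, ← span_singleton_mul_span_singleton, ← span_singleton_pow, mul_comm] at h3
    exact (mul_dvd_mul_iff_right hI).1 h3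
  have h𝔠0 : 𝔠 ≠ 0 := by
    rintro rfl
    exact (pow_ne_zero k hRI) (zero_dvd_iff.1 hdvd)
  have hJ0 : J ≠ 0 := by
    rintro rfl
    rw [zero_pow (by omega)] at h𝔠
    exact (mul_ne_zero hI h𝔠0) h𝔠.symm
  rw [dvd_iff_normalizedFactors_le_normalizedFactors h𝔡 (pow_ne_zero _ hRI), Multiset.le_iff_count]
  intro 𝔮
  by_cases h𝔮 : 𝔮 ∈ normalizedFactors 𝔡
  swap
  · rw [Multiset.count_eq_zero_of_notMem h𝔮]; exact Nat.zero_le _
  have h𝔮i : Irreducible 𝔮 := irreducible_of_normalized_factor 𝔮 h𝔮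
  obtain ⟨δ, hδ⟩ : ∃ δ, δ = Multiset.count 𝔮 (normalizedFactors 𝔡) := ⟨_, rfl⟩
  have hδ1 : 1 ≤ δ := by rw [hδ]; exact Multiset.one_le_count_iff_mem.2 h𝔮
  have hδp : δ < p := by
    by_contra hcon
    push Not at hcon
    apply e2 𝔮 h𝔮i
    rw [dvd_iff_normalizedFactors_le_normalizedFactors (pow_ne_zero _ h𝔮i.ne_zero) h𝔡,
      normalizedFactors_pow, normalizedFactors_irreducible h𝔮i, Multiset.nsmul_singleton,
      normalize_eq, ← Multiset.le_count_iff_replicate_le]
    omega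
  rw [normalizedFactors_pow, Multiset.count_nsmul, ← hδ]
  obtain ⟨ρ, hρ⟩ : ∃ ρ, ρ = Multiset.count 𝔮 (normalizedFactors (span {R})) := ⟨_, rfl⟩
  rw [← hρ]
  have hρ1 : 1 ≤ ρ := by
    by_contra hcon
    have hρ0 : ρ = 0 := by omega
    have hr0 : Multiset.count 𝔮 (normalizedFactors 𝔠) = 0 := by
      have := (Multiset.le_iff_count.1 ((dvd_iff_normalizedFactors_le_normalizedFactors h𝔠0
        (pow_ne_zero k hRI)).1 hdvd)) 𝔮
      rw [normalizedFactors_pow, Multiset.count_nsmul, ← hρ, hρ0, mul_zero] at this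
      omega
    have hcount := congrArg (fun I => Multiset.count 𝔮 (normalizedFactors I)) h𝔠
    rw [normalizedFactors_pow, Multiset.count_nsmul, normalizedFactors_mul hI h𝔠0,
      Multiset.count_add, hr0, add_zero, e1, normalizedFactors_mul h𝔡 (pow_ne_zero _ h𝔟),
      Multiset.count_add, normalizedFactors_pow, Multiset.count_nsmul, ← hδ] at hcount
    have h5 : p ∣ δ := (Nat.dvd_add_left (⟨_, rfl⟩ : p ∣ p * Multiset.count 𝔮
      (normalizedFactors 𝔟))).1 ⟨_, hcount.symm⟩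
    have := Nat.le_of_dvd (by omega) h5
    omega
  calc δ ≤ (p - 1) * 1 := by omega
    _ ≤ (p - 1) * ρ := Nat.mul_le_mul_left _ hρ1

end

end Pool.Agent.H90GC
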