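import Pool.Agent.H90GC.H4
import Pool.Agent.H90GC.H5

set_option autoImplicit false

/-!
Twists of a cover by a root of a function with a power of an ideal as its divisor.
-/

open Polynomial Finset NumberField

namespace Pool.Agent.H90GC

open Pool.Agent.H322R2 Pool.Agent.H90TL Pool.Agent.Y910.G

section

variable {K : Type} [Field K] [NumberField K] {n : ℕ}

/-- the polynomial with the given coordinates -/
noncomputable def asm (ω : Fin n → 𝓞 K) (A : Fin n → MvPolynomial (Fin 2) ℤ) :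
    MvPolynomial (Fin 2) (𝓞 K) :=
  ∑ j, MvPolynomial.C (ω j) * MvPolynomial.map (Int.castRingHom (𝓞 K)) (A j)

/-- the integer coordinates of the twisted function -/
noncomputable def tw (ω : Module.Basis (Fin n) ℤ (𝓞 K)) (θ : 𝓞 K)
    (A : Fin n → MvPolynomial (Fin 2) ℤ) (i : Fin n) : MvPolynomial (Fin 2) ℤ :=
  -∑ j, ((ω.repr (θ * ω j) i : ℤ) : MvPolynomial (Fin 2) ℤ) * A j

/-- size of the twist -/
noncomputable def mu (ω : Module.Basis (Fin n) ℤ (𝓞 K)) (θ : 𝓞 K) : ℕ :=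
  ∑ i, ∑ j, (ω.repr (θ * ω j) i).natAbs

lemma tw_sum (ω : Module.Basis (Fin n) ℤ (𝓞 K)) (θ : 𝓞 K) {S : Type} [CommRing S] (τ : 𝓞 K →+* S)
    (v : Fin n → S) : ∑ i, (-∑ j, ((ω.repr (θ * ω j) i : ℤ) : S) * v j) * τ (ω i) =
      -(τ θ * ∑ j, v j * τ (ω j)) := by
  simp only [neg_mul, Finset.sum_neg_distrib]
  congr 1
  simp only [Finset.sum_mul]
  rw [Finset.sum_comm, Finset.mul_sum]
  apply Finset.sum_congr rfl
  intro j _
  have h1 : τ (θ * ω j) = ∑ i, ((ω.repr (θ * ω j) i : ℤ) : S) * τ (ω i) := by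
    conv_lhs => rw [← ω.sum_repr (θ * ω j)]
    rw [map_sum]
    apply Finset.sum_congr rfl
    intro i _
    rw [zsmul_eq_mul, map_mul, map_intCast]
  rw [map_mul] at h1
  calc _ = v j * ∑ i, ((ω.repr (θ * ω j) i : ℤ) : S) * τ (ω i) := by
        rw [Finset.mul_sum]
        apply Finset.sum_congr rfl
        intro i _
        ring
    _ = _ := by rw [← h1]; ring

lemma map_tw (ω : Module.Basis (Fin n) ℤ (𝓞 K)) (θ : 𝓞 K) (A : Fin n → MvPolynomial (Fin 2) ℤ)
    {S : Type} [CommRing S] (g : MvPolynomial (Fin 2) ℤ →+* S) (i : Fin n) :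
    g (tw ω θ A i) = -∑ j, ((ω.repr (θ * ω j) i : ℤ) : S) * g (A j) := by
  rw [tw, map_neg, map_sum]
  congr 1
  apply Finset.sum_congr rfl
  intro j _
  rw [map_mul, map_intCast]

lemma tw_deg (ω : Module.Basis (Fin n) ℤ (𝓞 K)) (θ : 𝓞 K) {A : Fin n → MvPolynomial (Fin 2) ℤ}
    {d : ℕ} (hA : ∀ j, (A j).totalDegree ≤ d) (i : Fin n) : (tw ω θ A i).totalDegree ≤ d := by
  rw [tw, MvPolynomial.totalDegree_neg]
  apply MvPolynomial.totalDegree_finsetSum_le
  intro j _
  have h1 : ((ω.repr (θ * ω j) i : ℤ) : MvPolynomial (Fin 2) ℤ) =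
      MvPolynomial.C (ω.repr (θ * ω j) i) := by simp
  rw [h1]
  refine (MvPolynomial.totalDegree_mul _ _).trans ?_
  rw [MvPolynomial.totalDegree_C, zero_add]
  exact hA j

lemma len_eq' {F : MvPolynomial (Fin 2) ℤ} {s : Finset (Fin 2 →₀ ℕ)} (h : F.support ⊆ s) :
    len F = ∑ m ∈ s, (F.coeff m).natAbs := by
  unfold len
  apply Finset.sum_subset h
  intro m _ hm
  rw [MvPolynomial.notMem_support_iff.1 hm]; rfl

lemma len_add' (F G : MvPolynomial (Fin 2) ℤ) : len (F + G) ≤ len F + len G := by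
  classical
  have h1 : (F + G).support ⊆ F.support ∪ G.support := MvPolynomial.support_add
  rw [len_eq' h1, len_eq' (F := F) (s := F.support ∪ G.support) Finset.subset_union_left,
    len_eq' (F := G) (s := F.support ∪ G.support) Finset.subset_union_right,
    ← Finset.sum_add_distrib]
  apply Finset.sum_le_sum
  intro m _
  rw [MvPolynomial.coeff_add]
  exact Int.natAbs_add_le _ _

lemma len_neg' (F : MvPolynomial (Fin 2) ℤ) : len (-F) = len F := by
  unfold len
  rw [MvPolynomial.support_neg]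
  apply Finset.sum_congr rfl
  intro m _
  rw [MvPolynomial.coeff_neg, Int.natAbs_neg]

lemma len_intCast_mul (z : ℤ) (F : MvPolynomial (Fin 2) ℤ) :
    len ((z : MvPolynomial (Fin 2) ℤ) * F) ≤ z.natAbs * len F := by
  have h1 : (z : MvPolynomial (Fin 2) ℤ) * F = MvPolynomial.C z * F := by simp
  have h2 : (MvPolynomial.C z * F).support ⊆ F.support := by
    intro m hm
    rw [MvPolynomial.mem_support_iff, MvPolynomial.coeff_C_mul] at hm
    rw [MvPolynomial.mem_support_iff]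
    intro h3
    exact hm (by rw [h3, mul_zero])
  rw [h1, len_eq' h2, len, Finset.mul_sum]
  apply Finset.sum_le_sum
  intro m _
  rw [MvPolynomial.coeff_C_mul, Int.natAbs_mul]

lemma len_sum' {ι : Type} (s : Finset ι) (f : ι → MvPolynomial (Fin 2) ℤ) :
    len (∑ j ∈ s, f j) ≤ ∑ j ∈ s, len (f j) := by
  classical
  induction s using Finset.induction_on with
  | empty => simp [len]
  | insert a s ha ih =>
    rw [Finset.sum_insert ha, Finset.sum_insert ha]
    exact (len_add' _ _).trans (by omega)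

lemma len_tw (ω : Module.Basis (Fin n) ℤ (𝓞 K)) (θ : 𝓞 K) (A : Fin n → MvPolynomial (Fin 2) ℤ)
    (i : Fin n) : len (tw ω θ A i) ≤ mu ω θ * ∑ j, len (A j) := by
  rw [tw, len_neg']
  refine (len_sum' _ _).trans ?_
  calc ∑ j, len (((ω.repr (θ * ω j) i : ℤ) : MvPolynomial (Fin 2) ℤ) * A j)
      ≤ ∑ j, (ω.repr (θ * ω j) i).natAbs * ∑ j, len (A j) := by
        apply Finset.sum_le_sum
        intro j _
        refine (len_intCast_mul _ _).trans (Nat.mul_le_mul_left _ ?_)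
        exact Finset.single_le_sum (f := fun j => len (A j)) (fun _ _ => Nat.zero_le _)
          (Finset.mem_univ j)
    _ = (∑ j, (ω.repr (θ * ω j) i).natAbs) * ∑ j, len (A j) := by rw [Finset.sum_mul]
    _ ≤ _ := by
      apply Nat.mul_le_mul_right
      exact Finset.single_le_sum (f := fun i => ∑ j, (ω.repr (θ * ω j) i).natAbs)
        (fun _ _ => Nat.zero_le _) (Finset.mem_univ i)

lemma eval_map_int (F : MvPolynomial (Fin 2) ℤ) (x y : ℤ) :
    MvPolynomial.eval ![(x : 𝓞 K), (y : 𝓞 K)] (MvPolynomial.map (Int.castRingHom (𝓞 K)) F) =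
      ((MvPolynomial.eval ![x, y] F : ℤ) : 𝓞 K) := by
  have h : (MvPolynomial.eval ![(x : 𝓞 K), (y : 𝓞 K)]).comp
      (MvPolynomial.map (Int.castRingHom (𝓞 K))) =
      (Int.castRingHom (𝓞 K)).comp (MvPolynomial.eval ![x, y]) := by
    apply MvPolynomial.ringHom_ext
    · intro r
      simp
    · intro i
      fin_cases i <;> simp
  exact congrArg (fun g : MvPolynomial (Fin 2) ℤ →+* 𝓞 K => g F) h

lemma eval_asm (ω : Fin n → 𝓞 K) (A : Fin n → MvPolynomial (Fin 2) ℤ) (x y : ℤ) :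
    MvPolynomial.eval ![(x : 𝓞 K), (y : 𝓞 K)] (asm ω A) =
      ∑ j, ((MvPolynomial.eval ![x, y] (A j) : ℤ) : 𝓞 K) * ω j := by
  rw [asm, map_sum]
  apply Finset.sum_congr rfl
  intro j _
  rw [map_mul, MvPolynomial.eval_C, eval_map_int, mul_comm]

/-- the value of the function is almost a power -/
lemma value_power {ω : Fin n → 𝓞 K} {A : Fin n → MvPolynomial (Fin 2) ℤ}
    {F : MvPolynomial (Fin 2) ℤ} {J : Ideal (MvPolynomial (Fin 2) (𝓞 K))} {m k p : ℕ} {R : 𝓞 K}
    (hp : 2 ≤ p) (hpm : p ∣ m) (hR : R ≠ 0)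
    (h1 : J ^ m ≤ Ideal.span {asm ω A, MvPolynomial.map (Int.castRingHom (𝓞 K)) F})
    (h2 : MvPolynomial.C R ^ k * asm ω A ∈
      J ^ m ⊔ Ideal.span {MvPolynomial.map (Int.castRingHom (𝓞 K)) F}) {x y : ℤ}
    (hxy : MvPolynomial.eval ![x, y] F = 0) :
    ∃ 𝔟 𝔡 : Ideal (𝓞 K), 𝔡 ∣ Ideal.span {R} ^ (p - 1) ∧
      Ideal.span {∑ j, ((MvPolynomial.eval ![x, y] (A j) : ℤ) : 𝓞 K) * ω j} = 𝔡 * 𝔟 ^ p := by
  obtain ⟨m1, rfl⟩ := hpm
  obtain ⟨e, he⟩ : ∃ e, e = MvPolynomial.eval ![(x : 𝓞 K), (y : 𝓞 K)] := ⟨_, rfl⟩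
  have heF : e (MvPolynomial.map (Int.castRingHom (𝓞 K)) F) = 0 := by
    rw [he, eval_map_int, hxy, Int.cast_zero]
  have heA : e (asm ω A) = ∑ j, ((MvPolynomial.eval ![x, y] (A j) : ℤ) : 𝓞 K) * ω j := by
    rw [he, eval_asm]
  rw [← heA]
  have hpow : (J.map e ^ m1) ^ p = (J ^ (p * m1)).map e := by
    rw [Ideal.map_pow, ← pow_mul, mul_comm]
  apply almost_power2 (k := k) hp hR (J.map e ^ m1)
  · rw [hpow, Ideal.map_le_iff_le_comap]
    refine h1.trans ?_
    rw [Ideal.span_le]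
    intro g hg
    rcases hg with rfl | hg
    · exact Ideal.subset_span rfl
    · rw [Set.mem_singleton_iff] at hg
      rw [hg, SetLike.mem_coe, Ideal.mem_comap, heF]
      exact Ideal.zero_mem _
  · rw [hpow]
    have h3 : J ^ (p * m1) ⊔ Ideal.span {MvPolynomial.map (Int.castRingHom (𝓞 K)) F} ≤
        ((J ^ (p * m1)).map e).comap e := by
      refine sup_le Ideal.le_comap_map ?_
      rw [Ideal.span_le, Set.singleton_subset_iff, SetLike.mem_coe, Ideal.mem_comap, heF]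
      exact Ideal.zero_mem _
    have h4 := h3 h2
    rw [Ideal.mem_comap, map_mul, map_pow] at h4
    have h5 : e (MvPolynomial.C R) = R := by rw [he, MvPolynomial.eval_C]
    rw [h5] at h4
    exact h4

end

end Pool.Agent.H90GC
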