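import Pool.Agent.H90GC.H7

set_option autoImplicit false

/-!
The ideal condition after inverting an integer.
-/

open NumberField

namespace Pool.Agent.H90GC

variable {K : Type} [Field K] [NumberField K]

/-- clearing the denominators of the ideal -/
lemma clear_ideal {m : ℕ} {R : 𝓞 K} {J : Ideal (MvPolynomial (Fin 2) (𝓞 K))}
    {A F : MvPolynomial (Fin 2) (𝓞 K)} {k : ℕ} (hm : 1 ≤ m)
    (h1 : ∀ g ∈ J ^ m, MvPolynomial.C R ^ k * g ∈ Ideal.span {A, F})
    (h2 : MvPolynomial.C R ^ k * A ∈ J ^ m ⊔ Ideal.span {F}) :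
    (Ideal.span {MvPolynomial.C R ^ k} * J) ^ m ≤ Ideal.span {A, F} ∧
      MvPolynomial.C R ^ (k * m + k) * A ∈
        (Ideal.span {MvPolynomial.C R ^ k} * J) ^ m ⊔ Ideal.span {F} := by
  rw [mul_pow, Ideal.span_singleton_pow]
  constructor
  · rw [Ideal.mul_le]
    intro r hr s hs
    rw [Ideal.mem_span_singleton'] at hr
    obtain ⟨b, rfl⟩ := hr
    obtain ⟨m', rfl⟩ : ∃ m', m = m' + 1 := ⟨m - 1, by omega⟩
    have h3 : b * (MvPolynomial.C R ^ k) ^ (m' + 1) * s =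
        (b * (MvPolynomial.C R ^ k) ^ m') * (MvPolynomial.C R ^ k * s) := by ring
    rw [h3]
    exact Ideal.mul_mem_left _ _ (h1 s hs)
  · rw [Submodule.mem_sup] at h2
    obtain ⟨g, hg, f, hf, hgf⟩ := h2
    rw [Submodule.mem_sup]
    refine ⟨(MvPolynomial.C R ^ k) ^ m * g, Ideal.mul_mem_mul (Ideal.mem_span_singleton_self _) hg,
      (MvPolynomial.C R ^ k) ^ m * f, Ideal.mul_mem_left _ _ hf, ?_⟩
    rw [← mul_add, hgf, pow_add, pow_mul]
    ring

end Pool.Agent.H90GC
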